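import Pool.Agent.Lib.MP_ad6874_nt.Spec2

set_option autoImplicit false

namespace Pool.Agent.Lib.MPad6874

namespace AR2M

lemma pos {u v : ℤ} (h : Pr u v) : 0 < ga u v ∧ 0 < gp u v ∧ 0 < gq u v ∧ 0 < gc u v := by
  obtain ⟨_, _, hv, huv, _⟩ := h
  have hu : 0 < u := by omega
  refine ⟨?_, ?_, ?_, ?_⟩
  · unfold ga; positivity
  · unfold gp; nlinarith
  · unfold gq; nlinarith
  · unfold gc; positivity

lemma low {u v : ℤ} (h : Pr u v) : u ^ 2 ≤ 9 * gp u v ∧ u ^ 2 ≤ 9 * gq u v := by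
  obtain ⟨_, _, hv, huv, _⟩ := h
  have hu : 0 < u := by omega
  constructor
  · unfold gp; nlinarith
  · unfold gq; nlinarith

lemma upp {u v : ℤ} (h : Pr u v) : gF u v ≤ (2 * u) ^ 12 ∧ gp u v ≤ u ^ 2 ∧ gq u v ≤ 2 * u ^ 2 := by
  have hpos := pos h
  obtain ⟨ha, hp, hq, hc⟩ := hpos
  obtain ⟨_, _, hv, huv, _⟩ := h
  have hu : 0 < u := by omega
  have hvu : v ≤ u := by omega
  have h1 : gp u v ≤ u ^ 2 := by unfold gp; nlinarith
  have h2 : gq u v ≤ 2 * u ^ 2 := by unfold gq; nlinarith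
  have hv4 : v ^ 4 ≤ u ^ 4 := pow_le_pow_left₀ hv.le hvu 4
  have hv2 : v ^ 2 ≤ u ^ 2 := pow_le_pow_left₀ hv.le hvu 2
  have h3 : ga u v ≤ 2 * u ^ 4 := by unfold ga; linarith
  have h4 : gc u v ≤ 8 * u ^ 4 := by
    unfold gc
    nlinarith [sq_nonneg u, mul_le_mul_of_nonneg_left hv2 (sq_nonneg u)]
  refine ⟨?_, h1, h2⟩
  have h5 : gb u v ≤ u ^ 2 * (2 * u ^ 2) := by
    unfold gb
    exact mul_le_mul h1 h2 hq.le (by positivity)
  have hb : 0 < gb u v := by unfold gb; positivity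
  have h6 : ga u v * gb u v ≤ 2 * u ^ 4 * (u ^ 2 * (2 * u ^ 2)) := mul_le_mul h3 h5 hb.le (by positivity)
  have h7 : ga u v * gb u v * gc u v ≤ 2 * u ^ 4 * (u ^ 2 * (2 * u ^ 2)) * (8 * u ^ 4) :=
    mul_le_mul h6 h4 hc.le (by positivity)
  have h8 : 2 * u ^ 4 * (u ^ 2 * (2 * u ^ 2)) * (8 * u ^ 4) = 32 * u ^ 12 := by ring
  have h9 : (2 * u) ^ 12 = 4096 * u ^ 12 := by ring
  rw [gF, h9]
  have h10 : 0 < u ^ 12 := by positivity
  linarith

lemma odds {u v : ℤ} (h : Pr u v) : Odd (ga u v) ∧ Odd (gp u v) ∧ Odd (gq u v) ∧ Odd (gc u v) := by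
  obtain ⟨h1, h2, _⟩ := h
  have hu : Even u := ⟨u / 2, by omega⟩
  have hv : Odd v := ⟨v / 2, by omega⟩
  refine ⟨?_, ?_, ?_, ?_⟩
  · unfold ga; exact (hu.pow_of_ne_zero (by norm_num)).add_odd hv.pow
  · unfold gp
    have : Even (u ^ 2 - 2 * u * v) := (hu.pow_of_ne_zero (by norm_num)).sub ((hu.mul_left 2).mul_right v)
    exact this.sub_odd hv.pow
  · unfold gq
    have : Even (u ^ 2 + 2 * u * v) := (hu.pow_of_ne_zero (by norm_num)).add ((hu.mul_left 2).mul_right v)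
    exact this.sub_odd hv.pow
  · unfold gc
    have : Even (u ^ 4 + 6 * (u ^ 2 * v ^ 2)) :=
      (hu.pow_of_ne_zero (by norm_num)).add (((hu.pow_of_ne_zero (by norm_num)).mul_right _).mul_left _)
    exact this.add_odd hv.pow

lemma thr {u v : ℤ} (h : Pr u v) : ga u v % 3 = 2 ∧ gb u v % 3 = 2 ∧ gc u v % 3 = 2 := by
  obtain ⟨h1, h2, _⟩ := h
  obtain ⟨a, rfl⟩ : ∃ a, u = 3 * a + 2 := ⟨u / 3, by omega⟩
  obtain ⟨b, rfl⟩ : ∃ b, v = 3 * b + 1 := ⟨v / 3, by omega⟩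
  have e1 : (3 * a + 2 : ℤ) ≡ 2 [ZMOD 3] := by
    rw [Int.modEq_iff_dvd]; exact ⟨-a, by ring⟩
  have e2 : (3 * b + 1 : ℤ) ≡ 1 [ZMOD 3] := by
    rw [Int.modEq_iff_dvd]; exact ⟨-b, by ring⟩
  refine ⟨?_, ?_, ?_⟩
  · have : ga (3 * a + 2) (3 * b + 1) ≡ 2 ^ 4 + 1 ^ 4 [ZMOD 3] := (e1.pow 4).add (e2.pow 4)
    exact this
  · have h3 : gp (3 * a + 2) (3 * b + 1) ≡ 2 ^ 2 - 2 * 2 * 1 - 1 ^ 2 [ZMOD 3] :=
      ((e1.pow 2).sub ((e1.mul_left 2).mul e2)).sub (e2.pow 2)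
    have h4 : gq (3 * a + 2) (3 * b + 1) ≡ 2 ^ 2 + 2 * 2 * 1 - 1 ^ 2 [ZMOD 3] :=
      ((e1.pow 2).add ((e1.mul_left 2).mul e2)).sub (e2.pow 2)
    exact h3.mul h4
  · have : gc (3 * a + 2) (3 * b + 1) ≡ 2 ^ 4 + 6 * (2 ^ 2 * 1 ^ 2) + 1 ^ 4 [ZMOD 3] :=
      ((e1.pow 4).add (((e1.pow 2).mul (e2.pow 2)).mul_left 6)).add (e2.pow 4)
    exact this

lemma six {n : ℤ} (h1 : Odd n) (h2 : n % 3 = 2) : IsCoprime n (6 : ℤ) := by
  refine ⟨-1, n / 6 + 1, ?_⟩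
  obtain ⟨k, hk⟩ := h1
  omega

lemma two {n : ℤ} (h1 : Odd n) : IsCoprime n (2 : ℤ) := by
  obtain ⟨k, hk⟩ := h1
  exact ⟨1, -k, by linarith⟩

lemma sub_cop {a m : ℤ} (h : IsCoprime a m) : IsCoprime a (a - m) := by
  obtain ⟨x, y, hxy⟩ := h
  exact ⟨x + y, -y, by linarith⟩

lemma add_cop {a m : ℤ} (h : IsCoprime a m) : IsCoprime a (a + m) := by
  obtain ⟨x, y, hxy⟩ := h
  exact ⟨x - y, y, by linarith⟩

lemma ga_u {u v : ℤ} (h : IsCoprime u v) : IsCoprime (ga u v) u ∧ IsCoprime (ga u v) v := by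
  constructor
  · have h1 : IsCoprime (v ^ 4) u := h.symm.pow_left
    have h2 := h1.add_mul_left_left (u ^ 3)
    have e : v ^ 4 + u * u ^ 3 = ga u v := by unfold ga; ring
    rwa [e] at h2
  · have h1 : IsCoprime (u ^ 4) v := h.pow_left
    have h2 := h1.add_mul_left_left (v ^ 3)
    have e : u ^ 4 + v * v ^ 3 = ga u v := by unfold ga; ring
    rwa [e] at h2

lemma gc_u {u v : ℤ} (h : IsCoprime u v) : IsCoprime (gc u v) u ∧ IsCoprime (gc u v) v := by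
  constructor
  · have h1 : IsCoprime (v ^ 4) u := h.symm.pow_left
    have h2 := h1.add_mul_left_left (u ^ 3 + 6 * (u * v ^ 2))
    have e : v ^ 4 + u * (u ^ 3 + 6 * (u * v ^ 2)) = gc u v := by unfold gc; ring
    rwa [e] at h2
  · have h1 : IsCoprime (u ^ 4) v := h.pow_left
    have h2 := h1.add_mul_left_left (v ^ 3 + 6 * (u ^ 2 * v))
    have e : u ^ 4 + v * (v ^ 3 + 6 * (u ^ 2 * v)) = gc u v := by unfold gc; ring
    rwa [e] at h2

lemma gp_u {u v : ℤ} (h : IsCoprime u v) : IsCoprime (gp u v) u ∧ IsCoprime (gp u v) v := by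
  constructor
  · have h1 : IsCoprime (-(v ^ 2)) u := h.symm.pow_left.neg_left
    have h2 := h1.add_mul_left_left (u - 2 * v)
    have e : -(v ^ 2) + u * (u - 2 * v) = gp u v := by unfold gp; ring
    rwa [e] at h2
  · have h1 : IsCoprime (u ^ 2) v := h.pow_left
    have h2 := h1.add_mul_left_left (-(2 * u) - v)
    have e : u ^ 2 + v * (-(2 * u) - v) = gp u v := by unfold gp; ring
    rwa [e] at h2

lemma cop {u v : ℤ} (h : Pr u v) : IsCoprime (ga u v) (gb u v) ∧ IsCoprime (ga u v) (gc u v) ∧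
    IsCoprime (gb u v) (gc u v) ∧ IsCoprime (gp u v) (gq u v) := by
  obtain ⟨o1, o2, o3, o4⟩ := odds h
  obtain ⟨t1, t2, t3⟩ := thr h
  have hc : IsCoprime u v := h.2.2.2.2
  obtain ⟨a1, a2⟩ := ga_u hc
  obtain ⟨c1, c2⟩ := gc_u hc
  obtain ⟨p1, p2⟩ := gp_u hc
  have A : IsCoprime (ga u v) (6 * (u ^ 2 * v ^ 2)) :=
    (six o1 t1).mul_right (a1.pow_right.mul_right a2.pow_right)
  have Cc : IsCoprime (gc u v) (2 * (6 * (u ^ 2 * v ^ 2))) :=
    (two o4).mul_right ((six o4 t3).mul_right (c1.pow_right.mul_right c2.pow_right))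
  have Pp : IsCoprime (gp u v) (2 * (2 * (u * v))) :=
    (two o2).mul_right ((two o2).mul_right (p1.mul_right p2))
  refine ⟨?_, ?_, ?_, ?_⟩
  · have := sub_cop A
    have e : ga u v - 6 * (u ^ 2 * v ^ 2) = gb u v := by unfold ga gb gp gq; ring
    rwa [e] at this
  · have := add_cop A
    have e : ga u v + 6 * (u ^ 2 * v ^ 2) = gc u v := by unfold ga gc; ring
    rwa [e] at this
  · have := sub_cop Cc
    have e : gc u v - 2 * (6 * (u ^ 2 * v ^ 2)) = gb u v := by unfold gc gb gp gq; ring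
    rw [e] at this
    exact this.symm
  · have := add_cop Pp
    have e : gp u v + 2 * (2 * (u * v)) = gq u v := by unfold gp gq; ring
    rwa [e] at this

lemma not_sq {m n : ℤ} (hm : 0 < m) (h3 : m % 3 = 2) (hc : IsCoprime m n) :
    ¬ IsSquare ((m * n : ℤ) : ℚ) := by
  rw [Rat.isSquare_intCast_iff]
  rintro ⟨r, hr⟩
  obtain ⟨a, ha⟩ := Int.sq_of_isCoprime hc (by rw [hr]; ring : m * n = r ^ 2)
  rcases ha with ha | ha
  · have h4 : ∃ k, a = 3 * k ∨ a = 3 * k + 1 ∨ a = 3 * k + 2 := ⟨a / 3, by omega⟩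
    obtain ⟨k, hk⟩ := h4
    rcases hk with hk | hk | hk
    · have : m = 3 * (3 * k ^ 2) := by rw [ha, hk]; ring
      omega
    · have : m = 3 * (3 * k ^ 2 + 2 * k) + 1 := by rw [ha, hk]; ring
      omega
    · have : m = 3 * (3 * k ^ 2 + 4 * k + 1) + 1 := by rw [ha, hk]; ring
      omega
  · nlinarith [sq_nonneg a]

end AR2M

theorem specAR2 : SpecAR2 where
  pos := fun _ _ h => AR2M.pos h
  low := fun _ _ h => AR2M.low h
  upp := fun _ _ h => AR2M.upp h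
  odd := fun u v h => by
    obtain ⟨o1, o2, o3, o4⟩ := AR2M.odds h
    unfold gF gb
    exact (o1.mul (o2.mul o3)).mul o4
  thr := fun _ _ h => AR2M.thr h
  cop := fun _ _ h => AR2M.cop h
  ac := fun u v h => AR2M.not_sq (AR2M.pos h).1 (AR2M.thr h).1 (AR2M.cop h).2.1
  bc := fun u v h => by
    rw [mul_comm]
    exact AR2M.not_sq (AR2M.pos h).2.2.2 (AR2M.thr h).2.2 (AR2M.cop h).2.2.1.symm

end Pool.Agent.Lib.MPad6874
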