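import Pool.Agent.Lib.MP_ad6874_nt.Spec

/-!
# Module BAS (MP_ad6874_nt): basic properties of the descent map (helper84)
-/

set_option autoImplicit false

namespace Pool.Agent.Lib.MPad6874

namespace BASM

lemma delta_eq (d : ℤ) : (cur d).Δ = 64 * (d : ℚ) ^ 6 := by
  simp only [cur, WeierstrassCurve.Δ, WeierstrassCurve.b₂, WeierstrassCurve.b₄, WeierstrassCurve.b₆,
    WeierstrassCurve.b₈]
  ring

lemma delta_ne (d : ℤ) (hd : d ≠ 0) : (cur d).Δ ≠ 0 := by
  rw [delta_eq]
  have : (d : ℚ) ≠ 0 := by exact_mod_cast hd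
  positivity

lemma eqn (d : ℤ) (x y : ℚ) : (cur d).Equation x y ↔ y ^ 2 = x ^ 3 - (d : ℚ) ^ 2 * x := by
  rw [WeierstrassCurve.Affine.equation_iff]
  simp only [cur]
  constructor
  · intro h
    linear_combination h
  · intro h
    linear_combination h

lemma nons (d : ℤ) (x y : ℚ) (hd : d ≠ 0) (h : y ^ 2 = x ^ 3 - (d : ℚ) ^ 2 * x) :
    (cur d).Nonsingular x y :=
  (WeierstrassCurve.Affine.equation_iff_nonsingular_of_Δ_ne_zero (delta_ne d hd)).1
    ((eqn d x y).2 h)

lemma dv_ne (d : ℤ) (hd : d ≠ 0) (i : Fin 3) : dv d i ≠ 0 := by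
  have : (d : ℚ) ≠ 0 := by exact_mod_cast hd
  fin_cases i <;> simp [dv, this]

lemma del_zero (d : ℤ) (i : Fin 3) : del d i (0 : Pt d) = 1 := rfl

lemma del_some (d : ℤ) (i : Fin 3) (x y : ℚ) (h : (cur d).Nonsingular x y) :
    del d i (WeierstrassCurve.Affine.Point.some x y h) =
      if x = rt d i then dv d i else x - rt d i := rfl

lemma root_of (d : ℤ) (x : ℚ) (h : x ^ 3 - (d : ℚ) ^ 2 * x = 0) : ∃ i, x = rt d i := by
  have h1 : x * ((x - d) * (x + d)) = 0 := by linear_combination h
  rcases mul_eq_zero.1 h1 with h2 | h2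
  · exact ⟨0, by simpa [rt] using h2⟩
  · rcases mul_eq_zero.1 h2 with h3 | h3
    · exact ⟨1, by simp [rt]; linarith⟩
    · exact ⟨2, by simp [rt]; linarith⟩

end BASM

open BASM in
theorem specBAS : SpecBAS := by
  refine ⟨?_, eqn, nons, ?_, ?_, ?_, ?_⟩
  · intro d hd
    rw [WeierstrassCurve.isElliptic_iff]
    exact (delta_ne d hd).isUnit
  · intro d hd i P
    rcases P with _ | ⟨x, y, h⟩
    · exact one_ne_zero
    · rw [del_some]
      split_ifs with h1
      · exact dv_ne d hd i
      · exact sub_ne_zero.2 h1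
  · intro d i P
    rcases P with _ | ⟨x, y, h⟩
    · rfl
    · rw [WeierstrassCurve.Affine.Point.neg_some, del_some, del_some]
  · intro d hd P
    have hd' : (d : ℚ) ≠ 0 := by exact_mod_cast hd
    rcases P with _ | ⟨x, y, h⟩
    · exact ⟨1, by simp [del]⟩
    · have he : y ^ 2 = x ^ 3 - (d : ℚ) ^ 2 * x := (eqn d x y).1 h.1
      rw [del_some, del_some, del_some]
      simp only [rt, dv, Matrix.cons_val_zero, Matrix.cons_val_one, Matrix.cons_val]
      by_cases h0 : x = 0
      · subst h0
        rw [if_pos rfl, if_neg (fun e => hd' e.symm), if_neg (fun e => hd' (neg_eq_zero.1 e.symm))]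
        exact ⟨(d : ℚ) ^ 2, by ring⟩
      · by_cases h1 : x = d
        · subst h1
          rw [if_neg h0, if_pos rfl, if_neg (fun e => hd' (by linarith))]
          exact ⟨2 * (d : ℚ) ^ 2, by ring⟩
        · by_cases h2 : x = -d
          · subst h2
            rw [if_neg h0, if_neg h1, if_pos rfl]
            exact ⟨2 * (d : ℚ) ^ 2, by ring⟩
          · rw [if_neg h0, if_neg h1, if_neg h2]
            exact ⟨y, by linear_combination -he⟩
  · intro d hd P hP
    rcases P with _ | ⟨x, y, h⟩
    · exact Or.inl rfl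
    · right
      have h1 : WeierstrassCurve.Affine.Point.some x y h =
          -(WeierstrassCurve.Affine.Point.some x y h : Pt d) := by
        rw [two_nsmul] at hP
        exact eq_neg_of_add_eq_zero_left hP
      rw [WeierstrassCurve.Affine.Point.neg_some] at h1
      have h2 : y = (cur d).negY x y := by
        injection h1
      have hy : y = 0 := by
        rw [WeierstrassCurve.Affine.negY] at h2
        simp only [cur] at h2
        linarith
      subst hy
      have he : (0 : ℚ) ^ 2 = x ^ 3 - (d : ℚ) ^ 2 * x := (eqn d x 0).1 h.1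
      obtain ⟨i, hi⟩ := root_of d x (by rw [← he]; norm_num)
      subst hi
      exact ⟨i, h, rfl⟩

end Pool.Agent.Lib.MPad6874
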