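import Pool.Agent.Lib.MP_ad6874_nt.Spec
import Pool.Agent.Lib.MP_3efbeb_nt.SV.Poly

/-!
# Many good `s` with few prime factors (CNT)
-/

set_option autoImplicit false

namespace Pool.Agent.Lib.MPad6874

namespace CNTM

open Finset
open Pool.Agent.Lib.MP_3efbeb_nt.SV

/-- the product `a b c` -/
def fF (u : ℤ) : ℤ := fa u * fb u * fc u

/-- the polynomial `f(2(y+1))` -/
noncomputable def FF : Polynomial ℤ :=
  (((2 * (Polynomial.X + 1)) ^ 4 + 1) * ((2 * (Polynomial.X + 1)) ^ 4 - 6 * (2 * (Polynomial.X + 1)) ^ 2 + 1)) *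
    ((2 * (Polynomial.X + 1)) ^ 4 + 6 * (2 * (Polynomial.X + 1)) ^ 2 + 1)

lemma evalFF (y : ℤ) : FF.eval y = fF (2 * (y + 1)) := by
  simp [FF, fF, fa, fb, fc]

lemma degFF : FF.natDegree ≤ 12 := by
  have h1 : ((2 : Polynomial ℤ) * (Polynomial.X + 1)).natDegree ≤ 1 := by
    rw [show (2 : Polynomial ℤ) * (Polynomial.X + 1) = Polynomial.C 2 * Polynomial.X + Polynomial.C 2 by
      rw [show (Polynomial.C 2 : Polynomial ℤ) = 2 from rfl]; ring]
    exact Polynomial.natDegree_linear_le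
  have h4 : (((2 : Polynomial ℤ) * (Polynomial.X + 1)) ^ 4).natDegree ≤ 4 := by
    refine (Polynomial.natDegree_pow_le).trans ?_
    omega
  have h2 : ((6 : Polynomial ℤ) * ((2 : Polynomial ℤ) * (Polynomial.X + 1)) ^ 2).natDegree ≤ 4 := by
    refine (Polynomial.natDegree_mul_le).trans ?_
    have : ((6 : Polynomial ℤ)).natDegree = 0 := by
      rw [show (6 : Polynomial ℤ) = Polynomial.C 6 from rfl, Polynomial.natDegree_C]
    rw [this]
    have := (Polynomial.natDegree_pow_le (p := ((2 : Polynomial ℤ) * (Polynomial.X + 1))) (n := 2))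
    omega
  have h0 : ((1 : Polynomial ℤ)).natDegree ≤ 4 := by simp
  unfold FF
  refine (Polynomial.natDegree_mul_le).trans ?_
  refine (Nat.add_le_add (Polynomial.natDegree_mul_le) le_rfl).trans ?_
  have e1 := Polynomial.natDegree_add_le_of_degree_le h4 h0
  have e2 := Polynomial.natDegree_add_le_of_degree_le (Polynomial.natDegree_sub_le_of_le h4 h2) h0
  have e3 := Polynomial.natDegree_add_le_of_degree_le (Polynomial.natDegree_add_le_of_degree_le h4 h2) h0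
  have e2' : ((2 * (Polynomial.X + 1) : Polynomial ℤ) ^ 4 - 6 * (2 * (Polynomial.X + 1)) ^ 2 + 1).natDegree ≤ 4 := by
    simpa using e2
  omega

lemma not_dvd_neg_one (p : ℕ) (hp : p.Prime) : ¬ (p : ℤ) ∣ FF.eval (-1) := by
  rw [evalFF]
  simp only [fF, fa, fb, fc]
  norm_num
  intro h
  have := Int.natAbs_dvd_natAbs.2 h
  simp at this
  exact hp.one_lt.ne' this

/-- the number of zeros modulo a prime -/
lemma card_rt (p Y : ℕ) (hp : p.Prime) :
    (((Icc 1 Y).filter (fun y : ℕ => (p : ℤ) ∣ FF.eval (y : ℤ))).card : ℝ) ≤ 12 * ((Y : ℝ) / p + 1) := by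
  have : NeZero p := ⟨hp.ne_zero⟩
  have h1 : (Icc 1 Y).filter (fun y : ℕ => (p : ℤ) ∣ FF.eval (y : ℤ)) ⊆
      (SievePM.rts FF p).biUnion (fun x => (Icc 1 Y).filter (fun y : ℕ => (y : ZMod p) = x)) := by
    intro y
    simp only [mem_filter, mem_biUnion, SievePM.rts, mem_univ, true_and]
    rintro ⟨hy, hd⟩
    refine ⟨(y : ZMod p), ?_, hy, rfl⟩
    have := (SievePM.val_zmod FF p y).2 hd
    simpa using this
  have h2 : ((((Icc 1 Y).filter (fun y : ℕ => (p : ℤ) ∣ FF.eval (y : ℤ))).card : ℕ) : ℝ) ≤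
      ∑ x ∈ SievePM.rts FF p, (((Icc 1 Y).filter (fun y : ℕ => (y : ZMod p) = x)).card : ℝ) := by
    exact_mod_cast (card_le_card h1).trans card_biUnion_le
  refine h2.trans ?_
  have h3 : ∀ x ∈ SievePM.rts FF p, (((Icc 1 Y).filter (fun y : ℕ => (y : ZMod p) = x)).card : ℝ) ≤
      (Y : ℝ) / p + 1 := by
    intro x _
    have := (abs_le.1 (SieveM.card_class p Y hp.pos x)).2
    linarith
  refine (sum_le_sum h3).trans ?_
  rw [sum_const, nsmul_eq_mul]
  have h4 : SievePM.nu FF p ≤ 12 := by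
    refine (SievePM.nu_prime FF degFF hp ⟨-1, ?_⟩).1
    rw [evalFF]
    simp only [fF, fa, fb, fc]
    norm_num
    intro h
    have := Int.natAbs_dvd_natAbs.2 h
    simp at this
    exact hp.one_lt.ne' this
  rw [SievePM.nu_eq] at h4
  have h5 : ((SievePM.rts FF p).card : ℝ) ≤ 12 := by exact_mod_cast h4
  have h6 : (0 : ℝ) ≤ (Y : ℝ) / p + 1 := by positivity
  exact mul_le_mul_of_nonneg_right h5 h6

/-- the size of the values -/
lemma fF_le (u : ℤ) (hu : 0 ≤ u) (hpos : 0 < fa u ∧ 0 < fb u ∧ 0 < fc u) : fF u ≤ (u + 1) ^ 12 := by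
  obtain ⟨ha, hb, hc⟩ := hpos
  have h1 : fa u ≤ (u + 1) ^ 4 := by unfold fa; nlinarith [pow_nonneg hu 2, pow_nonneg hu 3]
  have h2 : fb u ≤ (u + 1) ^ 4 := by unfold fb; nlinarith [pow_nonneg hu 2, pow_nonneg hu 3]
  have h3 : fc u ≤ (u + 1) ^ 4 := by unfold fc; nlinarith [pow_nonneg hu 2, pow_nonneg hu 3]
  have h4 : (u + 1) ^ 12 = (u + 1) ^ 4 * (u + 1) ^ 4 * (u + 1) ^ 4 := by ring
  rw [h4, fF]
  have h5 : fa u * fb u ≤ (u + 1) ^ 4 * (u + 1) ^ 4 := mul_le_mul h1 h2 hb.le (by positivity)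
  exact mul_le_mul h5 h3 hc.le (by positivity)

/-- few prime factors -/
lemma om_le (n : ℕ) (hn : n ≠ 0) (z : ℝ) (hz : 1 ≤ z) (h : ∀ p : ℕ, p.Prime → (p : ℝ) < z → ¬ p ∣ n) :
    z ^ n.primeFactors.card ≤ (n : ℝ) := by
  have h1 : z ^ n.primeFactors.card ≤ ∏ p ∈ n.primeFactors, (p : ℝ) := by
    rw [← prod_const]
    refine prod_le_prod (fun _ _ => by linarith) ?_
    intro p hp
    by_contra hlt
    push Not at hlt
    exact h p (Nat.prime_of_mem_primeFactors hp) hlt (Nat.dvd_of_mem_primeFactors hp)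
  refine h1.trans ?_
  have := Nat.le_of_dvd (Nat.pos_of_ne_zero hn) (Nat.prod_primeFactors_dvd n)
  calc (∏ p ∈ n.primeFactors, (p : ℝ)) = ((∏ p ∈ n.primeFactors, p : ℕ) : ℝ) := by push_cast; rfl
    _ ≤ (n : ℝ) := by exact_mod_cast this

/-- a good `s` has a prime factor prime to `6` -/
lemma exists_prime (F s q : ℕ) (hF : 0 < F) (h2 : ¬ 2 ∣ F) (h3 : ¬ 3 ∣ F) (hsq : ¬ IsSquare F)
    (hs : Squarefree s) (h : q ^ 2 * s = 6 * F) : ∃ p : ℕ, p.Prime ∧ p ∣ s ∧ p ∣ F := by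
  have d2 : 2 ∣ s := by
    by_contra hc
    have h4 : 2 ∣ q ^ 2 := by
      have : 2 ∣ q ^ 2 * s := by rw [h]; exact Dvd.dvd.mul_right (by norm_num) F
      exact (Nat.Prime.dvd_mul Nat.prime_two).1 this |>.resolve_right hc
    have h5 : 2 ∣ q := Nat.Prime.dvd_of_dvd_pow Nat.prime_two h4
    obtain ⟨r, rfl⟩ := h5
    apply h2
    have : 3 * F = 2 * (r ^ 2 * s) := by nlinarith
    have : 2 ∣ 3 * F := ⟨_, this⟩
    exact (Nat.Prime.dvd_mul Nat.prime_two).1 this |>.resolve_left (by norm_num)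
  have d3 : 3 ∣ s := by
    by_contra hc
    have h4 : 3 ∣ q ^ 2 := by
      have : 3 ∣ q ^ 2 * s := by rw [h]; exact Dvd.dvd.mul_right (by norm_num) F
      exact (Nat.Prime.dvd_mul Nat.prime_three).1 this |>.resolve_right hc
    have h5 : 3 ∣ q := Nat.Prime.dvd_of_dvd_pow Nat.prime_three h4
    obtain ⟨r, rfl⟩ := h5
    apply h3
    have : 2 * F = 3 * (r ^ 2 * s) := by nlinarith
    have : 3 ∣ 2 * F := ⟨_, this⟩
    exact (Nat.Prime.dvd_mul Nat.prime_three).1 this |>.resolve_left (by norm_num)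
  obtain ⟨t, rfl⟩ : 6 ∣ s := by
    have : Nat.Coprime 2 3 := by norm_num
    exact this.mul_dvd_of_dvd_of_dvd d2 d3
  have hF' : q ^ 2 * t = F := by nlinarith
  have ht : t ≠ 1 := by
    rintro rfl
    apply hsq
    exact ⟨q, by rw [← hF']; ring⟩
  obtain ⟨p, hp, hpt⟩ := Nat.exists_prime_and_dvd ht
  exact ⟨p, hp, Dvd.dvd.mul_left hpt 6, by rw [← hF']; exact Dvd.dvd.mul_left hpt _⟩

/-- the value as a natural number -/
noncomputable def Fn (y : ℕ) : ℕ := (FF.eval (y : ℤ)).natAbs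

/-- the parameter `u` -/
def uu (y : ℕ) : ℤ := 2 * ((y : ℤ) + 1)

lemma uu_even (y : ℕ) : Even (uu y) := ⟨(y : ℤ) + 1, by unfold uu; ring⟩

lemma uu_ge (y : ℕ) (hy : 1 ≤ y) : 4 ≤ uu y := by unfold uu; omega

lemma Fn_eq (hNSQ : SpecNSQ) (y : ℕ) (hy : 1 ≤ y) : (Fn y : ℤ) = fF (uu y) := by
  obtain ⟨ha, hb, hc⟩ := hNSQ.pos (uu y) (uu_even y) (uu_ge y hy)
  unfold Fn
  rw [evalFF]
  have : 0 < fF (2 * ((y : ℤ) + 1)) := by
    unfold fF
    exact mul_pos (mul_pos ha hb) hc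
  rw [Int.natAbs_of_nonneg this.le]
  rfl

lemma Fn_facts (hNSQ : SpecNSQ) (y : ℕ) (hy : 1 ≤ y) : 0 < Fn y ∧ ¬ 2 ∣ Fn y ∧ ¬ 3 ∣ Fn y ∧
    ¬ IsSquare (Fn y) ∧ (Fn y : ℤ) ≤ (2 * (y : ℤ) + 3) ^ 12 := by
  have he := uu_even y
  have h4 := uu_ge y hy
  have hpos := hNSQ.pos (uu y) he h4
  have hF := Fn_eq hNSQ y hy
  refine ⟨?_, ?_, ?_, ?_, ?_⟩
  · have : (0 : ℤ) < Fn y := by
      rw [hF]
      exact mul_pos (mul_pos hpos.1 hpos.2.1) hpos.2.2
    exact_mod_cast this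
  · intro h
    have h' : (2 : ℤ) ∣ Fn y := by exact_mod_cast h
    rw [hF] at h'
    have := hNSQ.odd (uu y) he
    rw [← Int.not_even_iff_odd, even_iff_two_dvd] at this
    exact this h'
  · intro h
    have h' : (3 : ℤ) ∣ Fn y := by exact_mod_cast h
    rw [hF] at h'
    obtain ⟨h1, h2, h3⟩ := hNSQ.thr (uu y)
    rcases (Int.prime_three.dvd_mul).1 h' with h5 | h5
    · rcases (Int.prime_three.dvd_mul).1 h5 with h6 | h6
      · exact h1 h6
      · exact h2 h6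
    · exact h3 h5
  · rintro ⟨r, hr⟩
    apply hNSQ.abc (uu y) he h4
    refine ⟨(r : ℤ), ?_⟩
    rw [show fa (uu y) * fb (uu y) * fc (uu y) = fF (uu y) from rfl, ← hF, hr]
    push_cast
    ring
  · rw [hF]
    refine (fF_le (uu y) (by omega) hpos).trans (le_of_eq ?_)
    unfold uu
    ring

/-- the squarefree part of `6 F(y)` -/
noncomputable def sf (y : ℕ) : ℕ := Classical.choose (Nat.sq_mul_squarefree (6 * Fn y))

lemma sf_spec (y : ℕ) : ∃ q : ℕ, q ^ 2 * sf y = 6 * Fn y ∧ Squarefree (sf y) :=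
  Classical.choose_spec (Nat.sq_mul_squarefree (6 * Fn y))

lemma sf_dvd (y : ℕ) : sf y ∣ 6 * Fn y := by
  obtain ⟨q, h, _⟩ := sf_spec y
  exact ⟨q ^ 2, by rw [← h]; ring⟩

open scoped Classical in
/-- the sifted set -/
noncomputable def AA (z : ℝ) (Y : ℕ) : Finset ℕ := (Icc 1 Y).filter (fun y : ℕ => ∀ p : ℕ, p.Prime →
    (p : ℝ) < z → ¬ (p : ℤ) ∣ FF.eval (y : ℤ))

open scoped Classical in
lemma mem_AA {z : ℝ} {Y y : ℕ} : y ∈ AA z Y ↔ (1 ≤ y ∧ y ≤ Y) ∧ ∀ p : ℕ, p.Prime →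
    (p : ℝ) < z → ¬ p ∣ Fn y := by
  unfold AA Fn
  rw [mem_filter, mem_Icc]
  refine and_congr_right fun _ => forall_congr' fun p => imp_congr_right fun _ => imp_congr_right fun _ => ?_
  rw [Int.natCast_dvd]

/-- each `s` comes from few `y` -/
lemma fibre (hNSQ : SpecNSQ) (z : ℝ) (Y : ℕ) (hz : 2 ≤ z) (hzY : z ≤ Y) (y0 : ℕ) (hy0 : y0 ∈ AA z Y) :
    (((AA z Y).filter (fun y => sf y = sf y0)).card : ℝ) ≤ 24 * Y / z := by
  obtain ⟨⟨h1, hY⟩, hA⟩ := mem_AA.1 hy0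
  obtain ⟨f0, f2, f3, f4, f5⟩ := Fn_facts hNSQ y0 h1
  obtain ⟨q, hq, hsq⟩ := sf_spec y0
  obtain ⟨p, hp, hps, hpF⟩ := exists_prime (Fn y0) (sf y0) q f0 f2 f3 f4 hsq hq
  have hpz : z ≤ p := by
    by_contra hlt
    push Not at hlt
    exact hA p hp hlt hpF
  have hp6 : ¬ p ∣ 6 := by
    intro h
    have h7 : p ∣ 2 * 3 := h
    rcases (Nat.Prime.dvd_mul hp).1 h7 with h8 | h8
    · rw [(Nat.prime_dvd_prime_iff_eq hp Nat.prime_two).1 h8] at hpF
      exact f2 hpF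
    · rw [(Nat.prime_dvd_prime_iff_eq hp Nat.prime_three).1 h8] at hpF
      exact f3 hpF
  have hsub : (AA z Y).filter (fun y => sf y = sf y0) ⊆
      (Icc 1 Y).filter (fun y : ℕ => (p : ℤ) ∣ FF.eval (y : ℤ)) := by
    intro y hy
    obtain ⟨hyA, hys⟩ := mem_filter.1 hy
    obtain ⟨⟨g1, g2⟩, _⟩ := mem_AA.1 hyA
    rw [mem_filter, mem_Icc]
    refine ⟨⟨g1, g2⟩, ?_⟩
    have h8 : p ∣ 6 * Fn y := (hys ▸ hps).trans (sf_dvd y)
    have h9 : p ∣ Fn y := (Nat.Prime.dvd_mul hp).1 h8 |>.resolve_left hp6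
    exact Int.natCast_dvd.2 h9
  have hc : (((AA z Y).filter (fun y => sf y = sf y0)).card : ℝ) ≤
      (((Icc 1 Y).filter (fun y : ℕ => (p : ℤ) ∣ FF.eval (y : ℤ))).card : ℝ) := by
    exact_mod_cast card_le_card hsub
  refine hc.trans ((card_rt p Y hp).trans ?_)
  have hz0 : (0 : ℝ) < z := by linarith
  have h10 : (Y : ℝ) / p ≤ Y / z := div_le_div_of_nonneg_left (Nat.cast_nonneg Y) hz0 hpz
  have h11 : (1 : ℝ) ≤ Y / z := by rw [le_div_iff₀ hz0]; linarith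
  have h12 : 24 * (Y : ℝ) / z = 24 * (Y / z) := by ring
  rw [h12]
  linarith

lemma card_AA (hNSQ : SpecNSQ) (z : ℝ) (Y : ℕ) (hz : 2 ≤ z) (hzY : z ≤ Y) :
    ((AA z Y).card : ℝ) ≤ ((AA z Y).image sf).card * (24 * Y / z) := by
  rw [card_eq_sum_card_image sf (AA z Y)]
  push_cast
  calc _ ≤ ∑ b ∈ (AA z Y).image sf, (24 * (Y : ℝ) / z) := by
        refine sum_le_sum fun b hb => ?_
        obtain ⟨y0, hy0, rfl⟩ := mem_image.1 hb
        exact fibre hNSQ z Y hz hzY y0 hy0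
    _ = _ := by rw [sum_const, nsmul_eq_mul]

/-- the number of prime factors of the values -/
lemma om_sf (hNSQ : SpecNSQ) (C : ℕ) (z : ℝ) (Y : ℕ) (hz : 2 ≤ z) (hzC : z ^ C = Y) (hY : 3 ≤ Y) (y : ℕ)
    (hy : y ∈ AA z Y) : om (sf y : ℤ) ≤ 24 * C + 2 := by
  obtain ⟨⟨h1, h2⟩, hA⟩ := mem_AA.1 hy
  obtain ⟨f0, f2, f3, f4, f5⟩ := Fn_facts hNSQ y h1
  have g1 := om_le (Fn y) f0.ne' z (by linarith) hA
  have g2 : (Fn y : ℝ) ≤ (Y : ℝ) ^ 24 := by
    have g3 : (Fn y : ℝ) ≤ (2 * (y : ℝ) + 3) ^ 12 := by exact_mod_cast f5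
    refine g3.trans ?_
    have g4 : (2 * (y : ℝ) + 3) ≤ (Y : ℝ) ^ 2 := by
      have g5 : (y : ℝ) ≤ Y := by exact_mod_cast h2
      have g6 : (3 : ℝ) ≤ Y := by exact_mod_cast hY
      nlinarith
    calc (2 * (y : ℝ) + 3) ^ 12 ≤ ((Y : ℝ) ^ 2) ^ 12 := pow_le_pow_left₀ (by positivity) g4 12
      _ = (Y : ℝ) ^ 24 := by ring
  have g7 : z ^ (Fn y).primeFactors.card ≤ z ^ (24 * C) := by
    refine (g1.trans g2).trans (le_of_eq ?_)
    rw [← hzC, ← pow_mul]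
    congr 1
    ring
  have g8 : (Fn y).primeFactors.card ≤ 24 * C := (pow_le_pow_iff_right₀ (by linarith)).1 g7
  unfold om
  rw [Int.natAbs_natCast]
  have g9 : (sf y).primeFactors ⊆ {2, 3} ∪ (Fn y).primeFactors := by
    refine (Nat.primeFactors_mono (sf_dvd y) (by omega)).trans ?_
    rw [Nat.primeFactors_mul (by norm_num) (by omega)]
    refine union_subset_union_left ?_
    intro p hp
    have h7 : p ∣ 2 * 3 := Nat.dvd_of_mem_primeFactors hp
    have hpp := Nat.prime_of_mem_primeFactors hp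
    rcases (Nat.Prime.dvd_mul hpp).1 h7 with h8 | h8
    · rw [(Nat.prime_dvd_prime_iff_eq hpp Nat.prime_two).1 h8]; simp
    · rw [(Nat.prime_dvd_prime_iff_eq hpp Nat.prime_three).1 h8]; simp
  refine (card_le_card g9).trans ((card_union_le _ _).trans ?_)
  have : ({2, 3} : Finset ℕ).card ≤ 2 := card_le_two
  omega

/-- the growth of the main term -/
lemma growth (C : ℕ) : ∃ Z : ℝ, ∀ z : ℝ, Z ≤ z → 1 ≤ z →
    24 * (((C : ℝ) + 1) * (1 + Real.log z)) ^ (C + 1) * z ^ ((1 : ℝ) / 2) ≤ z := by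
  set n : ℕ := C + 1 with hn
  set ε : ℝ := 1 / (4 * n) with hε
  have hn0 : (0 : ℝ) < n := by rw [hn]; positivity
  have hε0 : 0 < ε := by positivity
  set K : ℝ := 24 * (((C : ℝ) + 1) * (1 + 4 * n)) ^ (C + 1) with hK
  have hK0 : 0 < K := by positivity
  refine ⟨K ^ (4 : ℕ), fun z hz hz1 => ?_⟩
  have hz0 : 0 < z := by linarith
  have h1 : Real.log z ≤ z ^ ε / ε := Real.log_le_rpow_div hz0.le hε0
  have h2 : (1 : ℝ) ≤ z ^ ε := Real.one_le_rpow hz1 hε0.le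
  have h3 : 1 + Real.log z ≤ (1 + 4 * n) * z ^ ε := by
    have : z ^ ε / ε = 4 * n * z ^ ε := by rw [hε]; field_simp
    rw [this] at h1
    nlinarith
  have h4 : 0 ≤ 1 + Real.log z := by
    have := Real.log_nonneg hz1
    linarith
  have h5 : (((C : ℝ) + 1) * (1 + Real.log z)) ^ (C + 1) ≤
      (((C : ℝ) + 1) * (1 + 4 * n)) ^ (C + 1) * z ^ ((1 : ℝ) / 4) := by
    have h6 : (((C : ℝ) + 1) * (1 + Real.log z)) ^ (C + 1) ≤
        (((C : ℝ) + 1) * ((1 + 4 * n) * z ^ ε)) ^ (C + 1) := by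
      refine pow_le_pow_left₀ (by positivity) ?_ _
      exact mul_le_mul_of_nonneg_left h3 (by positivity)
    refine h6.trans (le_of_eq ?_)
    rw [← mul_assoc, mul_pow]
    congr 1
    rw [← Real.rpow_natCast, ← Real.rpow_mul hz0.le]
    congr 1
    rw [hε, ← hn]
    field_simp
  have h7 : 24 * (((C : ℝ) + 1) * (1 + Real.log z)) ^ (C + 1) ≤ K * z ^ ((1 : ℝ) / 4) := by
    rw [hK]
    nlinarith
  have h8 : K ≤ z ^ ((1 : ℝ) / 4) := by
    have h9 : K = (K ^ (4 : ℕ)) ^ ((1 : ℝ) / 4) := by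
      rw [← Real.rpow_natCast, ← Real.rpow_mul hK0.le]
      norm_num
    rw [h9]
    exact Real.rpow_le_rpow (by positivity) hz (by norm_num)
  calc 24 * (((C : ℝ) + 1) * (1 + Real.log z)) ^ (C + 1) * z ^ ((1 : ℝ) / 2)
      ≤ (z ^ ((1 : ℝ) / 4) * z ^ ((1 : ℝ) / 4)) * z ^ ((1 : ℝ) / 2) := by
        refine mul_le_mul_of_nonneg_right (h7.trans ?_) (by positivity)
        exact mul_le_mul_of_nonneg_right h8 (by positivity)
    _ = z := by
        rw [← Real.rpow_add hz0, ← Real.rpow_add hz0]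
        norm_num

end CNTM

open CNTM Pool.Agent.Lib.MP_3efbeb_nt.SV in
theorem specCNT (hNSQ : SpecNSQ) : SpecCNT := by
  obtain ⟨C, hC⟩ := specSieveP 12
  obtain ⟨Z, hZ⟩ := growth C
  set n : ℕ := C + 1 with hn
  have hn0 : (0 : ℝ) < n := by rw [hn]; positivity
  refine ⟨24 * n + 2, 1 / (2 * n), by positivity, ⌈(max Z 2) ^ n⌉₊ + 3, fun Y hY => ?_⟩
  have hY3 : 3 ≤ Y := by omega
  have hYr : (max Z 2) ^ n ≤ (Y : ℝ) := by
    have h1 : (max Z 2) ^ n ≤ (⌈(max Z 2) ^ n⌉₊ : ℝ) := Nat.le_ceil _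
    have h2 : ((⌈(max Z 2) ^ n⌉₊ + 3 : ℕ) : ℝ) ≤ Y := by exact_mod_cast hY
    push_cast at h2
    linarith
  have hY0 : (0 : ℝ) < Y := by
    have : 0 < Y := by omega
    exact_mod_cast this
  set z : ℝ := (Y : ℝ) ^ ((1 : ℝ) / n) with hz
  have hzn : z ^ n = Y := by
    rw [hz, ← Real.rpow_natCast, ← Real.rpow_mul hY0.le]
    rw [one_div, inv_mul_cancel₀ hn0.ne', Real.rpow_one]
  have hmax : (0 : ℝ) ≤ max Z 2 := le_max_of_le_right (by norm_num)
  have hz0 : 0 ≤ z := by positivity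
  have hzm : max Z 2 ≤ z := by
    rw [← hzn] at hYr
    exact (pow_le_pow_iff_left₀ hmax hz0 (by omega)).1 hYr
  have hz2 : 2 ≤ z := (le_max_right _ _).trans hzm
  have hzZ : Z ≤ z := (le_max_left _ _).trans hzm
  have hzY : z ≤ Y := by
    rw [← hzn]
    exact le_self_pow₀ (by linarith) (by omega)
  have hzC : z ^ C ≤ (Y : ℝ) := by
    rw [← hzn]
    exact pow_le_pow_right₀ (by linarith) (by omega)
  have hs := hC FF z Y degFF hz2 hzC (fun p hp _ => ⟨-1, not_dvd_neg_one p hp⟩)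
  have hs' : (Y : ℝ) ≤ ((C : ℝ) * (1 + Real.log z)) ^ C * ((AA z Y).card : ℝ) := by
    unfold AA
    convert hs
  have hlog : 0 ≤ Real.log z := Real.log_nonneg (by linarith)
  have hup : ((C : ℝ) * (1 + Real.log z)) ^ C ≤ (((C : ℝ) + 1) * (1 + Real.log z)) ^ (C + 1) := by
    have h1 : ((C : ℝ) * (1 + Real.log z)) ^ C ≤ (((C : ℝ) + 1) * (1 + Real.log z)) ^ C := by
      refine pow_le_pow_left₀ (by positivity) ?_ _
      nlinarith
    refine h1.trans (pow_le_pow_right₀ ?_ (by omega))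
    nlinarith [(Nat.cast_nonneg C : (0 : ℝ) ≤ C)]
  set T : ℝ := (((C : ℝ) + 1) * (1 + Real.log z)) ^ (C + 1) with hT
  have hT0 : 0 < T := by positivity
  have hA := card_AA hNSQ z Y hz2 hzY
  have hG := hZ z hzZ (by linarith)
  rw [← hT] at hG
  have hfin : z ^ ((1 : ℝ) / 2) ≤ (((AA z Y).image sf).card : ℝ) := by
    have h1 : (Y : ℝ) ≤ T * ((((AA z Y).image sf).card : ℝ) * (24 * Y / z)) := by
      refine hs'.trans ?_
      exact mul_le_mul hup hA (Nat.cast_nonneg _) hT0.le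
    have hzp : 0 < z := by linarith
    have h2 : z ≤ 24 * T * (((AA z Y).image sf).card : ℝ) := by
      have h3 : T * ((((AA z Y).image sf).card : ℝ) * (24 * Y / z)) =
          (24 * T * (((AA z Y).image sf).card : ℝ)) * (Y / z) := by ring
      rw [h3] at h1
      have h4 : (Y : ℝ) = z * (Y / z) := by field_simp
      have h5 : 0 < (Y : ℝ) / z := by positivity
      rw [h4] at h1
      have h6 : z * (z * (Y / z) / z) = z * (Y / z) := by field_simp
      have h7 : z * (Y / z) ≤ 24 * T * (((AA z Y).image sf).card : ℝ) * (Y / z) := by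
        have h8 : z * (Y / z) / z = Y / z := by field_simp
        rw [h8] at h1
        exact h1
      exact le_of_mul_le_mul_right h7 h5
    have h9 : 24 * T * z ^ ((1 : ℝ) / 2) ≤ 24 * T * (((AA z Y).image sf).card : ℝ) := hG.trans h2
    exact le_of_mul_le_mul_left h9 (by positivity)
  refine ⟨((AA z Y).image sf).map ⟨fun k : ℕ => (k : ℤ), Nat.cast_injective⟩, ?_, ?_⟩
  · rw [Finset.card_map]
    refine (le_of_eq ?_).trans hfin
    rw [hz, ← Real.rpow_mul hY0.le]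
    congr 1
    field_simp
  · intro s hs1
    rw [Finset.mem_map] at hs1
    obtain ⟨k, hk, rfl⟩ := hs1
    obtain ⟨y, hy, rfl⟩ := Finset.mem_image.1 hk
    obtain ⟨⟨h1, h2⟩, _⟩ := mem_AA.1 hy
    obtain ⟨f0, f2, f3, f4, f5⟩ := Fn_facts hNSQ y h1
    obtain ⟨q, hq, hsq⟩ := sf_spec y
    simp only [Function.Embedding.coeFn_mk]
    have hsf0 : 0 < sf y := by
      rcases Nat.eq_zero_or_pos (sf y) with h | h
      · rw [h] at hq
        omega
      · exact h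
    refine ⟨?_, om_sf hNSQ n z Y hz2 hzn hY3 y hy, uu y, uu_even y, uu_ge y h1, ?_, ?_, q, ?_⟩
    · have g1 : (sf y : ℤ) ≤ 6 * Fn y := by
        exact_mod_cast Nat.le_of_dvd (by omega) (sf_dvd y)
      refine g1.trans ?_
      refine (mul_le_mul_of_nonneg_left f5 (by norm_num)).trans ?_
      refine mul_le_mul_of_nonneg_left ?_ (by norm_num)
      refine pow_le_pow_left₀ (by positivity) ?_ _
      have : (y : ℤ) ≤ Y := by exact_mod_cast h2
      linarith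
    · exact Int.squarefree_natCast.2 hsq
    · exact_mod_cast hsf0
    · have g2 := Fn_eq hNSQ y h1
      unfold fF at g2
      rw [← g2]
      have : ((q ^ 2 * sf y : ℕ) : ℤ) = ((6 * Fn y : ℕ) : ℤ) := by rw [hq]
      push_cast at this
      linarith

end Pool.Agent.Lib.MPad6874
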