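import Pool.Agent.Lib.MP_ad6874_nt.Spec2
import Pool.Agent.Lib.MP_ad6874_nt.CNT

/-!
# The count in two variables (CN2)
-/

set_option autoImplicit false

namespace Pool.Agent.Lib.MPad6874

namespace CN2M

open Finset

/-- a squarefree number, coprime to the cofactor, divides the squarefree part -/
lemma dvd_sf (b m s q : ℤ) (hb : Squarefree b) (hm : IsCoprime b m) (h : s * q ^ 2 = b * m) :
    b ∣ s := by
  have h1 : IsCoprime b q := by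
    rw [← gcd_isUnit_iff]
    have g1 : gcd b q ∣ b := gcd_dvd_left b q
    have g2 : gcd b q ∣ q := gcd_dvd_right b q
    have g3 : IsCoprime (gcd b q) m := hm.of_isCoprime_of_dvd_left g1
    have g4 : (gcd b q) ^ 2 ∣ b * m := by
      rw [← h]
      exact Dvd.dvd.mul_left (pow_dvd_pow_of_dvd g2 2) s
    have g5 : (gcd b q) ^ 2 ∣ b := (g3.pow_left).dvd_of_dvd_mul_right g4
    exact hb _ (by rw [← sq]; exact g5)
  have h2 : b ∣ s * q ^ 2 := by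
    rw [h]
    exact dvd_mul_right b m
  exact (h1.pow_right).dvd_of_dvd_mul_right h2

/-- the box as a finite set -/
def BX (Y : ℕ) : Finset (ℕ × ℕ) := (Icc 1 Y) ×ˢ (Icc 1 Y)

lemma mem_BX {Y : ℕ} {t : ℕ × ℕ} : t ∈ BX Y ↔ Box Y t := by
  unfold BX Box
  rw [mem_product, mem_Icc, mem_Icc]
  tauto

open scoped Classical in
/-- the sifted pairs -/
noncomputable def PP (z : ℝ) (Y : ℕ) : Finset (ℕ × ℕ) :=
  (BX Y).filter (fun t => Rough z (gF (uY Y t.1) (vW t.2)))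

open scoped Classical in
/-- pairs with a common large prime factor -/
noncomputable def Q1 (z : ℝ) (Y : ℕ) : Finset (ℕ × ℕ) :=
  (BX Y).filter (fun t => ∃ p : ℕ, p.Prime ∧ z ≤ (p : ℝ) ∧ (p : ℤ) ∣ uY Y t.1 ∧ (p : ℤ) ∣ vW t.2)

open scoped Classical in
/-- pairs with a large square divisor -/
noncomputable def Q2 (z : ℝ) (Y : ℕ) : Finset (ℕ × ℕ) :=
  (BX Y).filter (fun t => IsCoprime (uY Y t.1) (vW t.2) ∧ ∃ p : ℕ, p.Prime ∧ z ≤ (p : ℝ) ∧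
      ((p : ℤ) ^ 2 ∣ gp (uY Y t.1) (vW t.2) ∨ (p : ℤ) ^ 2 ∣ gq (uY Y t.1) (vW t.2)))

open scoped Classical in
/-- what remains -/
noncomputable def PR (z : ℝ) (Y : ℕ) : Finset (ℕ × ℕ) := (PP z Y \ Q1 z Y) \ Q2 z Y

open scoped Classical in
lemma card_PR (z : ℝ) (Y : ℕ) : ((PP z Y).card : ℝ) ≤ (PR z Y).card + (Q1 z Y).card + (Q2 z Y).card := by
  unfold PR
  have h1 : (PP z Y).card ≤ (PP z Y \ Q1 z Y).card + (Q1 z Y).card := by
    have := card_le_card_sdiff_add_card (t := Q1 z Y) (s := PP z Y)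
    exact this
  have h2 : (PP z Y \ Q1 z Y).card ≤ ((PP z Y \ Q1 z Y) \ Q2 z Y).card + (Q2 z Y).card := by
    have := card_le_card_sdiff_add_card (t := Q2 z Y) (s := PP z Y \ Q1 z Y)
    exact this
  have h3 : (PP z Y).card ≤ ((PP z Y \ Q1 z Y) \ Q2 z Y).card + (Q1 z Y).card + (Q2 z Y).card := by
    omega
  exact_mod_cast h3

lemma card_Q1 {K : ℝ} (hK : ∀ (z : ℝ) (Y : ℕ), 2 ≤ z → 1 ≤ Y →
    (({t : ℕ × ℕ | Box Y t ∧ ∃ p : ℕ, p.Prime ∧ z ≤ (p : ℝ) ∧ (p : ℤ) ∣ uY Y t.1 ∧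
      (p : ℤ) ∣ vW t.2}.ncard : ℕ) : ℝ) ≤ K * ((Y : ℝ) ^ 2 / z + Y)) (z : ℝ) (Y : ℕ) (hz : 2 ≤ z)
    (hY : 1 ≤ Y) : ((Q1 z Y).card : ℝ) ≤ K * ((Y : ℝ) ^ 2 / z + Y) := by
  refine le_of_eq_of_le ?_ (hK z Y hz hY)
  rw [← Set.ncard_coe_finset]
  congr 2
  ext t
  simp only [Q1, mem_coe, mem_filter, mem_BX, Set.mem_ofPred_eq]

lemma card_Q2 {K : ℝ} (hK : ∀ (z : ℝ) (Y : ℕ), 2 ≤ z → 1 ≤ Y →
    (({t : ℕ × ℕ | Box Y t ∧ IsCoprime (uY Y t.1) (vW t.2) ∧ ∃ p : ℕ, p.Prime ∧ z ≤ (p : ℝ) ∧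
      ((p : ℤ) ^ 2 ∣ gp (uY Y t.1) (vW t.2) ∨ (p : ℤ) ^ 2 ∣ gq (uY Y t.1) (vW t.2))}.ncard : ℕ) : ℝ) ≤
      K * ((Y : ℝ) ^ 2 / z + Y)) (z : ℝ) (Y : ℕ) (hz : 2 ≤ z)
    (hY : 1 ≤ Y) : ((Q2 z Y).card : ℝ) ≤ K * ((Y : ℝ) ^ 2 / z + Y) := by
  refine le_of_eq_of_le ?_ (hK z Y hz hY)
  rw [← Set.ncard_coe_finset]
  congr 2
  ext t
  simp only [Q2, mem_coe, mem_filter, mem_BX, Set.mem_ofPred_eq]

lemma vW_mod (w : ℕ) : vW w % 6 = 1 := by unfold vW; omega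

lemma uY_mod (Y y : ℕ) : uY Y y % 6 = 2 := by unfold uY; omega

lemma card_PP {C : ℕ} (hC : ∀ (z : ℝ) (Y : ℕ) (v : ℤ), 2 ≤ z → z ^ C ≤ (Y : ℝ) → v % 6 = 1 →
    (Y : ℝ) ≤ (C * (1 + Real.log z)) ^ C *
      (({y : ℕ | 1 ≤ y ∧ y ≤ Y ∧ Rough z (gF (uY Y y) v)}.ncard : ℕ) : ℝ)) (z : ℝ) (Y : ℕ)
    (hz : 2 ≤ z) (hzY : z ^ C ≤ (Y : ℝ)) :
    (Y : ℝ) ^ 2 ≤ (C * (1 + Real.log z)) ^ C * ((PP z Y).card : ℝ) := by
  classical
  have h1 : ∀ w ∈ Icc 1 Y, (Y : ℝ) ≤ (C * (1 + Real.log z)) ^ C *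
      (((PP z Y).filter (fun t => t.2 = w)).card : ℝ) := by
    intro w hw
    refine (hC z Y (vW w) hz hzY (vW_mod w)).trans (le_of_eq ?_)
    congr 2
    rw [← Finset.card_image_of_injOn (f := Prod.fst) (s := (PP z Y).filter (fun t => t.2 = w)),
      ← Set.ncard_coe_finset]
    · congr 1
      ext y
      simp only [Set.mem_ofPred_eq, mem_coe, mem_image, mem_filter, PP, mem_BX, Box]
      constructor
      · rintro ⟨g1, g2, g3⟩
        rw [mem_Icc] at hw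
        exact ⟨(y, w), ⟨⟨⟨g1, g2, hw.1, hw.2⟩, g3⟩, rfl⟩, rfl⟩
      · rintro ⟨t, ⟨⟨⟨g1, g2, g3, g4⟩, g5⟩, g6⟩, rfl⟩
        subst g6
        exact ⟨g1, g2, g5⟩
    · rintro ⟨a, b⟩ ha ⟨a', b'⟩ ha' hab
      simp only [coe_filter, Set.mem_ofPred_eq] at ha ha' hab
      rw [ha.2, ha'.2, hab]
  have h2 : (PP z Y).card = ∑ w ∈ Icc 1 Y, ((PP z Y).filter (fun t => t.2 = w)).card := by
    refine card_eq_sum_card_fiberwise ?_
    intro t ht
    have ht' := (mem_filter.1 (mem_coe.1 ht)).1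
    rw [mem_BX] at ht'
    exact mem_coe.2 (mem_Icc.2 ⟨ht'.2.2.1, ht'.2.2.2⟩)
  rw [h2]
  push_cast
  rw [mul_sum]
  calc (Y : ℝ) ^ 2 = ∑ w ∈ Icc 1 Y, (Y : ℝ) := by
        rw [sum_const, nsmul_eq_mul, Nat.card_Icc, Nat.add_sub_cancel]; ring
    _ ≤ _ := sum_le_sum h1

/-- the properties of the remaining pairs -/
lemma PR_facts (hAR2 : SpecAR2) {z : ℝ} {Y : ℕ} {t : ℕ × ℕ} (ht : t ∈ PR z Y) :
    Box Y t ∧ Pr (uY Y t.1) (vW t.2) ∧ Rough z (gF (uY Y t.1) (vW t.2)) ∧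
      Squarefree (gb (uY Y t.1) (vW t.2)) := by
  classical
  unfold PR at ht
  rw [mem_sdiff, mem_sdiff] at ht
  obtain ⟨⟨h1, h2⟩, h3⟩ := ht
  unfold PP at h1
  rw [mem_filter, mem_BX] at h1
  obtain ⟨hbox, hrough⟩ := h1
  have hcop : IsCoprime (uY Y t.1) (vW t.2) := by
    rw [Int.isCoprime_iff_gcd_eq_one]
    by_contra hne
    obtain ⟨p, hp, hpd⟩ := Nat.exists_prime_and_dvd hne
    have hpu : (p : ℤ) ∣ uY Y t.1 := (Int.natCast_dvd_natCast.2 hpd).trans (Int.gcd_dvd_left ..)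
    have hpv : (p : ℤ) ∣ vW t.2 := (Int.natCast_dvd_natCast.2 hpd).trans (Int.gcd_dvd_right ..)
    apply h2
    unfold Q1
    rw [mem_filter, mem_BX]
    refine ⟨hbox, p, hp, ?_, hpu, hpv⟩
    by_contra hlt
    push Not at hlt
    apply hrough p hp hlt
    unfold gF ga
    refine Dvd.dvd.mul_right (Dvd.dvd.mul_right ?_ _) _
    exact dvd_add (dvd_pow hpu (by norm_num)) (dvd_pow hpv (by norm_num))
  have hPr : Pr (uY Y t.1) (vW t.2) := by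
    refine ⟨uY_mod _ _, vW_mod _, ?_, ?_, hcop⟩
    · unfold vW; omega
    · obtain ⟨g1, g2, g3, g4⟩ := hbox
      unfold vW uY
      omega
  have key : ∀ p : ℕ, p.Prime → ¬ (p : ℤ) ^ 2 ∣ gp (uY Y t.1) (vW t.2) ∧
      ¬ (p : ℤ) ^ 2 ∣ gq (uY Y t.1) (vW t.2) := by
    intro p hp
    rcases lt_or_ge (p : ℝ) z with hlt | hge
    · have hnd := hrough p hp hlt
      constructor
      · intro h
        apply hnd
        unfold gF gb
        refine Dvd.dvd.mul_right (Dvd.dvd.mul_left (Dvd.dvd.mul_right ?_ _) _) _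
        exact (dvd_pow_self _ (by norm_num)).trans h
      · intro h
        apply hnd
        unfold gF gb
        refine Dvd.dvd.mul_right (Dvd.dvd.mul_left (Dvd.dvd.mul_left ?_ _) _) _
        exact (dvd_pow_self _ (by norm_num)).trans h
    · constructor
      · intro h
        apply h3
        unfold Q2
        rw [mem_filter, mem_BX]
        exact ⟨hbox, hcop, p, hp, hge, Or.inl h⟩
      · intro h
        apply h3
        unfold Q2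
        rw [mem_filter, mem_BX]
        exact ⟨hbox, hcop, p, hp, hge, Or.inr h⟩
  have sqf : ∀ n : ℤ, (∀ p : ℕ, p.Prime → ¬ (p : ℤ) ^ 2 ∣ n) → Squarefree n := by
    intro n hn
    rw [← Int.squarefree_natAbs, Nat.squarefree_iff_prime_squarefree]
    intro p hp hd
    apply hn p hp
    rw [sq]
    have := Int.natCast_dvd.2 hd
    push_cast at this
    exact this
  refine ⟨hbox, hPr, hrough, ?_⟩
  unfold gb
  rw [squarefree_mul_iff]
  refine ⟨(hAR2.cop _ _ hPr).2.2.2.isRelPrime, sqf _ fun p hp => (key p hp).1, sqf _ fun p hp => (key p hp).2⟩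

/-- the squarefree part of `6 F` -/
noncomputable def sf2 (Y : ℕ) (t : ℕ × ℕ) : ℕ :=
  Classical.choose (Nat.sq_mul_squarefree (6 * (gF (uY Y t.1) (vW t.2)).natAbs))

lemma sf2_spec (Y : ℕ) (t : ℕ × ℕ) : ∃ q : ℕ, q ^ 2 * sf2 Y t = 6 * (gF (uY Y t.1) (vW t.2)).natAbs ∧
    Squarefree (sf2 Y t) :=
  Classical.choose_spec (Nat.sq_mul_squarefree (6 * (gF (uY Y t.1) (vW t.2)).natAbs))

lemma gF_pos (hAR2 : SpecAR2) {u v : ℤ} (h : Pr u v) : 0 < gF u v := by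
  obtain ⟨h1, h2, h3, h4⟩ := hAR2.pos u v h
  unfold gF gb
  positivity

lemma good (hAR2 : SpecAR2) {z : ℝ} {Y : ℕ} {t : ℕ × ℕ} (ht : t ∈ PR z Y) :
    Good2 (uY Y t.1) (vW t.2) (sf2 Y t) := by
  obtain ⟨hbox, hPr, hrough, hsq⟩ := PR_facts hAR2 ht
  obtain ⟨q, hq, hs⟩ := sf2_spec Y t
  have hF := gF_pos hAR2 hPr
  have hF' : ((gF (uY Y t.1) (vW t.2)).natAbs : ℤ) = gF (uY Y t.1) (vW t.2) :=
    Int.natAbs_of_nonneg hF.le
  have h1 : ((q ^ 2 * sf2 Y t : ℕ) : ℤ) = ((6 * (gF (uY Y t.1) (vW t.2)).natAbs : ℕ) : ℤ) := by rw [hq]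
  push_cast at h1
  rw [← Int.natCast_natAbs, hF'] at h1
  refine ⟨hPr, Int.squarefree_natCast.2 hs, ?_, q, by linarith⟩
  rcases Nat.eq_zero_or_pos (sf2 Y t) with h | h
  · rw [h] at h1
    push_cast at h1
    linarith
  · exact_mod_cast h

lemma sf2_large (hAR2 : SpecAR2) {z : ℝ} {Y : ℕ} {t : ℕ × ℕ} (ht : t ∈ PR z Y) :
    6 * (26 * (Y : ℤ)) ^ 2 ≤ sf2 Y t := by
  obtain ⟨hbox, hPr, hrough, hsq⟩ := PR_facts hAR2 ht
  obtain ⟨_, _, hs0, q, hq⟩ := good hAR2 ht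
  set u := uY Y t.1 with hu
  set v := vW t.2 with hv
  obtain ⟨ha, hp, hqq, hc⟩ := hAR2.pos u v hPr
  obtain ⟨t1, t2, t3⟩ := hAR2.thr u v hPr
  obtain ⟨c1, c2, c3, c4⟩ := hAR2.cop u v hPr
  have hodd := hAR2.odd u v hPr
  have hodd' : Odd (ga u v) ∧ Odd (gb u v) ∧ Odd (gc u v) := by
    unfold gF at hodd
    rw [Int.odd_mul, Int.odd_mul] at hodd
    tauto
  have h6 : ∀ n : ℤ, Odd n → n % 3 = 2 → IsCoprime (6 : ℤ) n := by
    intro n h1 h2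
    refine ⟨n / 6 + 1, -1, ?_⟩
    obtain ⟨k, hk⟩ := h1
    omega
  have hs6 : Squarefree (6 * gb u v) := by
    rw [squarefree_mul_iff]
    refine ⟨(h6 _ hodd'.2.1 t2).isRelPrime, ?_, hsq⟩
    have : Squarefree ((6 : ℕ) : ℤ) := Int.squarefree_natCast.2 (by decide +kernel)
    exact_mod_cast this
  have hc6 : IsCoprime (6 * gb u v) (ga u v * gc u v) := by
    refine IsCoprime.mul_left ?_ ?_
    · exact IsCoprime.mul_right (h6 _ hodd'.1 t1) (h6 _ hodd'.2.2 t3)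
    · exact IsCoprime.mul_right c1.symm c3
  have hdvd : 6 * gb u v ∣ (sf2 Y t : ℤ) := by
    refine dvd_sf _ _ _ q hs6 hc6 ?_
    rw [hq]
    unfold gF
    ring
  have hle : 6 * gb u v ≤ (sf2 Y t : ℤ) := Int.le_of_dvd hs0 hdvd
  refine le_trans ?_ hle
  obtain ⟨l1, l2⟩ := hAR2.low u v hPr
  have hY1 : (1 : ℤ) ≤ Y := by
    have := hbox.1.trans hbox.2.1
    exact_mod_cast this
  have hu18 : 18 * (Y : ℤ) ≤ u := by
    rw [hu]
    unfold uY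
    omega
  have h7 : u ^ 2 * u ^ 2 ≤ (9 * gp u v) * (9 * gq u v) := mul_le_mul l1 l2 (by positivity) (by positivity)
  have h8 : (18 * (Y : ℤ)) ^ 2 ≤ u ^ 2 := pow_le_pow_left₀ (by positivity) hu18 2
  have h9 : (18 * (Y : ℤ)) ^ 2 * (18 * (Y : ℤ)) ^ 2 ≤ u ^ 2 * u ^ 2 :=
    mul_le_mul h8 h8 (by positivity) (by positivity)
  have h10 : (Y : ℤ) ^ 2 ≤ (Y : ℤ) ^ 4 := pow_le_pow_right₀ hY1 (by norm_num)
  unfold gb
  nlinarith

/-- the number of prime factors of the values -/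
lemma om_sf2 (hAR2 : SpecAR2) (C : ℕ) (z : ℝ) (Y : ℕ) (hz : 2 ≤ z) (hzC : z ^ C = Y) (hY : 52 ≤ Y)
    (t : ℕ × ℕ) (ht : t ∈ PR z Y) : om (sf2 Y t : ℤ) ≤ 24 * C + 2 := by
  obtain ⟨hbox, hPr, hrough, hsq⟩ := PR_facts hAR2 ht
  have hF := gF_pos hAR2 hPr
  obtain ⟨hup, _, _⟩ := hAR2.upp _ _ hPr
  obtain ⟨q, hq, hs⟩ := sf2_spec Y t
  set n : ℕ := (gF (uY Y t.1) (vW t.2)).natAbs with hn
  have hF' : (n : ℤ) = gF (uY Y t.1) (vW t.2) := Int.natAbs_of_nonneg hF.le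
  have hn0 : n ≠ 0 := by
    intro h
    rw [h] at hF'
    push_cast at hF'
    omega
  have g1 := CNTM.om_le n hn0 z (by linarith) (fun p hp hlt hd => hrough p hp hlt (by
    rw [← hF']
    exact_mod_cast hd))
  have g2 : (n : ℝ) ≤ (Y : ℝ) ^ 24 := by
    have g3 : (n : ℤ) ≤ ((Y : ℤ) ^ 2) ^ 12 := by
      rw [hF']
      refine hup.trans (pow_le_pow_left₀ ?_ ?_ _)
      · have : 0 ≤ uY Y t.1 := by unfold uY; omega
        linarith
      · have g4 : uY Y t.1 ≤ 26 * (Y : ℤ) := by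
          obtain ⟨b1, b2, _⟩ := hbox
          unfold uY
          omega
        have g5 : (52 : ℤ) ≤ Y := by exact_mod_cast hY
        nlinarith
    have g6 : (n : ℝ) ≤ ((Y : ℝ) ^ 2) ^ 12 := by exact_mod_cast g3
    rwa [← pow_mul] at g6
  have g7 : z ^ n.primeFactors.card ≤ z ^ (24 * C) := by
    refine (g1.trans g2).trans (le_of_eq ?_)
    rw [← hzC, ← pow_mul]
    congr 1
    ring
  have g8 : n.primeFactors.card ≤ 24 * C := (pow_le_pow_iff_right₀ (by linarith)).1 g7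
  unfold om
  rw [Int.natAbs_natCast]
  have hd : sf2 Y t ∣ 6 * n := ⟨q ^ 2, by rw [← hq]; ring⟩
  have g9 : (sf2 Y t).primeFactors ⊆ {2, 3} ∪ n.primeFactors := by
    refine (Nat.primeFactors_mono hd (by omega)).trans ?_
    rw [Nat.primeFactors_mul (by norm_num) (by omega)]
    refine union_subset_union_left ?_
    intro p hp
    have h7 : p ∣ 2 * 3 := Nat.dvd_of_mem_primeFactors hp
    have hpp := Nat.prime_of_mem_primeFactors hp
    rcases (Nat.Prime.dvd_mul hpp).1 h7 with h8 | h8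
    · rw [(Nat.prime_dvd_prime_iff_eq hpp Nat.prime_two).1 h8]; simp
    · rw [(Nat.prime_dvd_prime_iff_eq hpp Nat.prime_three).1 h8]; simp
  refine (card_le_card g9).trans ((card_union_le _ _).trans ?_)
  have : ({2, 3} : Finset ℕ).card ≤ 2 := card_le_two
  omega

/-- the fibres -/
lemma fib (hAR2 : SpecAR2) (hFB2 : SpecFB2) (R : ℕ) (z : ℝ) (Y : ℕ)
    (hR : ∀ t ∈ PR z Y, om (sf2 Y t : ℤ) ≤ R) (t0 : ℕ × ℕ) (ht0 : t0 ∈ PR z Y) :
    ((PR z Y).filter (fun t => sf2 Y t = sf2 Y t0)).card ≤ 12 ^ R := by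
  classical
  have h1 : ((PR z Y).filter (fun t => sf2 Y t = sf2 Y t0)).card =
      (((PR z Y).filter (fun t => sf2 Y t = sf2 Y t0)).image
        (fun t : ℕ × ℕ => ((uY Y t.1, vW t.2) : ℤ × ℤ))).card := by
    rw [card_image_of_injOn]
    rintro ⟨a, b⟩ _ ⟨a', b'⟩ _ hab
    simp only [Prod.mk.injEq, uY, vW] at hab
    obtain ⟨e1, e2⟩ := hab
    have e3 : a = a' := by omega
    have e4 : b = b' := by omega
    rw [e3, e4]
  rw [h1]
  refine (hFB2 (26 * (Y : ℤ)) (sf2 Y t0) _ ?_ ?_).trans ?_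
  · intro p hp
    obtain ⟨t, ht, rfl⟩ := mem_image.1 hp
    obtain ⟨ht1, ht2⟩ := mem_filter.1 ht
    refine ⟨?_, ?_⟩
    · rw [← ht2]
      exact good hAR2 ht1
    · obtain ⟨⟨b1, b2, _⟩, _⟩ := PR_facts hAR2 ht1
      simp only [uY]
      omega
  · exact sf2_large hAR2 ht0
  · exact Nat.pow_le_pow_right (by norm_num) (hR t0 ht0)

lemma card_PR_le (hAR2 : SpecAR2) (hFB2 : SpecFB2) (R : ℕ) (z : ℝ) (Y : ℕ)
    (hR : ∀ t ∈ PR z Y, om (sf2 Y t : ℤ) ≤ R) :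
    ((PR z Y).card : ℝ) ≤ ((PR z Y).image (sf2 Y)).card * (12 : ℝ) ^ R := by
  have h : (PR z Y).card ≤ 12 ^ R * ((PR z Y).image (sf2 Y)).card := by
    refine card_le_mul_card_image _ _ ?_
    intro b hb
    obtain ⟨t0, ht0, rfl⟩ := mem_image.1 hb
    exact fib hAR2 hFB2 R z Y hR t0 ht0
  have h' : ((PR z Y).card : ℝ) ≤ ((12 ^ R * ((PR z Y).image (sf2 Y)).card : ℕ) : ℝ) := by
    exact_mod_cast h
  push_cast at h'
  linarith

end CN2M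

open CN2M in
theorem specCN2 (hAR2 : SpecAR2) (hSV2 : SpecSV2) (hRC2 : SpecRC2) (hRS2 : SpecRS2) (hFB2 : SpecFB2) :
    SpecCN2 := by
  obtain ⟨n, hn1, hC⟩ := hSV2
  obtain ⟨K1, hK1⟩ := hRC2
  obtain ⟨K2, hK2⟩ := hRS2
  obtain ⟨C, rfl⟩ : ∃ C : ℕ, n = C + 1 := ⟨n - 1, by omega⟩
  obtain ⟨Z, hZ⟩ := CNTM.growth C
  set n : ℕ := C + 1 with hn
  have hn0 : (0 : ℝ) < n := by rw [hn]; positivity
  set K : ℝ := max K1 0 + max K2 0 with hK
  have hK0 : 0 ≤ K := by positivity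
  set M : ℝ := max (max Z 2) (K ^ 2) with hM
  set R : ℕ := 24 * n + 2 with hR
  refine ⟨R, n, 1 / (2 * 12 ^ R * (2 * n) ^ n), by positivity, ⌈M ^ n⌉₊ + 52, fun Y hY => ?_⟩
  have hY52 : 52 ≤ Y := by omega
  have hM0 : (0 : ℝ) ≤ M := le_max_of_le_left (le_max_of_le_right (by norm_num))
  have hYr : M ^ n ≤ (Y : ℝ) := by
    have h1 : M ^ n ≤ (⌈M ^ n⌉₊ : ℝ) := Nat.le_ceil _
    have h2 : ((⌈M ^ n⌉₊ + 52 : ℕ) : ℝ) ≤ Y := by exact_mod_cast hY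
    push_cast at h2
    linarith
  have hY52r : (52 : ℝ) ≤ Y := by exact_mod_cast hY52
  have hY0 : (0 : ℝ) < Y := by linarith
  set z : ℝ := (Y : ℝ) ^ ((1 : ℝ) / n) with hz
  have hzn : z ^ n = Y := by
    rw [hz, ← Real.rpow_natCast, ← Real.rpow_mul hY0.le]
    rw [one_div, inv_mul_cancel₀ hn0.ne', Real.rpow_one]
  have hz0 : 0 ≤ z := by positivity
  have hzm : M ≤ z := by
    rw [← hzn] at hYr
    exact (pow_le_pow_iff_left₀ hM0 hz0 (by omega)).1 hYr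
  have hz2 : 2 ≤ z := (le_max_right _ _).trans ((le_max_left _ _).trans hzm)
  have hzZ : Z ≤ z := (le_max_left _ _).trans ((le_max_left _ _).trans hzm)
  have hzK : K ^ 2 ≤ z := (le_max_right _ _).trans hzm
  have hzY : z ≤ Y := by
    rw [← hzn]
    exact le_self_pow₀ (by linarith) (by omega)
  have hzp : 0 < z := by linarith
  have hlog : 0 ≤ Real.log z := Real.log_nonneg (by linarith)
  set L : ℝ := ((n : ℝ) * (1 + Real.log z)) ^ n with hL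
  have hL0 : 0 < L := by positivity
  have hPP := card_PP hC z Y hz2 hzn.le
  rw [← hL] at hPP
  have hQ1 := card_Q1 hK1 z Y hz2 (by omega)
  have hQ2 := card_Q2 hK2 z Y hz2 (by omega)
  have hcard := card_PR z Y
  have hbase : (0 : ℝ) ≤ (Y : ℝ) ^ 2 / z + Y := by positivity
  have hQ : ((Q1 z Y).card : ℝ) + (Q2 z Y).card ≤ K * ((Y : ℝ) ^ 2 / z + Y) := by
    have h1 : K1 * ((Y : ℝ) ^ 2 / z + Y) ≤ max K1 0 * ((Y : ℝ) ^ 2 / z + Y) :=
      mul_le_mul_of_nonneg_right (le_max_left _ _) hbase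
    have h2 : K2 * ((Y : ℝ) ^ 2 / z + Y) ≤ max K2 0 * ((Y : ℝ) ^ 2 / z + Y) :=
      mul_le_mul_of_nonneg_right (le_max_left _ _) hbase
    rw [hK]
    linarith
  have hYz : (Y : ℝ) ≤ (Y : ℝ) ^ 2 / z := by
    rw [le_div_iff₀ hzp, sq]
    exact mul_le_mul_of_nonneg_left hzY hY0.le
  have hQ' : ((Q1 z Y).card : ℝ) + (Q2 z Y).card ≤ 2 * K * ((Y : ℝ) ^ 2 / z) := by
    refine hQ.trans ?_
    nlinarith
  -- the growth
  have hG := hZ z hzZ (by linarith)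
  have hG' : 24 * L * z ^ ((1 : ℝ) / 2) ≤ z := by
    rw [hL, hn]
    push_cast
    exact hG
  have hsq : z ^ ((1 : ℝ) / 2) * z ^ ((1 : ℝ) / 2) = z := by
    rw [← Real.rpow_add hzp]
    norm_num
  have hr0 : 0 < z ^ ((1 : ℝ) / 2) := by positivity
  have hKr : K ≤ z ^ ((1 : ℝ) / 2) := by
    have : K ^ 2 ≤ (z ^ ((1 : ℝ) / 2)) ^ 2 := by
      rw [sq (z ^ ((1 : ℝ) / 2)), hsq]
      exact hzK
    exact (pow_le_pow_iff_left₀ hK0 hr0.le (by norm_num)).1 this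
  have hKL : 4 * K * L ≤ z := by
    have h1 : 24 * L ≤ z ^ ((1 : ℝ) / 2) := by
      have : 24 * L * z ^ ((1 : ℝ) / 2) ≤ z ^ ((1 : ℝ) / 2) * z ^ ((1 : ℝ) / 2) := by
        rw [hsq]
        exact hG'
      exact le_of_mul_le_mul_right this hr0
    have h2 : (24 * L) * K ≤ z ^ ((1 : ℝ) / 2) * z ^ ((1 : ℝ) / 2) :=
      mul_le_mul h1 hKr hK0 hr0.le
    rw [hsq] at h2
    nlinarith [mul_nonneg hL0.le hK0]
  have hPRL : (Y : ℝ) ^ 2 ≤ 2 * L * ((PR z Y).card : ℝ) := by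
    have h1 : L * ((PP z Y).card : ℝ) ≤ L * ((PR z Y).card + 2 * K * ((Y : ℝ) ^ 2 / z)) := by
      refine mul_le_mul_of_nonneg_left ?_ hL0.le
      linarith
    have h2 : L * (2 * K * ((Y : ℝ) ^ 2 / z)) ≤ (Y : ℝ) ^ 2 / 2 := by
      have h3 : L * (2 * K * ((Y : ℝ) ^ 2 / z)) = (4 * K * L) * ((Y : ℝ) ^ 2 / z) / 2 := by ring
      rw [h3]
      have h4 : (4 * K * L) * ((Y : ℝ) ^ 2 / z) ≤ z * ((Y : ℝ) ^ 2 / z) :=
        mul_le_mul_of_nonneg_right hKL (by positivity)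
      have h5 : z * ((Y : ℝ) ^ 2 / z) = (Y : ℝ) ^ 2 := by field_simp
      rw [h5] at h4
      linarith
    nlinarith
  have hom : ∀ t ∈ PR z Y, om (sf2 Y t : ℤ) ≤ R := fun t ht => om_sf2 hAR2 n z Y hz2 hzn hY52 t ht
  have hfin := card_PR_le hAR2 hFB2 R z Y hom
  have hLlog : L ≤ (2 * (n : ℝ)) ^ n * Real.log Y ^ n := by
    rw [hL, ← mul_pow]
    refine pow_le_pow_left₀ (by positivity) ?_ _
    have h1 : Real.log z ≤ Real.log Y := Real.log_le_log hzp hzY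
    have h2 : 1 ≤ Real.log Y := by
      rw [← Real.log_exp 1]
      refine Real.log_le_log (Real.exp_pos 1) ?_
      have := Real.exp_one_lt_d9
      linarith
    nlinarith
  refine ⟨((PR z Y).image (sf2 Y)).map ⟨fun k : ℕ => (k : ℤ), Nat.cast_injective⟩, ?_, ?_⟩
  · rw [Finset.card_map]
    set I : ℝ := (((PR z Y).image (sf2 Y)).card : ℝ) with hI
    have hI0 : 0 ≤ I := Nat.cast_nonneg _
    have h1 : (Y : ℝ) ^ 2 ≤ 2 * L * (I * (12 : ℝ) ^ R) := by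
      refine hPRL.trans ?_
      exact mul_le_mul_of_nonneg_left hfin (by positivity)
    have h2 : 2 * L * (I * (12 : ℝ) ^ R) ≤ 2 * ((2 * (n : ℝ)) ^ n * Real.log Y ^ n) * (I * (12 : ℝ) ^ R) := by
      refine mul_le_mul_of_nonneg_right ?_ (by positivity)
      linarith
    have h3 : (Y : ℝ) ^ 2 ≤ (2 * 12 ^ R * (2 * (n : ℝ)) ^ n) * (Real.log Y ^ n * I) := by
      refine (h1.trans h2).trans (le_of_eq ?_)
      ring
    have h4 : (0 : ℝ) < 2 * 12 ^ R * (2 * (n : ℝ)) ^ n := by positivity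
    rw [one_div, inv_mul_le_iff₀ h4]
    exact h3
  · intro s hs1
    rw [Finset.mem_map] at hs1
    obtain ⟨k, hk, rfl⟩ := hs1
    obtain ⟨t, ht, rfl⟩ := Finset.mem_image.1 hk
    simp only [Function.Embedding.coeFn_mk]
    refine ⟨?_, hom t ht, uY Y t.1, vW t.2, good hAR2 ht⟩
    obtain ⟨hbox, hPr, hrough, hsq'⟩ := PR_facts hAR2 ht
    have hF := gF_pos hAR2 hPr
    obtain ⟨q, hq, hs⟩ := sf2_spec Y t
    have hF' : ((gF (uY Y t.1) (vW t.2)).natAbs : ℤ) = gF (uY Y t.1) (vW t.2) :=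
      Int.natAbs_of_nonneg hF.le
    have hd : sf2 Y t ∣ 6 * (gF (uY Y t.1) (vW t.2)).natAbs := ⟨q ^ 2, by rw [← hq]; ring⟩
    have hle : sf2 Y t ≤ 6 * (gF (uY Y t.1) (vW t.2)).natAbs := Nat.le_of_dvd (by omega) hd
    have hle' : (sf2 Y t : ℤ) ≤ 6 * gF (uY Y t.1) (vW t.2) := by
      rw [← hF']
      exact_mod_cast hle
    refine hle'.trans (mul_le_mul_of_nonneg_left ?_ (by norm_num))
    refine (hAR2.upp _ _ hPr).1.trans (pow_le_pow_left₀ ?_ ?_ _)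
    · have : 0 ≤ uY Y t.1 := by unfold uY; omega
      linarith
    · obtain ⟨b1, b2, _⟩ := hbox
      unfold uY
      omega

end Pool.Agent.Lib.MPad6874
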