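import Pool.Agent.Lib.MP_ad6874_nt.Spec3

/-!
# DK3: the fundamental discriminant `d` with `k d ~ s`
-/

set_option autoImplicit false

namespace Pool.Agent.Lib.MPad6874

namespace DK3M

theorem om_le_aux {k s m d : ℤ} (hk : k ≠ 0) (hs : s ≠ 0) (hm : m ∣ k * s) (hd : d ∣ 4 * m) :
    om (2 * (k * d)) ≤ om k + om s + 1 := by
  unfold om
  have hsub : (2 * (k * d)).natAbs.primeFactors ⊆
      insert 2 (k.natAbs.primeFactors ∪ s.natAbs.primeFactors) := by
    intro p hp
    have hpp : p.Prime := Nat.prime_of_mem_primeFactors hp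
    have hpd : p ∣ (2 * (k * d)).natAbs := Nat.dvd_of_mem_primeFactors hp
    rw [Int.natAbs_mul, Int.natAbs_mul] at hpd
    have hkn : k.natAbs ≠ 0 := Int.natAbs_ne_zero.2 hk
    have hsn : s.natAbs ≠ 0 := Int.natAbs_ne_zero.2 hs
    have two : p ∣ 2 → p ∈ insert 2 (k.natAbs.primeFactors ∪ s.natAbs.primeFactors) := by
      intro h
      rw [(Nat.prime_dvd_prime_iff_eq hpp Nat.prime_two).1 h]
      exact Finset.mem_insert_self _ _
    have kk : p ∣ k.natAbs → p ∈ insert 2 (k.natAbs.primeFactors ∪ s.natAbs.primeFactors) := by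
      intro h
      exact Finset.mem_insert_of_mem (Finset.mem_union_left _ (Nat.mem_primeFactors.2 ⟨hpp, h, hkn⟩))
    have ss : p ∣ s.natAbs → p ∈ insert 2 (k.natAbs.primeFactors ∪ s.natAbs.primeFactors) := by
      intro h
      exact Finset.mem_insert_of_mem (Finset.mem_union_right _ (Nat.mem_primeFactors.2 ⟨hpp, h, hsn⟩))
    rcases (Nat.Prime.dvd_mul hpp).1 hpd with h | h
    · exact two h
    rcases (Nat.Prime.dvd_mul hpp).1 h with h | h
    · exact kk h
    have h4 : p ∣ (4 * m).natAbs := h.trans (Int.natAbs_dvd_natAbs.2 hd)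
    rw [Int.natAbs_mul] at h4
    rcases (Nat.Prime.dvd_mul hpp).1 h4 with h | h
    · have h5 : p ∣ 2 ^ 2 := h
      exact two (hpp.dvd_of_dvd_pow h5)
    have h6 : p ∣ (k * s).natAbs := h.trans (Int.natAbs_dvd_natAbs.2 hm)
    rw [Int.natAbs_mul] at h6
    rcases (Nat.Prime.dvd_mul hpp).1 h6 with h | h
    · exact kk h
    · exact ss h
  refine (Finset.card_le_card hsub).trans ((Finset.card_insert_le _ _).trans ?_)
  have := Finset.card_union_le k.natAbs.primeFactors s.natAbs.primeFactors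
  omega

end DK3M

theorem specDK3 : SpecDK3 := by
  intro k s hk hs hks
  have hspos : 0 < s := lt_of_le_of_lt (abs_nonneg k) hks
  have hs0 : s ≠ 0 := hspos.ne'
  have hksn : k * s ≠ 0 := mul_ne_zero hk hs0
  obtain ⟨a, b, hab, hsq⟩ := Nat.sq_mul_squarefree (k * s).natAbs
  obtain ⟨m, hm, hmsq⟩ : ∃ m : ℤ, k * s = m * (b : ℤ) ^ 2 ∧ Squarefree m := by
    rcases Int.natAbs_eq (k * s) with h | h
    · refine ⟨a, ?_, ?_⟩
      · rw [h, ← hab]; push_cast; ring
      · rw [← Int.squarefree_natAbs]; simpa using hsq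
    · refine ⟨-a, ?_, ?_⟩
      · rw [h, ← hab]; push_cast; ring
      · rw [← Int.squarefree_natAbs]; simpa using hsq
  have hb0 : (b : ℤ) ≠ 0 := by
    intro h
    rw [h] at hm
    apply hksn
    rw [hm]; ring
  have hm1 : m ≠ 1 := by
    intro h
    rw [h, one_mul] at hm
    have h1 : s ∣ (b : ℤ) ^ 2 := ⟨k, by rw [← hm]; ring⟩
    have h2 : s ∣ (b : ℤ) := (hs.dvd_pow_iff_dvd (by norm_num)).1 h1
    obtain ⟨t, ht⟩ := h2
    rw [ht] at hm
    have h3 : k = s * t ^ 2 := by
      apply mul_right_cancel₀ hs0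
      rw [hm]; ring
    have ht0 : t ≠ 0 := by
      intro h; rw [h] at h3; apply hk; rw [h3]; ring
    have ht1 : 1 ≤ t ^ 2 := by
      have := sq_pos_of_ne_zero (a := t) ht0
      omega
    have h4 : |k| = s * t ^ 2 := by
      rw [h3]; exact abs_of_nonneg (by positivity)
    nlinarith
  have hmle : |m| ≤ |k| * s := by
    have h1 : |k| * s = |m| * (b : ℤ) ^ 2 := by
      have := congrArg abs hm
      rw [abs_mul, abs_mul, abs_of_pos hspos, abs_pow, sq_abs] at this
      exact this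
    have h2 : 1 ≤ (b : ℤ) ^ 2 := by
      have := sq_pos_of_ne_zero (a := (b : ℤ)) hb0
      omega
    rw [h1]
    nlinarith [abs_nonneg m]
  have hdvd : m ∣ k * s := ⟨(b : ℤ) ^ 2, hm⟩
  have hbq : (b : ℚ) ≠ 0 := by exact_mod_cast hb0
  have hkq : (k : ℚ) ≠ 0 := by exact_mod_cast hk
  have hmq : (k : ℚ) * s = m * (b : ℚ) ^ 2 := by exact_mod_cast hm
  have hcases : m % 4 = 0 ∨ m % 4 = 1 ∨ m % 4 = 2 ∨ m % 4 = 3 := by omega
  rcases hcases with h | h | h
  · exfalso
    have h4 : (2 : ℤ) * 2 ∣ m := by omega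
    have := hmsq 2 h4
    rw [Int.isUnit_iff] at this
    omega
  · refine ⟨m, Or.inl ⟨h, hmsq, hm1⟩, ?_, ⟨k / b, div_ne_zero hkq hbq, ?_⟩,
      DK3M.om_le_aux hk hs0 hdvd ⟨4, by ring⟩⟩
    · have := abs_nonneg m
      linarith
    · push_cast
      field_simp
      linear_combination -hmq
  · refine ⟨4 * m, Or.inr ⟨m, rfl, h, hmsq⟩, ?_, ⟨2 * k / b, by
      apply div_ne_zero _ hbq
      exact mul_ne_zero two_ne_zero hkq, ?_⟩, DK3M.om_le_aux hk hs0 hdvd dvd_rfl⟩
    · rw [abs_mul]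
      norm_num
      linarith
    · push_cast
      field_simp
      linear_combination -4 * hmq

end Pool.Agent.Lib.MPad6874
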