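import Mathlib

/-!
# Quadratic twists of `y² = x³ - x` with rank between 3 and a bound (MP_ad6874_nt): definitions

`cur d : Y² = X³ - d² X` is the quadratic twist by `d` of `E : y² = x³ - x` (the point `(x, y)` of
`d y² = x³ - x` corresponds to `(X, Y) = (d x, d² y)`).
-/

set_option autoImplicit false

namespace Pool.Agent.Lib.MPad6874

/-- `Y² = X³ - d² X` over `ℚ`: the quadratic twist by `d` of `y² = x³ - x`. -/
def cur (d : ℤ) : WeierstrassCurve.Affine ℚ := ⟨0, 0, 0, -(d : ℚ) ^ 2, 0⟩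

/-- The group of rational points of the twist. -/
abbrev Pt (d : ℤ) : Type := (cur d).Point

/-- The three roots of `X³ - d² X`. -/
def rt (d : ℤ) : Fin 3 → ℚ := ![0, (d : ℚ), -(d : ℚ)]

/-- The values of the derivative `3 X² - d²` at the roots. -/
def dv (d : ℤ) : Fin 3 → ℚ := ![-(d : ℚ) ^ 2, 2 * (d : ℚ) ^ 2, 2 * (d : ℚ) ^ 2]

/-- The `i`-th component of the 2-descent map (a rational number whose class modulo squares
matters). -/
noncomputable def del (d : ℤ) (i : Fin 3) : Pt d → ℚ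
  | .zero => 1
  | .some x _ _ => if x = rt d i then dv d i else x - rt d i

/-- `a = u⁴ + 1` -/
def fa (u : ℤ) : ℤ := u ^ 4 + 1

/-- `b = u⁴ - 6 u² + 1` -/
def fb (u : ℤ) : ℤ := u ^ 4 - 6 * u ^ 2 + 1

/-- `c = u⁴ + 6 u² + 1` -/
def fc (u : ℤ) : ℤ := u ^ 4 + 6 * u ^ 2 + 1

/-- `s` is the squarefree part of `6 a b c`, where `u ≥ 4` is even. -/
def Good (u s : ℤ) : Prop := Even u ∧ 4 ≤ u ∧ Squarefree s ∧ 0 < s ∧
  ∃ q : ℤ, s * q ^ 2 = 6 * (fa u * fb u * fc u)

/-- Fundamental discriminants of quadratic fields. -/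
def IsFund (d : ℤ) : Prop :=
  (d % 4 = 1 ∧ Squarefree d ∧ d ≠ 1) ∨
    ∃ m : ℤ, d = 4 * m ∧ (m % 4 = 2 ∨ m % 4 = 3) ∧ Squarefree m

/-- The number of distinct prime factors. -/
def om (n : ℤ) : ℕ := n.natAbs.primeFactors.card

end Pool.Agent.Lib.MPad6874
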