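import Pool.Agent.Lib.MP_ad6874_nt.Spec2

set_option autoImplicit false

namespace Pool.Agent.Lib.MPad6874

namespace FB2M

open Finset

/-- the dehomogenized form -/
def f (x : ℤ) : ℤ := (x ^ 4 + 1) * (x ^ 4 - 6 * x ^ 2 + 1) * (x ^ 4 + 6 * x ^ 2 + 1)

theorem gF_smul (x v : ℤ) : gF (x * v) v = v ^ 12 * f x := by
  unfold gF ga gb gp gq gc f
  ring

/-- the zeros modulo `p` -/
def Z (p : ℕ) : Finset ℕ := (range p).filter (fun x => (p : ℤ) ∣ f (x : ℤ))

open Polynomial in
theorem card_Z (p : ℕ) (hp : p.Prime) : (Z p).card ≤ 12 := by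
  have := Fact.mk hp
  obtain ⟨Q, hQ⟩ : ∃ Q : Polynomial (ZMod p), Q = ((X ^ 4 + 1) * (X ^ 4 - 6 * X ^ 2 + 1)) *
      (X ^ 4 + 6 * X ^ 2 + 1) := ⟨_, rfl⟩
  have hQ0 : Q ≠ 0 := by
    intro h
    have h1 : Q.eval 0 = 0 := by rw [h]; simp
    rw [hQ] at h1
    simp at h1
  have hdeg : Q.natDegree ≤ 12 := by
    rw [hQ]
    compute_degree
  calc (Z p).card ≤ Q.roots.toFinset.card := by
        refine card_le_card_of_injOn (fun x => (x : ZMod p)) ?_ ?_
        · intro x hx
          rw [mem_coe, Z, mem_filter] at hx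
          rw [mem_coe, Multiset.mem_toFinset, mem_roots hQ0, IsRoot.def]
          have h2 := (ZMod.intCast_zmod_eq_zero_iff_dvd (f (x : ℤ)) p).2 hx.2
          rw [← h2, hQ, f]
          simp
        · intro x hx y hy hxy
          rw [mem_coe, Z, mem_filter, mem_range] at hx hy
          have h3 := (ZMod.natCast_eq_natCast_iff' x y p).1 hxy
          rw [Nat.mod_eq_of_lt hx.1, Nat.mod_eq_of_lt hy.1] at h3
          exact h3
    _ ≤ Multiset.card Q.roots := Multiset.toFinset_card_le _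
    _ ≤ Q.natDegree := card_roots' Q
    _ ≤ 12 := hdeg

/-- the residue of `u / v` -/
theorem exists_res {u v : ℤ} {p : ℕ} (hp : p.Prime) (hc : IsCoprime u v)
    (hF : (p : ℤ) ∣ gF u v) : ∃ x ∈ Z p, (p : ℤ) ∣ u - x * v := by
  have hpi : Prime (p : ℤ) := Nat.prime_iff_prime_int.1 hp
  have hv : ¬ (p : ℤ) ∣ v := by
    intro hv
    have h1 : gF u v ≡ gF u 0 [ZMOD p] := by
      have h2 : v ≡ 0 [ZMOD p] := (Int.modEq_zero_iff_dvd).2 hv
      unfold gF ga gb gp gq gc
      gcongr
    have h3 : gF u 0 = u ^ 12 := by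
      unfold gF ga gb gp gq gc
      ring
    rw [h3] at h1
    have h4 : (p : ℤ) ∣ u ^ 12 := by
      have h5 := (Int.modEq_zero_iff_dvd).2 hF
      exact (Int.modEq_zero_iff_dvd).1 (h1.symm.trans h5)
    have h6 := hpi.dvd_of_dvd_pow h4
    exact hpi.not_isUnit (hc.isUnit_of_dvd' h6 hv)
  have hcop : IsCoprime v (p : ℤ) := (hpi.coprime_iff_not_dvd.2 hv).symm
  obtain ⟨a, b, hab⟩ := hcop
  have hp0 : (0 : ℤ) < p := by exact_mod_cast hp.pos
  have hx0 : 0 ≤ (u * a) % p := Int.emod_nonneg _ hp0.ne'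
  have hxp : (u * a) % p < p := Int.emod_lt_of_pos _ hp0
  have hxx : (((u * a) % p).toNat : ℤ) = (u * a) % p := by omega
  have hdvd : (p : ℤ) ∣ u - (((u * a) % p).toNat : ℤ) * v := by
    rw [hxx]
    refine ⟨u * b + (u * a) / p * v, ?_⟩
    have h7 := Int.emod_add_mul_ediv (u * a) p
    have h8 : (u * a) % p = u * a - p * ((u * a) / p) := by linarith
    rw [h8]
    have h9 : u = u * (a * v + b * p) := by rw [hab, mul_one]
    nth_rewrite 1 [h9]
    ring
  refine ⟨((u * a) % p).toNat, ?_, hdvd⟩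
  rw [Z, mem_filter, mem_range]
  refine ⟨by omega, ?_⟩
  have h10 : u ≡ (((u * a) % p).toNat : ℤ) * v [ZMOD p] := by
    rw [Int.modEq_comm]
    exact (Int.modEq_iff_dvd).2 hdvd
  have h11 : gF u v ≡ gF ((((u * a) % p).toNat : ℤ) * v) v [ZMOD p] := by
    unfold gF ga gb gp gq gc
    gcongr
  rw [gF_smul] at h11
  have h12 : (p : ℤ) ∣ v ^ 12 * f (((u * a) % p).toNat : ℤ) :=
    (Int.modEq_zero_iff_dvd).1 (h11.symm.trans ((Int.modEq_zero_iff_dvd).2 hF))
  rcases hpi.dvd_or_dvd h12 with h13 | h13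
  · exact absurd (hpi.dvd_of_dvd_pow h13) hv
  · exact h13

end FB2M

open FB2M in
theorem specFB2 (_hAR2 : SpecAR2) : SpecFB2 := by
  classical
  intro B s T hT hBs
  set P := s.natAbs.primeFactors.filter (fun p => ¬ p ∣ 6) with hP
  have hex : ∀ t ∈ T, ∀ p ∈ P, ∃ x ∈ Z p, (p : ℤ) ∣ t.1 - x * t.2 := by
    intro t ht p hp
    rw [hP, Finset.mem_filter, Nat.mem_primeFactors] at hp
    obtain ⟨⟨hpp, hps, _⟩, hp6⟩ := hp
    obtain ⟨⟨hPr, _, _, q, hq⟩, _⟩ := hT t ht
    refine exists_res hpp hPr.2.2.2.2 ?_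
    have h1 : (p : ℤ) ∣ s := Int.natCast_dvd.2 hps
    have h2 : (p : ℤ) ∣ 6 * gF t.1 t.2 := by
      rw [← hq]
      exact h1.mul_right _
    rcases (Nat.prime_iff_prime_int.1 hpp).dvd_or_dvd h2 with h3 | h3
    · exact absurd (by exact_mod_cast h3) hp6
    · exact h3
  choose! g hg using hex
  have hinj : T.card ≤ (P.pi Z).card := by
    refine Finset.card_le_card_of_injOn (fun t => fun p _ => g t p) ?_ ?_
    · intro t ht
      rw [Finset.mem_coe, Finset.mem_pi]
      intro p hp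
      exact (hg t ht p hp).1
    · intro t ht t' ht' he
      have hgg : ∀ p ∈ P, g t p = g t' p := fun p hp => congrFun (congrFun he p) hp
      have hDp : ∀ p ∈ P, (p : ℤ) ∣ t.1 * t'.2 - t'.1 * t.2 := by
        intro p hp
        have h1 := (hg t ht p hp).2
        have h2 := (hg t' ht' p hp).2
        rw [hgg p hp] at h1
        have h3 : t.1 * t'.2 - t'.1 * t.2 = (t.1 - (g t' p : ℤ) * t.2) * t'.2
            - (t'.1 - (g t' p : ℤ) * t'.2) * t.2 := by ring
        rw [h3]
        exact dvd_sub (h1.mul_right _) (h2.mul_right _)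
      obtain ⟨⟨⟨_, _, hv, hvu, hco⟩, hsq, hs, _⟩, hB⟩ := hT t ht
      obtain ⟨⟨⟨_, _, hv', hvu', hco'⟩, _, _, _⟩, hB'⟩ := hT t' ht'
      have hsd : s ∣ 6 * (t.1 * t'.2 - t'.1 * t.2) := by
        have hsq' : Squarefree s.natAbs := Int.squarefree_natAbs.2 hsq
        refine Int.natAbs_dvd_natAbs.1 ?_
        rw [← Nat.prod_primeFactors_of_squarefree hsq']
        refine Finset.prod_primes_dvd _ ?_ ?_
        · intro p hp
          exact (Nat.prime_of_mem_primeFactors hp).prime
        · intro p hp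
          refine Int.natCast_dvd.1 ?_
          by_cases h6 : p ∣ 6
          · have : (p : ℤ) ∣ 6 := by exact_mod_cast h6
            exact this.mul_right _
          · exact (hDp p (by rw [hP, Finset.mem_filter]; exact ⟨hp, h6⟩)).mul_left _
      have hB0 : 0 < B := by linarith
      have e1 : 3 * (t.1 * t'.2) ≤ B * B := by nlinarith
      have e2 : 3 * (t'.1 * t.2) ≤ B * B := by nlinarith
      have e3 : 0 < t.1 * t'.2 := mul_pos (by linarith) hv'
      have e4 : 0 < t'.1 * t.2 := mul_pos (by linarith) hv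
      have hBB : 0 < B * B := mul_pos hB0 hB0
      have hD0 : t.1 * t'.2 - t'.1 * t.2 = 0 := by
        have h7 : 6 * (t.1 * t'.2 - t'.1 * t.2) = 0 := by
          refine Int.eq_zero_of_abs_lt_dvd hsd ?_
          rw [abs_lt]
          constructor <;> nlinarith
        omega
      have hE : t.1 * t'.2 = t'.1 * t.2 := by linarith
      -- coprime and positive
      have hd1 : t.1 ∣ t'.1 := by
        have : t.1 ∣ t'.1 * t.2 := ⟨t'.2, hE.symm⟩
        exact hco.dvd_of_dvd_mul_right this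
      have hd2 : t'.1 ∣ t.1 := by
        have : t'.1 ∣ t.1 * t'.2 := ⟨t.2, hE⟩
        exact hco'.dvd_of_dvd_mul_right this
      have hu : t.1 = t'.1 :=
        Int.dvd_antisymm (by linarith) (by linarith) hd1 hd2
      have hvv : t.2 = t'.2 := by
        rw [hu] at hE
        have h8 : t'.1 ≠ 0 := by
          intro h9
          rw [h9] at hvu'
          linarith
        exact (mul_left_cancel₀ h8 hE).symm
      exact Prod.ext hu hvv
  refine hinj.trans ?_
  rw [Finset.card_pi]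
  calc ∏ p ∈ P, (Z p).card ≤ ∏ _p ∈ P, 12 := by
        refine Finset.prod_le_prod' ?_
        intro p hp
        rw [hP, Finset.mem_filter] at hp
        exact card_Z p (Nat.prime_of_mem_primeFactors hp.1)
    _ = 12 ^ P.card := by rw [Finset.prod_const]
    _ ≤ 12 ^ om s := by
        refine Nat.pow_le_pow_right (by norm_num) ?_
        exact Finset.card_filter_le _ _

end Pool.Agent.Lib.MPad6874
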