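import Pool.Agent.Lib.MP_ad6874_nt.Spec

/-!
# FIN: the final theorem
-/

set_option autoImplicit false

namespace Pool.Agent.Lib.MPad6874

namespace FINM

theorem s_mod {u s : ℤ} (h : Good u s) : s % 4 = 2 := by
  obtain ⟨⟨k, hk⟩, _, _, _, q, hq⟩ := h
  have hu : u = 2 * k := by omega
  have h1 : ∃ m : ℤ, 6 * (fa u * fb u * fc u) = 4 * m + 2 := by
    refine ⟨?_, ?_⟩
    · exact (6 * (fa u * fb u * fc u) - 2) / 4
    · have h2 : (6 * (fa u * fb u * fc u) - 2) =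
          4 * (1 + 6 * (4 * k ^ 4 + (4 * k ^ 4 - 6 * k ^ 2) + (4 * k ^ 4 + 6 * k ^ 2) +
            4 * k ^ 4 * (16 * k ^ 4 - 24 * k ^ 2) + 4 * k ^ 4 * (16 * k ^ 4 + 24 * k ^ 2) +
            (4 * k ^ 4 - 6 * k ^ 2) * (16 * k ^ 4 + 24 * k ^ 2) +
            4 * k ^ 4 * (16 * k ^ 4 - 24 * k ^ 2) * (16 * k ^ 4 + 24 * k ^ 2))) := by
        rw [hu]
        unfold fa fb fc
        ring
      rw [h2, Int.mul_ediv_cancel_left _ (by norm_num)]
      linarith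
  obtain ⟨m, hm⟩ := h1
  rw [hm] at hq
  rcases Int.even_or_odd q with ⟨t, ht⟩ | ⟨t, ht⟩
  · exfalso
    rw [ht] at hq
    have : 4 * (s * t ^ 2) = 4 * m + 2 := by rw [← hq]; ring
    omega
  · rw [ht] at hq
    have : s + 4 * (s * (t ^ 2 + t)) = 4 * m + 2 := by rw [← hq]; ring
    omega

theorem isFund {u s : ℤ} (h : Good u s) : IsFund (4 * s) :=
  Or.inr ⟨s, rfl, Or.inl (s_mod h), h.2.2.1⟩

theorem om_le {s : ℤ} (hs : s ≠ 0) : om (2 * (4 * s)) ≤ om s + 1 := by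
  unfold om
  have h1 : (2 * (4 * s)).natAbs = 2 ^ 3 * s.natAbs := by
    rw [Int.natAbs_mul, Int.natAbs_mul]
    have h2 : (2 : ℤ).natAbs = 2 := rfl
    have h4 : (4 : ℤ).natAbs = 4 := rfl
    rw [h2, h4]
    ring
  rw [h1, Nat.primeFactors_mul (by norm_num) (Int.natAbs_ne_zero.2 hs),
    Nat.primeFactors_prime_pow (by norm_num) Nat.prime_two]
  refine (Finset.card_union_le _ _).trans ?_
  rw [Finset.card_singleton, add_comm]

theorem fin_abs (X : ℝ) : {d : ℤ | |(d : ℝ)| < X}.Finite := by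
  refine (Set.finite_Icc (-⌈X⌉) ⌈X⌉).subset ?_
  intro d hd
  have hd' : |(d : ℝ)| < X := hd
  rw [abs_lt] at hd'
  have h1 : (X : ℝ) ≤ (⌈X⌉ : ℝ) := Int.le_ceil X
  constructor
  · have : (-(⌈X⌉ : ℝ)) ≤ (d : ℝ) := by linarith
    exact_mod_cast this
  · have : (d : ℝ) ≤ (⌈X⌉ : ℝ) := by linarith
    exact_mod_cast this

/-- the set of the discriminants -/
def D (R : ℕ) (X : ℝ) : Set ℤ := {d : ℤ | IsFund d ∧ |(d : ℝ)| < X ∧
  AddGroup.FG (Pt d) ∧ 3 ≤ Module.finrank ℤ (Pt d) ∧ Module.finrank ℤ (Pt d) ≤ R}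

theorem D_fin (R : ℕ) (X : ℝ) : (D R X).Finite :=
  (fin_abs X).subset fun _ hd => hd.2.1

theorem count (hMWR : SpecMWR) (hIND : SpecIND) (hCNT : SpecCNT) :
    ∃ (R : ℕ) (θ : ℝ), 0 < θ ∧ ∃ X₀ : ℝ, 1 ≤ X₀ ∧ ∀ X : ℝ, X₀ ≤ X →
      X ^ (2 * θ) ≤ ((D R X).ncard : ℝ) := by
  obtain ⟨R, η, hη, Y₀, hY⟩ := hCNT
  set M : ℝ := max ((Y₀ : ℝ) + 1) (max ((2 : ℝ) ^ 14) (24 * 5 ^ 12 + 1)) with hM
  have hM1 : (Y₀ : ℝ) + 1 ≤ M := le_max_left _ _
  have hM2 : (2 : ℝ) ^ 14 ≤ M := (le_max_left _ _).trans (le_max_right _ _)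
  have hM3 : (24 * 5 ^ 12 + 1 : ℝ) ≤ M := (le_max_right _ _).trans (le_max_right _ _)
  have hM0 : 1 ≤ M := by linarith
  refine ⟨2 * (R + 2), η / 28, by positivity, M ^ 13, one_le_pow₀ hM0, ?_⟩
  intro X hX
  have hX0 : 0 < X := lt_of_lt_of_le (by positivity) hX
  set y : ℝ := X ^ (1 / 13 : ℝ) with hy
  have hy13 : y ^ 13 = X := by
    rw [hy, ← Real.rpow_natCast, ← Real.rpow_mul hX0.le]
    norm_num
  have hyM : M ≤ y := by
    have h1 : (M ^ 13) ^ (1 / 13 : ℝ) ≤ X ^ (1 / 13 : ℝ) :=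
      Real.rpow_le_rpow (by positivity) hX (by norm_num)
    have h2 : (M ^ 13) ^ (1 / 13 : ℝ) = M := by
      rw [← Real.rpow_natCast, ← Real.rpow_mul (by linarith)]
      norm_num
    rwa [h2] at h1
  have hy1 : 1 ≤ y := hM0.trans hyM
  have hy0 : 0 < y := by linarith
  set Y : ℕ := ⌊y⌋₊ with hYdef
  have hYy : (Y : ℝ) ≤ y := Nat.floor_le hy0.le
  have hYy' : y - 1 < (Y : ℝ) := by
    have := Nat.lt_floor_add_one y
    linarith
  have hYY₀ : Y₀ ≤ Y := by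
    apply Nat.le_floor
    linarith
  obtain ⟨S, hS, hS'⟩ := hY Y hYY₀
  -- the lower bound for `Y`
  have h1 : y ^ (13 / 14 : ℝ) ≤ (Y : ℝ) := by
    have h2 : y = y ^ (13 / 14 : ℝ) * y ^ (1 / 14 : ℝ) := by
      rw [← Real.rpow_add hy0]
      norm_num
    have h3 : (2 : ℝ) ≤ y ^ (1 / 14 : ℝ) := by
      have h4 : ((2 : ℝ) ^ 14) ^ (1 / 14 : ℝ) ≤ y ^ (1 / 14 : ℝ) :=
        Real.rpow_le_rpow (by positivity) (hM2.trans hyM) (by norm_num)
      have h5 : ((2 : ℝ) ^ 14) ^ (1 / 14 : ℝ) = 2 := by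
        rw [← Real.rpow_natCast, ← Real.rpow_mul (by norm_num)]
        norm_num
      rwa [h5] at h4
    have h6 : (1 : ℝ) ≤ y ^ (13 / 14 : ℝ) := Real.one_le_rpow hy1 (by norm_num)
    nlinarith
  have h2 : X ^ (2 * (η / 28)) ≤ (Y : ℝ) ^ η := by
    have h3 : X ^ (2 * (η / 28)) = (y ^ (13 / 14 : ℝ)) ^ η := by
      rw [← hy13, ← Real.rpow_natCast, ← Real.rpow_mul hy0.le, ← Real.rpow_mul hy0.le]
      congr 1
      push_cast
      ring
    rw [h3]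
    exact Real.rpow_le_rpow (by positivity) h1 hη.le
  refine h2.trans (hS.trans ?_)
  -- the discriminants `4 s`
  have h3 : (S.map ⟨fun s => 4 * s, fun a b h => by simpa using h⟩ : Set ℤ) ⊆
      D (2 * (R + 2)) X := by
    intro d hd
    rw [Finset.mem_coe, Finset.mem_map] at hd
    obtain ⟨s, hs, rfl⟩ := hd
    obtain ⟨hs1, hs2, u, hu⟩ := hS' s hs
    have hs0 : 0 < s := hu.2.2.2.1
    have hd0 : 4 * s ≠ 0 := by omega
    obtain ⟨hFG, hrk⟩ := hMWR (4 * s) hd0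
    refine ⟨isFund hu, ?_, hFG, hIND u s hu hFG, ?_⟩
    · show |((4 * s : ℤ) : ℝ)| < X
      have h4 : ((4 * s : ℤ) : ℝ) ≤ 24 * (2 * (Y : ℝ) + 3) ^ 12 := by
        have : (s : ℝ) ≤ 6 * (2 * (Y : ℝ) + 3) ^ 12 := by exact_mod_cast hs1
        push_cast
        linarith
      have h5 : (0 : ℝ) < ((4 * s : ℤ) : ℝ) := by
        have : (0 : ℤ) < 4 * s := by omega
        exact_mod_cast this
      rw [abs_of_pos h5]
      have h6 : (2 * (Y : ℝ) + 3) ^ 12 ≤ (5 * y) ^ 12 :=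
        pow_le_pow_left₀ (by positivity) (by linarith) 12
      have h7 : 24 * (5 * y) ^ 12 < X := by
        rw [← hy13]
        have h8 : 24 * 5 ^ 12 < y := by linarith
        have h9 : (0 : ℝ) < y ^ 12 := by positivity
        calc 24 * (5 * y) ^ 12 = (24 * 5 ^ 12) * y ^ 12 := by ring
          _ < y * y ^ 12 := by exact mul_lt_mul_of_pos_right h8 h9
          _ = y ^ 13 := by ring
      linarith
    · refine hrk.trans ?_
      have := om_le hs0.ne'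
      omega
  have h4 := Set.ncard_le_ncard h3 (D_fin _ _)
  rw [Set.ncard_coe_finset, Finset.card_map] at h4
  exact_mod_cast h4

end FINM

open FINM in
theorem specFIN (hMWR : SpecMWR) (hIND : SpecIND) (hCNT : SpecCNT) : SpecFIN := by
  obtain ⟨R, θ, hθ, X₀, hX₀, hX⟩ := count hMWR hIND hCNT
  -- the one exact rank
  set B : ℝ := max X₀ (((R : ℝ) + 1) ^ (1 / θ)) with hB
  have hB1 : X₀ ≤ B := le_max_left _ _
  have key : ∀ X : ℝ, B ≤ X → ∃ r : ℕ, 3 ≤ r ∧ r ≤ R ∧ X ^ θ ≤ (({d : ℤ | IsFund d ∧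
      |(d : ℝ)| < X ∧ AddGroup.FG (Pt d) ∧ Module.finrank ℤ (Pt d) = r}.ncard : ℕ) : ℝ) := by
    intro X hXB
    have hX1 : 1 ≤ X := hX₀.trans (hB1.trans hXB)
    have hX0 : 0 < X := by linarith
    have h1 := hX X (hB1.trans hXB)
    have h2 : (R : ℝ) + 1 ≤ X ^ θ := by
      have h3 : (((R : ℝ) + 1) ^ (1 / θ)) ^ θ ≤ X ^ θ :=
        Real.rpow_le_rpow (by positivity) ((le_max_right _ _).trans hXB) hθ.le
      rwa [← Real.rpow_mul (by positivity), one_div_mul_cancel hθ.ne', Real.rpow_one] at h3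
    have h3 : X ^ (2 * θ) = X ^ θ * X ^ θ := by
      rw [← Real.rpow_add hX0]
      congr 1
      ring
    have hpos : 0 < X ^ θ := Real.rpow_pos_of_pos hX0 θ
    set F := (D_fin R X).toFinset with hF
    have hcard : ((D R X).ncard : ℝ) = (F.card : ℝ) := by
      rw [Set.ncard_eq_toFinset_card _ (D_fin R X)]
    rw [hcard] at h1
    have hFne : F.Nonempty := by
      rw [← Finset.card_pos]
      have : (0 : ℝ) < (F.card : ℝ) := lt_of_lt_of_le (by rw [h3]; positivity) h1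
      exact_mod_cast this
    have hmaps : ∀ d ∈ F, Module.finrank ℤ (Pt d) ∈ Finset.Icc 3 R := by
      intro d hd
      rw [hF, Set.Finite.mem_toFinset] at hd
      exact Finset.mem_Icc.2 ⟨hd.2.2.2.1, hd.2.2.2.2⟩
    obtain ⟨d₀, hd₀⟩ := hFne
    have hne : (Finset.Icc 3 R).Nonempty := ⟨_, hmaps d₀ hd₀⟩
    have hb : (Finset.Icc 3 R).card • X ^ θ ≤ (F.card : ℝ) := by
      refine le_trans ?_ h1
      rw [h3, nsmul_eq_mul]
      apply mul_le_mul_of_nonneg_right _ hpos.le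
      refine le_trans ?_ h2
      rw [Nat.card_Icc]
      have : R + 1 - 3 ≤ R + 1 := Nat.sub_le _ _
      exact_mod_cast this
    obtain ⟨r, hr, hr'⟩ := Finset.exists_le_card_fiber_of_nsmul_le_card_of_maps_to hmaps hne hb
    rw [Finset.mem_Icc] at hr
    refine ⟨r, hr.1, hr.2, hr'.trans ?_⟩
    have hsub : ((F.filter fun d => Module.finrank ℤ (Pt d) = r : Finset ℤ) : Set ℤ) ⊆
        {d : ℤ | IsFund d ∧ |(d : ℝ)| < X ∧ AddGroup.FG (Pt d) ∧
          Module.finrank ℤ (Pt d) = r} := by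
      intro d hd
      rw [Finset.mem_coe, Finset.mem_filter, hF, Set.Finite.mem_toFinset] at hd
      exact ⟨hd.1.1, hd.1.2.1, hd.1.2.2.1, hd.2⟩
    have := Set.ncard_le_ncard hsub ((fin_abs X).subset fun _ hd => hd.2.1)
    rw [Set.ncard_coe_finset] at this
    exact_mod_cast this
  refine ⟨R, θ, hθ, ⟨X₀, fun X hXX => ?_⟩, ?_⟩
  · refine le_trans ?_ (hX X hXX)
    exact Real.rpow_le_rpow_of_exponent_le (hX₀.trans hXX) (by linarith)
  · by_contra hcon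
    push Not at hcon
    have h1 : ∀ r : ℕ, ∃ C : ℝ, 3 ≤ r → r ≤ R → ∀ X : ℝ, C ≤ X →
        (({d : ℤ | IsFund d ∧ |(d : ℝ)| < X ∧ AddGroup.FG (Pt d) ∧
          Module.finrank ℤ (Pt d) = r}.ncard : ℕ) : ℝ) < X ^ θ := by
      intro r
      by_cases h3 : 3 ≤ r
      · by_cases hR : r ≤ R
        · obtain ⟨C, hC⟩ := hcon r h3 hR
          exact ⟨C, fun _ _ => hC⟩
        · exact ⟨0, fun _ h => absurd h hR⟩
      · exact ⟨0, fun h => absurd h h3⟩
    choose C hC using h1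
    set X : ℝ := max B (∑ r ∈ Finset.Icc 3 R, |C r|) with hXdef
    obtain ⟨r, hr3, hrR, hr⟩ := key X (le_max_left _ _)
    have h2 : C r ≤ X := by
      refine le_trans (le_abs_self _) (le_trans ?_ (le_max_right _ _))
      exact Finset.single_le_sum (f := fun r => |C r|) (fun i _ => abs_nonneg _)
        (Finset.mem_Icc.2 ⟨hr3, hrR⟩)
    exact absurd hr (not_le.2 (hC r hr3 hrR X h2))

end Pool.Agent.Lib.MPad6874
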