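import Pool.Agent.Lib.MP_ad6874_nt.Spec2
import Pool.Agent.Lib.MP_ad6874_nt.FIN

/-!
# FN2: the final theorem of version 2
-/

set_option autoImplicit false

namespace Pool.Agent.Lib.MPad6874

namespace FN2M

theorem s_mod (hAR2 : SpecAR2) {u v s : ℤ} (h : Good2 u v s) : s % 4 = 2 := by
  obtain ⟨hP, _, _, q, hq⟩ := h
  obtain ⟨m, hm⟩ := hAR2.odd u v hP
  rw [hm] at hq
  rcases Int.even_or_odd q with ⟨t, ht⟩ | ⟨t, ht⟩
  · exfalso
    rw [ht] at hq
    have : 4 * (s * t ^ 2) = 4 * (3 * m + 1) + 2 := by linear_combination hq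
    omega
  · rw [ht] at hq
    have : s + 4 * (s * (t ^ 2 + t)) = 4 * (3 * m + 1) + 2 := by linear_combination hq
    omega

theorem isFund (hAR2 : SpecAR2) {u v s : ℤ} (h : Good2 u v s) : IsFund (4 * s) :=
  Or.inr ⟨s, rfl, Or.inl (s_mod hAR2 h), h.2.1⟩

end FN2M

open FINM in
theorem specFN2 (hMWR : SpecMWR) (hIN2 : SpecIN2) (hCN2 : SpecCN2) (hAR2 : SpecAR2) :
    SpecFN2 := by
  obtain ⟨R, C, c, hc, Y₀, hY⟩ := hCN2
  set M : ℝ := max 400 (200 * ((Y₀ : ℝ) + 1)) with hM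
  have hM1 : (400 : ℝ) ≤ M := le_max_left _ _
  have hM2 : 200 * ((Y₀ : ℝ) + 1) ≤ M := le_max_right _ _
  refine ⟨2 * (R + 2), C + 1, max (M ^ 12) (Real.exp (160000 / c)), ?_⟩
  intro X hX
  have hX1 : M ^ 12 ≤ X := (le_max_left _ _).trans hX
  have hX2 : Real.exp (160000 / c) ≤ X := (le_max_right _ _).trans hX
  have hX0 : 0 < X := lt_of_lt_of_le (Real.exp_pos _) hX2
  have hlog : 160000 / c ≤ Real.log X := (Real.le_log_iff_exp_le hX0).2 hX2
  have hlog0 : 0 < Real.log X := lt_of_lt_of_le (by positivity) hlog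
  set y : ℝ := X ^ (1 / 12 : ℝ) with hy
  have hy12 : y ^ 12 = X := by
    rw [hy, ← Real.rpow_natCast, ← Real.rpow_mul hX0.le]
    norm_num
  have hyM : M ≤ y := by
    have h1 : (M ^ 12) ^ (1 / 12 : ℝ) ≤ X ^ (1 / 12 : ℝ) :=
      Real.rpow_le_rpow (by positivity) hX1 (by norm_num)
    have h2 : (M ^ 12) ^ (1 / 12 : ℝ) = M := by
      rw [← Real.rpow_natCast, ← Real.rpow_mul (by linarith)]
      norm_num
    rwa [h2] at h1
  have hy1 : 400 ≤ y := hM1.trans hyM
  have hy0 : 0 < y := by linarith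
  have hy2 : X ^ ((1 : ℝ) / 6) = y ^ 2 := by
    rw [hy, ← Real.rpow_natCast, ← Real.rpow_mul hX0.le]
    norm_num
  set Y : ℕ := ⌊y / 200⌋₊ with hYdef
  have hYy : (Y : ℝ) ≤ y / 200 := Nat.floor_le (by positivity)
  have hYy' : y / 200 - 1 < (Y : ℝ) := by
    have := Nat.lt_floor_add_one (y / 200)
    linarith
  have hYlow : y / 400 ≤ (Y : ℝ) := by linarith
  have hYY₀ : Y₀ ≤ Y := by
    apply Nat.le_floor
    linarith
  obtain ⟨S, hS, hS'⟩ := hY Y hYY₀
  have hY1 : (1 : ℝ) ≤ (Y : ℝ) := by linarith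
  have hYX : (Y : ℝ) ≤ X := by
    have h1 : y ≤ y ^ 12 := le_self_pow₀ (by linarith) (by norm_num)
    rw [hy12] at h1
    linarith
  -- the lower bound for the number of elements of `S`
  have hcard : X ^ ((1 : ℝ) / 6) / Real.log X ^ (C + 1) ≤ (S.card : ℝ) := by
    rw [div_le_iff₀ (by positivity), hy2]
    have h1 : c * (y / 400) ^ 2 ≤ c * (Y : ℝ) ^ 2 :=
      mul_le_mul_of_nonneg_left (pow_le_pow_left₀ (by positivity) hYlow 2) hc.le
    have h2 : Real.log Y ^ C * (S.card : ℝ) ≤ Real.log X ^ C * (S.card : ℝ) := by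
      apply mul_le_mul_of_nonneg_right _ (Nat.cast_nonneg _)
      exact pow_le_pow_left₀ (Real.log_nonneg hY1) (Real.log_le_log (by linarith) hYX) C
    have h3 : c * (y / 400) ^ 2 ≤ Real.log X ^ C * (S.card : ℝ) := h1.trans (hS.trans h2)
    have h4 : y ^ 2 = (160000 / c) * (c * (y / 400) ^ 2) := by
      field_simp
      norm_num
    rw [h4]
    calc 160000 / c * (c * (y / 400) ^ 2)
        ≤ Real.log X * (Real.log X ^ C * (S.card : ℝ)) :=
          mul_le_mul hlog h3 (by positivity) hlog0.le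
      _ = (S.card : ℝ) * Real.log X ^ (C + 1) := by ring
  refine hcard.trans ?_
  -- the discriminants `4 s`
  have h3 : (S.map ⟨fun s => 4 * s, fun a b h => by simpa using h⟩ : Set ℤ) ⊆
      D (2 * (R + 2)) X := by
    intro d hd
    rw [Finset.mem_coe, Finset.mem_map] at hd
    obtain ⟨s, hs, rfl⟩ := hd
    obtain ⟨hs1, hs2, u, v, hu⟩ := hS' s hs
    have hs0 : 0 < s := hu.2.2.1
    have hd0 : 4 * s ≠ 0 := by omega
    obtain ⟨hFG, hrk⟩ := hMWR (4 * s) hd0
    refine ⟨FN2M.isFund hAR2 hu, ?_, hFG, hIN2 u v s hu hFG, ?_⟩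
    · show |((4 * s : ℤ) : ℝ)| < X
      have h4 : ((4 * s : ℤ) : ℝ) ≤ 24 * (100 * (Y : ℝ)) ^ 12 := by
        have : (s : ℝ) ≤ 6 * (100 * (Y : ℝ)) ^ 12 := by exact_mod_cast hs1
        push_cast
        linarith
      have h5 : (0 : ℝ) < ((4 * s : ℤ) : ℝ) := by
        have : (0 : ℤ) < 4 * s := by omega
        exact_mod_cast this
      rw [abs_of_pos h5]
      have h6 : (100 * (Y : ℝ)) ^ 12 ≤ (y / 2) ^ 12 :=
        pow_le_pow_left₀ (by positivity) (by linarith) 12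
      have h7 : 24 * (y / 2) ^ 12 < X := by
        rw [← hy12]
        have h9 : (0 : ℝ) < y ^ 12 := by positivity
        have h10 : 24 * (y / 2) ^ 12 = (24 / 4096) * y ^ 12 := by ring
        rw [h10]
        linarith
      linarith
    · refine hrk.trans ?_
      have := om_le hs0.ne'
      omega
  have h4 := Set.ncard_le_ncard h3 (D_fin _ _)
  rw [Set.ncard_coe_finset, Finset.card_map] at h4
  have h5 : (S.card : ℝ) ≤ ((D (2 * (R + 2)) X).ncard : ℝ) := by exact_mod_cast h4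
  exact h5

end Pool.Agent.Lib.MPad6874
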