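import Pool.Agent.Lib.MP_ad6874_nt.Spec3
import Pool.Agent.Lib.MP_ad6874_nt.FIN

/-!
# FN3: the final theorem for the curve `y² = x³ - k² x`
-/

set_option autoImplicit false

namespace Pool.Agent.Lib.MPad6874

namespace FN3M

theorem eq_of_mul_sq {s s' t : ℤ} (hs : Squarefree s) (hs' : Squarefree s') (h0 : 0 < s)
    (h : s * s' = t * t) : s = s' := by
  have h1 : s ∣ t ^ 2 := ⟨s', by rw [h]; ring⟩
  have h2 : s ∣ t := (hs.dvd_pow_iff_dvd (by norm_num)).1 h1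
  obtain ⟨a, ha⟩ := h2
  have h3 : s' = s * (a * a) := by
    apply mul_left_cancel₀ h0.ne'
    rw [h, ha]; ring
  have h4 : IsUnit a := hs' a ⟨s, by rw [h3]; ring⟩
  rw [Int.isUnit_iff] at h4
  rcases h4 with h4 | h4 <;> rw [h3, h4] <;> ring

theorem sim_inj {D s s' : ℤ} (hs : Squarefree s) (hs' : Squarefree s') (h0 : 0 < s)
    (h : Sim D s) (h' : Sim D s') : s = s' := by
  obtain ⟨l, hl, e⟩ := h
  obtain ⟨l', hl', e'⟩ := h'
  have h1 : IsSquare ((s * s' : ℤ) : ℚ) := by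
    refine ⟨(s' : ℚ) * l' / l, ?_⟩
    have h2 : (s : ℚ) * l ^ 2 = s' * l' ^ 2 := by rw [← e, ← e']
    push_cast
    field_simp
    linear_combination (s' : ℚ) * h2
  rw [Rat.isSquare_intCast_iff] at h1
  obtain ⟨t, ht⟩ := h1
  exact eq_of_mul_sq hs hs' h0 ht

theorem sim_ne {D s : ℤ} (h0 : 0 < s) (h : Sim D s) : D ≠ 0 := by
  obtain ⟨l, hl, e⟩ := h
  intro hD
  rw [hD] at e
  have h1 : (s : ℚ) ≠ 0 := by exact_mod_cast h0.ne'
  have := mul_ne_zero h1 (pow_ne_zero 2 hl)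
  apply this
  rw [← e]
  simp

theorem ev_log (C : ℕ) (K : ℝ) (hK : 0 < K) :
    ∃ X₁ : ℝ, ∀ X : ℝ, X₁ ≤ X → K * Real.log X ^ C ≤ X ^ ((1 : ℝ) / 6) := by
  have h1 := (isLittleO_log_rpow_rpow_atTop (C : ℝ) (show (0 : ℝ) < 1 / 6 by norm_num)).bound
    (show (0 : ℝ) < 1 / K by positivity)
  have h2 := h1.and (Filter.eventually_ge_atTop (1 : ℝ))
  rw [Filter.eventually_atTop] at h2
  obtain ⟨X₁, h⟩ := h2
  refine ⟨X₁, fun X hX => ?_⟩
  obtain ⟨h3, h4⟩ := h X hX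
  rw [Real.norm_of_nonneg (by
      rw [Real.rpow_natCast]; exact pow_nonneg (Real.log_nonneg h4) _),
    Real.norm_of_nonneg (by positivity), Real.rpow_natCast] at h3
  rw [one_div, inv_mul_eq_div, le_div_iff₀ hK] at h3
  linarith

/-- the set of the discriminants -/
def D (k : ℤ) (R : ℕ) (X : ℝ) : Set ℤ := {d : ℤ | IsFund d ∧ |(d : ℝ)| < X ∧
  AddGroup.FG (Pt (k * d)) ∧ 3 ≤ Module.finrank ℤ (Pt (k * d)) ∧
  Module.finrank ℤ (Pt (k * d)) ≤ R}

theorem D_fin (k : ℤ) (R : ℕ) (X : ℝ) : (D k R X).Finite :=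
  (FINM.fin_abs X).subset fun _ hd => hd.2.1

end FN3M

open FN3M in
theorem specFN3 (hMWR : SpecMWR) (hIN3 : SpecIN3) (hCN2 : SpecCN2) (hDK3 : SpecDK3) :
    SpecFN3 := by
  intro k hk
  obtain ⟨R, C, c, hc, Y₀, hY⟩ := hCN2
  set K : ℝ := |(k : ℝ)| with hK
  have hK1 : 1 ≤ K := by
    have : (1 : ℤ) ≤ |k| := Int.one_le_abs hk
    have h : ((1 : ℤ) : ℝ) ≤ ((|k| : ℤ) : ℝ) := by exact_mod_cast this
    rw [Int.cast_abs] at h
    simpa using h
  have hK0 : 0 < K := by linarith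
  obtain ⟨X₁, hX₁⟩ := ev_log (C + 1) K hK0
  set M : ℝ := max (400 * K) (200 * K * ((Y₀ : ℝ) + 1)) with hM
  have hM1 : 400 * K ≤ M := le_max_left _ _
  have hM2 : 200 * K * ((Y₀ : ℝ) + 1) ≤ M := le_max_right _ _
  refine ⟨2 * (om k + R + 2), C + 1,
    max (max (M ^ 12) (Real.exp (2 * (160000 * K ^ 2 / c)))) X₁, ?_⟩
  intro X hX
  have hX1 : M ^ 12 ≤ X := (le_max_left _ _).trans ((le_max_left _ _).trans hX)
  have hX2 : Real.exp (2 * (160000 * K ^ 2 / c)) ≤ X :=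
    (le_max_right _ _).trans ((le_max_left _ _).trans hX)
  have hX3 : X₁ ≤ X := (le_max_right _ _).trans hX
  have hX0 : 0 < X := lt_of_lt_of_le (Real.exp_pos _) hX2
  have hlog : 2 * (160000 * K ^ 2 / c) ≤ Real.log X := (Real.le_log_iff_exp_le hX0).2 hX2
  have hlog0 : 0 < Real.log X := lt_of_lt_of_le (by positivity) hlog
  set y : ℝ := X ^ (1 / 12 : ℝ) with hy
  have hy12 : y ^ 12 = X := by
    rw [hy, ← Real.rpow_natCast, ← Real.rpow_mul hX0.le]
    norm_num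
  have hM0 : 0 < M := by linarith
  have hyM : M ≤ y := by
    have h1 : (M ^ 12) ^ (1 / 12 : ℝ) ≤ X ^ (1 / 12 : ℝ) :=
      Real.rpow_le_rpow (by positivity) hX1 (by norm_num)
    have h2 : (M ^ 12) ^ (1 / 12 : ℝ) = M := by
      rw [← Real.rpow_natCast, ← Real.rpow_mul hM0.le]
      norm_num
    rwa [h2] at h1
  have hy1 : 400 * K ≤ y := hM1.trans hyM
  have hy0 : 0 < y := by linarith
  have hy2 : X ^ ((1 : ℝ) / 6) = y ^ 2 := by
    rw [hy, ← Real.rpow_natCast, ← Real.rpow_mul hX0.le]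
    norm_num
  have hK200 : (0 : ℝ) < 200 * K := by positivity
  set Y : ℕ := ⌊y / (200 * K)⌋₊ with hYdef
  have hYy : (Y : ℝ) ≤ y / (200 * K) := Nat.floor_le (by positivity)
  have hYy' : y / (200 * K) - 1 < (Y : ℝ) := by
    have := Nat.lt_floor_add_one (y / (200 * K))
    linarith
  have h2K : 2 ≤ y / (200 * K) := by
    rw [le_div_iff₀ hK200]; linarith
  have hYlow : y / (400 * K) ≤ (Y : ℝ) := by
    have : y / (400 * K) = y / (200 * K) / 2 := by
      rw [div_div]; ring_nf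
    rw [this]
    linarith
  have hYY₀ : Y₀ ≤ Y := by
    apply Nat.le_floor
    rw [le_div_iff₀ hK200]
    nlinarith [Nat.cast_nonneg (α := ℝ) Y₀]
  obtain ⟨S, hS, hS'⟩ := hY Y hYY₀
  have hY1 : (1 : ℝ) ≤ (Y : ℝ) := by linarith
  have hyK : y / (200 * K) ≤ y := by
    rw [div_le_iff₀ hK200]
    nlinarith
  have hYX : (Y : ℝ) ≤ X := by
    have h1 : y ≤ y ^ 12 := le_self_pow₀ (by linarith) (by norm_num)
    rw [hy12] at h1
    linarith
  -- the lower bound for the number of elements of `S`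
  have hcard : 2 * (X ^ ((1 : ℝ) / 6) / Real.log X ^ (C + 1)) ≤ (S.card : ℝ) := by
    rw [← mul_div_assoc, div_le_iff₀ (by positivity), hy2]
    have h1 : c * (y / (400 * K)) ^ 2 ≤ c * (Y : ℝ) ^ 2 :=
      mul_le_mul_of_nonneg_left (pow_le_pow_left₀ (by positivity) hYlow 2) hc.le
    have h2 : Real.log Y ^ C * (S.card : ℝ) ≤ Real.log X ^ C * (S.card : ℝ) := by
      apply mul_le_mul_of_nonneg_right _ (Nat.cast_nonneg _)
      exact pow_le_pow_left₀ (Real.log_nonneg hY1) (Real.log_le_log (by linarith) hYX) C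
    have h3 : c * (y / (400 * K)) ^ 2 ≤ Real.log X ^ C * (S.card : ℝ) := h1.trans (hS.trans h2)
    have h4 : 2 * y ^ 2 = (2 * (160000 * K ^ 2 / c)) * (c * (y / (400 * K)) ^ 2) := by
      field_simp
      norm_num
    rw [h4]
    calc 2 * (160000 * K ^ 2 / c) * (c * (y / (400 * K)) ^ 2)
        ≤ Real.log X * (Real.log X ^ C * (S.card : ℝ)) :=
          mul_le_mul hlog h3 (by positivity) hlog0.le
      _ = (S.card : ℝ) * Real.log X ^ (C + 1) := by ring
  -- remove the small elements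
  set S' : Finset ℤ := S.filter (fun s => |k| < s) with hSdef
  have hSS : S.card ≤ S'.card + k.natAbs := by
    have h1 : S ⊆ S' ∪ Finset.Icc 1 (k.natAbs : ℤ) := by
      intro s hs
      by_cases h : |k| < s
      · exact Finset.mem_union_left _ (Finset.mem_filter.2 ⟨hs, h⟩)
      · refine Finset.mem_union_right _ (Finset.mem_Icc.2 ⟨?_, ?_⟩)
        · obtain ⟨_, _, u, v, hu⟩ := hS' s hs
          have : 0 < s := hu.2.2.1
          omega
        · rw [← Int.abs_eq_natAbs]; exact not_lt.1 h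
    have h2 := (Finset.card_le_card h1).trans (Finset.card_union_le _ _)
    rw [Int.card_Icc] at h2
    omega
  have hcard' : X ^ ((1 : ℝ) / 6) / Real.log X ^ (C + 1) ≤ (S'.card : ℝ) := by
    have h1 : (S.card : ℝ) ≤ (S'.card : ℝ) + K := by
      have h2 : (S.card : ℝ) ≤ (S'.card : ℝ) + (k.natAbs : ℝ) := by exact_mod_cast hSS
      have h3 : ((k.natAbs : ℕ) : ℝ) = K := by
        rw [hK, Nat.cast_natAbs, Int.cast_abs]
      rwa [h3] at h2
    have h2 : K ≤ X ^ ((1 : ℝ) / 6) / Real.log X ^ (C + 1) := by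
      rw [le_div_iff₀ (by positivity)]
      exact hX₁ X hX3
    linarith
  refine hcard'.trans ?_
  -- the discriminants
  have hex : ∀ s : ℤ, ∃ d : ℤ, s ∈ S' → IsFund d ∧ |d| ≤ 4 * |k| * s ∧
      Sim (k * d) s ∧ om (2 * (k * d)) ≤ om k + om s + 1 := by
    intro s
    by_cases h : s ∈ S'
    · obtain ⟨hs1, hs2⟩ := Finset.mem_filter.1 h
      obtain ⟨_, _, u, v, hu⟩ := hS' s hs1
      obtain ⟨d, hd⟩ := hDK3 k s hk hu.2.1 hs2
      exact ⟨d, fun _ => hd⟩
    · exact ⟨0, fun h' => absurd h' h⟩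
  choose f hf using hex
  have hinj : Set.InjOn f ↑S' := by
    intro s hs s' hs' h
    obtain ⟨_, _, u, v, hu⟩ := hS' s (Finset.mem_filter.1 hs).1
    obtain ⟨_, _, u', v', hu'⟩ := hS' s' (Finset.mem_filter.1 hs').1
    have e1 := (hf s hs).2.2.1
    have e2 := (hf s' hs').2.2.1
    rw [h] at e1
    exact sim_inj hu.2.1 hu'.2.1 hu.2.2.1 e1 e2
  have h3 : ((S'.image f : Finset ℤ) : Set ℤ) ⊆ D k (2 * (om k + R + 2)) X := by
    intro d hd
    rw [Finset.mem_coe, Finset.mem_image] at hd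
    obtain ⟨s, hs, rfl⟩ := hd
    obtain ⟨hf1, hf2, hf3, hf4⟩ := hf s hs
    obtain ⟨hsS, hks⟩ := Finset.mem_filter.1 hs
    obtain ⟨hs1, hs2, u, v, hu⟩ := hS' s hsS
    have hs0 : 0 < s := hu.2.2.1
    obtain ⟨hFG, hrk⟩ := hMWR (k * f s) (sim_ne hs0 hf3)
    refine ⟨hf1, ?_, hFG, hIN3 u v s _ hu hf3 hFG, ?_⟩
    · have h4 : |((f s : ℤ) : ℝ)| ≤ 4 * K * s := by
        have : ((|f s| : ℤ) : ℝ) ≤ ((4 * |k| * s : ℤ) : ℝ) := by exact_mod_cast hf2
        rw [Int.cast_abs] at this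
        push_cast at this
        exact this
      have h5 : (s : ℝ) ≤ 6 * (100 * (Y : ℝ)) ^ 12 := by exact_mod_cast hs1
      have h6 : (100 * (Y : ℝ)) ^ 12 ≤ (y / (2 * K)) ^ 12 := by
        refine pow_le_pow_left₀ (by positivity) ?_ 12
        have : y / (2 * K) = 100 * (y / (200 * K)) := by
          field_simp
          norm_num
        rw [this]
        linarith
      have h7 : 24 * K * (y / (2 * K)) ^ 12 < X := by
        rw [← hy12, div_pow, mul_pow]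
        have hK12 : K ≤ K ^ 12 := le_self_pow₀ hK1 (by norm_num)
        have hKp : (0 : ℝ) < K ^ 12 := by positivity
        have h9 : (0 : ℝ) < y ^ 12 := by positivity
        rw [← mul_div_assoc, div_lt_iff₀ (by positivity)]
        nlinarith [mul_pos h9 hKp, mul_le_mul_of_nonneg_left hK12 h9.le]
      calc |((f s : ℤ) : ℝ)| ≤ 4 * K * s := h4
        _ ≤ 4 * K * (6 * (100 * (Y : ℝ)) ^ 12) := by gcongr
        _ = 24 * K * (100 * (Y : ℝ)) ^ 12 := by ring
        _ ≤ 24 * K * (y / (2 * K)) ^ 12 := by gcongr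
        _ < X := h7
    · refine hrk.trans ?_
      omega
  have h4 := Set.ncard_le_ncard h3 (D_fin _ _ _)
  rw [Set.ncard_coe_finset, Finset.card_image_of_injOn hinj] at h4
  have h5 : (S'.card : ℝ) ≤ ((D k (2 * (om k + R + 2)) X).ncard : ℝ) := by exact_mod_cast h4
  exact h5

end Pool.Agent.Lib.MPad6874
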