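import Pool.Agent.Lib.MP_ad6874_nt.Spec

/-!
# GRP: a criterion for linear independence (MP_ad6874_nt)
-/

set_option autoImplicit false

namespace Pool.Agent.Lib.MPad6874

namespace GRPM

/-- Infinite descent: all coefficients of a relation up to 2-torsion are even, and half of them is again
such a relation. -/
theorem desc {G : Type} [AddCommGroup G] (P : Fin 3 → G)
    (h1 : ∀ T : G, (4 : ℕ) • T = 0 → (2 : ℕ) • T = 0)
    (h2 : ∀ n : Fin 3 → ℤ, (∃ i, Odd (n i)) → ∀ T : G, (2 : ℕ) • T = 0 → ∑ i, n i • P i ≠ T) :
    ∀ (N : ℕ) (n : Fin 3 → ℤ), ∑ i, (n i).natAbs ≤ N → (2 : ℕ) • (∑ i, n i • P i) = 0 → n = 0 := by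
  intro N
  induction N with
  | zero =>
    intro n hn _
    have : ∑ i, (n i).natAbs = 0 := by omega
    funext i
    have := (Finset.sum_eq_zero_iff.mp this) i (Finset.mem_univ i)
    simpa using this
  | succ N ih =>
    intro n hn h0
    have hev : ∀ i, Even (n i) := by
      intro i
      by_contra hi
      exact h2 n ⟨i, by simpa using hi⟩ _ h0 rfl
    choose m hm using hev
    have hsum : ∑ i, n i • P i = (2 : ℕ) • (∑ i, m i • P i) := by
      rw [Finset.smul_sum]
      refine Finset.sum_congr rfl fun i _ => ?_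
      rw [hm i, add_smul, two_nsmul]
    have hm0 : (2 : ℕ) • (∑ i, m i • P i) = 0 := by
      apply h1
      rw [hsum, smul_smul] at h0
      exact h0
    by_cases hz : ∑ i, (m i).natAbs ≤ N
    · have := ih m hz hm0
      funext i
      rw [hm i, this]
      simp
    · exfalso
      have hle : ∑ i, (n i).natAbs = 2 * ∑ i, (m i).natAbs := by
        rw [Finset.mul_sum]
        refine Finset.sum_congr rfl fun i _ => ?_
        rw [hm i]
        omega
      omega

end GRPM

theorem specGRP : SpecGRP := by
  intro G _ P h1 h2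
  rw [Fintype.linearIndependent_iff]
  intro g hg i
  have := GRPM.desc P h1 h2 _ g le_rfl (by rw [hg, smul_zero])
  rw [this]
  rfl

end Pool.Agent.Lib.MPad6874
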