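import Pool.Agent.Lib.MP_ad6874_nt.Spec

/-!
# HGT: the approximate parallelogram law (MP_ad6874_nt)
-/

set_option autoImplicit false

namespace Pool.Agent.Lib.MPad6874

open WeierstrassCurve WeierstrassCurve.Affine WeierstrassCurve.Affine.Point Height

namespace HGTM

/-- The value of the addition and subtraction map of the curve `Y² = X³ - d² X`. -/
lemma ev (d : ℤ) (v : Fin 3 → ℚ) :
    (fun i => ((WeierstrassCurve.addSubMap (cur d)) i).eval v) =
      ![v 0 ^ 2 + 2 * (d : ℚ) ^ 2 * v 0 * v 2 + (d : ℚ) ^ 4 * v 2 ^ 2,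
        2 * v 1 * v 0 - 2 * (d : ℚ) ^ 2 * v 1 * v 2, v 1 ^ 2 - 4 * v 0 * v 2] := by
  ext i
  fin_cases i
  · simp [WeierstrassCurve.addSubMap, cur, WeierstrassCurve.b₂, WeierstrassCurve.b₄, WeierstrassCurve.b₆,
      WeierstrassCurve.b₈]
    left
    ring
  · simp [WeierstrassCurve.addSubMap, cur, WeierstrassCurve.b₂, WeierstrassCurve.b₄, WeierstrassCurve.b₆,
      WeierstrassCurve.b₈]
    ring
  · simp [WeierstrassCurve.addSubMap, cur, WeierstrassCurve.b₂, WeierstrassCurve.b₄, WeierstrassCurve.b₆,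
      WeierstrassCurve.b₈]

lemma negY_cur (d : ℤ) (x y : ℚ) : (cur d).negY x y = -y := by
  simp [WeierstrassCurve.Affine.negY, cur]

lemma addX_cur (d : ℤ) (x₁ x₂ l : ℚ) : (cur d).addX x₁ x₂ l = l ^ 2 - x₁ - x₂ := by
  simp [WeierstrassCurve.Affine.addX, cur]

/-- The case `P = Q`. -/
lemma dbl (hB : SpecBAS) {d : ℤ} (hd : d ≠ 0) (P : Pt d) :
    ∃ c : ℚ, c ≠ 0 ∧ (fun i => ((WeierstrassCurve.addSubMap (cur d)) i).eval (P.sym2x P)) =
      c • (P + P).sym2x 0 := by
  have hd' : (d : ℚ) ≠ 0 := by exact_mod_cast hd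
  match P with
  | 0 =>
    refine ⟨1, one_ne_zero, ?_⟩
    rw [ev]
    ext i
    fin_cases i <;> simp
  | .some x y h =>
    have he : y ^ 2 = x ^ 3 - (d : ℚ) ^ 2 * x := (hB.eqn d x y).1 h.1
    rw [ev]
    by_cases hy : y = 0
    · have h0 : (Point.some x y h : Pt d) + Point.some x y h = 0 := by
        apply Point.add_self_of_Y_eq
        rw [negY_cur, hy, _root_.neg_zero]
      rw [h0]
      refine ⟨(x ^ 2 + (d : ℚ) ^ 2) ^ 2, by positivity, ?_⟩
      rw [hy] at he
      ext i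
      fin_cases i
      · simp
        ring
      · simp
        linear_combination (-4) * he
      · simp
        ring
    · have hne : y ≠ (cur d).negY x y := by
        rw [negY_cur]
        intro h1
        apply hy
        linarith
      rw [Point.add_self_of_Y_ne hne]
      refine ⟨4 * y ^ 2, by positivity, ?_⟩
      rw [Point.sym2x_some_some, Point.sym2x_some_zero, addX_cur, slope_of_Y_ne rfl hne, negY_cur]
      have hs : (3 * x ^ 2 + 2 * (cur d).a₂ * x + (cur d).a₄ - (cur d).a₁ * y) / (y - -y) =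
          (3 * x ^ 2 - (d : ℚ) ^ 2) / (2 * y) := by
        simp only [cur]
        congr 1 <;> ring
      rw [hs]
      ext i
      fin_cases i
      · simp
        field_simp
        linear_combination (32 * x) * he
      · simp
        linear_combination (-4) * he
      · simp
        ring

/-- The addition and subtraction map. -/
lemma key (hB : SpecBAS) {d : ℤ} (hd : d ≠ 0) (P Q : Pt d) :
    ∃ c : ℚ, c ≠ 0 ∧ (fun i => ((WeierstrassCurve.addSubMap (cur d)) i).eval (P.sym2x Q)) =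
      c • (P + Q).sym2x (P - Q) := by
  have hd' : (d : ℚ) ≠ 0 := by exact_mod_cast hd
  match P, Q with
  | P, 0 =>
    refine ⟨1, one_ne_zero, ?_⟩
    rw [ev, add_zero, sub_zero]
    match P with
    | 0 =>
      ext i
      fin_cases i <;> simp
    | .some x y h =>
      ext i
      fin_cases i
      · simp
        ring
      · simp
        ring
      · simp
  | 0, .some x y h =>
    refine ⟨1, one_ne_zero, ?_⟩
    rw [ev, zero_add, zero_sub, sym2x_neg_right]
    ext i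
    fin_cases i
    · simp
      ring
    · simp
      ring
    · simp
  | .some x₁ y₁ h₁, .some x₂ y₂ h₂ =>
    by_cases hx : x₁ = x₂
    · have h3 : (Point.some x₁ y₁ h₁ : Pt d) = Point.some x₂ y₂ h₂ ∨
          (Point.some x₁ y₁ h₁ : Pt d) = -Point.some x₂ y₂ h₂ := Point.X_eq_iff.1 hx
      rcases h3 with h3 | h3
      · rw [h3, sub_self]
        exact dbl hB hd _
      · rw [h3, neg_add_cancel, sym2x_neg_left]
        obtain ⟨c, hc, h4⟩ := dbl hB hd (Point.some x₂ y₂ h₂ : Pt d)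
        refine ⟨c, hc, ?_⟩
        rw [h4]
        have h5 : -(Point.some x₂ y₂ h₂ : Pt d) - Point.some x₂ y₂ h₂ =
            -(Point.some x₂ y₂ h₂ + Point.some x₂ y₂ h₂) := by abel
        rw [h5, sym2x_neg_right, sym2x_comm]
    · have he₁ : y₁ ^ 2 = x₁ ^ 3 - (d : ℚ) ^ 2 * x₁ := (hB.eqn d x₁ y₁).1 h₁.1
      have he₂ : y₂ ^ 2 = x₂ ^ 3 - (d : ℚ) ^ 2 * x₂ := (hB.eqn d x₂ y₂).1 h₂.1
      have hxx : x₁ - x₂ ≠ 0 := sub_ne_zero.2 hx
      refine ⟨(x₁ - x₂) ^ 2, by positivity, ?_⟩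
      rw [ev, sub_eq_add_neg (Point.some x₁ y₁ h₁ : Pt d), Point.neg_some, Point.add_of_X_ne hx, Point.add_of_X_ne hx,
        Point.sym2x_some_some, Point.sym2x_some_some, addX_cur, addX_cur, slope_of_X_ne hx, slope_of_X_ne hx, negY_cur]
      have hm : ((y₁ - y₂) / (x₁ - x₂)) * ((y₁ - -y₂) / (x₁ - x₂)) =
          (x₁ ^ 2 + x₁ * x₂ + x₂ ^ 2 - (d : ℚ) ^ 2) / (x₁ - x₂) := by
        field_simp
        linear_combination he₁ - he₂
      have hp : (x₁ - x₂) ^ 2 * (((y₁ - y₂) / (x₁ - x₂)) ^ 2 + ((y₁ - -y₂) / (x₁ - x₂)) ^ 2) =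
          2 * (y₁ ^ 2 + y₂ ^ 2) := by
        field_simp
        ring
      have hq : (x₁ - x₂) ^ 2 * (((y₁ - y₂) / (x₁ - x₂)) * ((y₁ - -y₂) / (x₁ - x₂))) ^ 2 =
          (x₁ ^ 2 + x₁ * x₂ + x₂ ^ 2 - (d : ℚ) ^ 2) ^ 2 := by
        rw [hm]
        field_simp
      generalize (y₁ - y₂) / (x₁ - x₂) = m at hp hq
      generalize (y₁ - -y₂) / (x₁ - x₂) = n at hp hq
      ext i
      fin_cases i
      · simp
        linear_combination (-1 : ℚ) * hq + (x₁ + x₂) * hp + 2 * (x₁ + x₂) * he₁ + 2 * (x₁ + x₂) * he₂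
      · simp
        linear_combination (-1 : ℚ) * hp - 2 * he₁ - 2 * he₂
      · simp
        ring

lemma xRep_eta {d : ℤ} (P : Pt d) : P.xRep = ![P.xRep 0, P.xRep 1] := by
  ext i
  fin_cases i <;> simp

end HGTM

open HGTM in
/-- HGT. -/
theorem specHGT (hBAS : SpecBAS) : SpecHGT := by
  intro d hd
  have := hBAS.ell d hd
  obtain ⟨C₁, hC₁⟩ := WeierstrassCurve.abs_logHeight_addSubMap_sub_two_mul_logHeight_le (cur d)
  obtain ⟨C₂, hC₂⟩ := Height.abs_logHeight_sym2_sub_le ℚ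
  have hs : ∀ P Q : Pt d, |logHeight (P.sym2x Q) - (logHeight P.xRep + logHeight Q.xRep)| ≤ C₂ := by
    intro P Q
    have h1 : ![P.xRep 0, P.xRep 1] ≠ 0 := by
      rw [← xRep_eta]
      exact xRep_ne_zero P
    have h2 : ![Q.xRep 0, Q.xRep 1] ≠ 0 := by
      rw [← xRep_eta]
      exact xRep_ne_zero Q
    have h3 := hC₂ h1 h2
    rw [← xRep_eta, ← xRep_eta] at h3
    exact h3
  refine ⟨fun P => logHeight P.xRep, C₁ + 3 * C₂, fun P => logHeight_nonneg _, fun P Q => ?_, fun B => ?_⟩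
  · obtain ⟨c, hc, hcF⟩ := key hBAS hd P Q
    have h1 := hC₁ (P.sym2x Q)
    rw [hcF, logHeight_smul_eq_logHeight _ hc] at h1
    have h2 := hs P Q
    have h3 := hs (P + Q) (P - Q)
    rw [abs_le] at h1 h2 h3 ⊢
    constructor <;> linarith [h1.1, h1.2, h2.1, h2.2, h3.1, h3.2]
  · apply Set.Finite.of_finite_fibers (fun P : Pt d => P.xRep)
    · refine ((Set.finite_singleton (![1, 0] : Fin 2 → ℚ)).union
        ((NumberField.finite_setOfPred_logHeight₁_le (K := ℚ) B).image (fun x : ℚ => (![x, 1] : Fin 2 → ℚ)))).subset ?_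
      rintro _ ⟨P, hP, rfl⟩
      match P, hP with
      | 0, _ => exact Or.inl rfl
      | .some x y h, hP =>
        right
        refine ⟨x, ?_, rfl⟩
        rw [Set.mem_ofPred_eq, logHeight₁_eq_logHeight]
        exact hP
    · rintro _ ⟨P₀, _, rfl⟩
      refine (Set.toFinite {P₀, -P₀}).subset ?_
      rintro P ⟨_, hP⟩
      have h1 : P.xRep = P₀.xRep := hP
      rcases eq_or_eq_neg_of_xRep_eq_xRep h1 with h | h
      · exact Or.inl h
      · exact Or.inr h

end Pool.Agent.Lib.MPad6874
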