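import Pool.Agent.Lib.MP_ad6874_nt.Spec

/-!
# HOM: the components of the 2-descent map are homomorphisms modulo squares
-/

set_option autoImplicit false

namespace Pool.Agent.Lib.MPad6874
namespace HOMM

open Polynomial

/-- The algebraic core: `x1, x2, x3` are the abscissas of three collinear points. -/
lemma core {D e x1 x2 x3 m l : ℚ} (hD : D ≠ 0)
    (h0 : (x1 - e) * (x2 - e) * (x3 - e) = m ^ 2)
    (h1 : (x1 - e) * (x2 - e) + (x1 - e) * (x3 - e) + (x2 - e) * (x3 - e) = D - 2 * l * m) :
    IsSquare ((if x1 = e then D else x1 - e) * (if x2 = e then D else x2 - e) *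
      (if x3 = e then D else x3 - e)) := by
  by_cases a1 : x1 = e
  · have hm : m = 0 := by
      have h : m ^ 2 = 0 := by rw [← h0, a1]; ring
      exact (pow_eq_zero_iff (two_ne_zero)).1 h
    have h2 : (x2 - e) * (x3 - e) = D := by
      rw [hm, a1] at h1
      linear_combination h1
    have a2 : x2 ≠ e := by rintro rfl; apply hD; rw [← h2]; ring
    have a3 : x3 ≠ e := by rintro rfl; apply hD; rw [← h2]; ring
    rw [if_pos a1, if_neg a2, if_neg a3]
    exact ⟨D, by rw [mul_assoc, h2]⟩
  · by_cases a2 : x2 = e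
    · have hm : m = 0 := by
        have h : m ^ 2 = 0 := by rw [← h0, a2]; ring
        exact (pow_eq_zero_iff (two_ne_zero)).1 h
      have h2 : (x1 - e) * (x3 - e) = D := by
        rw [hm, a2] at h1
        linear_combination h1
      have a3 : x3 ≠ e := by rintro rfl; apply hD; rw [← h2]; ring
      rw [if_neg a1, if_pos a2, if_neg a3]
      exact ⟨D, by linear_combination D * h2⟩
    · by_cases a3 : x3 = e
      · have hm : m = 0 := by
          have h : m ^ 2 = 0 := by rw [← h0, a3]; ring
          exact (pow_eq_zero_iff (two_ne_zero)).1 h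
        have h2 : (x1 - e) * (x2 - e) = D := by
          rw [hm, a3] at h1
          linear_combination h1
        rw [if_neg a1, if_neg a2, if_pos a3]
        exact ⟨D, by linear_combination D * h2⟩
      · rw [if_neg a1, if_neg a2, if_neg a3]
        exact ⟨m, by rw [h0]; ring⟩

/-- The root equation and the value of the derivative at the root. -/
lemma root (d : ℤ) (i : Fin 3) : rt d i ^ 3 = (d : ℚ) ^ 2 * rt d i ∧
    dv d i = 3 * rt d i ^ 2 - (d : ℚ) ^ 2 := by
  fin_cases i
  · constructor
    · simp [rt]
    · simp [rt, dv]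
  · constructor
    · simp only [rt, Fin.mk_one, Matrix.cons_val_one, Matrix.cons_val_zero]
      ring
    · simp only [rt, dv, Fin.mk_one, Matrix.cons_val_one, Matrix.cons_val_zero]
      ring
  · constructor
    · simp only [rt, Fin.reduceFinMk, Matrix.cons_val]
      ring
    · simp only [rt, dv, Fin.reduceFinMk, Matrix.cons_val]
      ring

lemma dv_ne (d : ℤ) (hd : d ≠ 0) (i : Fin 3) : dv d i ≠ 0 := by
  have hd' : (d : ℚ) ≠ 0 := by exact_mod_cast hd
  have h2 : (d : ℚ) ^ 2 ≠ 0 := pow_ne_zero 2 hd'
  fin_cases i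
  · simpa [dv] using hd
  · simpa [dv] using hd
  · simpa [dv] using hd

/-- The polynomial identity of the chord (or tangent) evaluated at `T`. -/
lemma chord (d : ℤ) {x1 x2 y1 y2 : ℚ} (h1 : (cur d).Equation x1 y1) (h2 : (cur d).Equation x2 y2)
    (hxy : ¬(x1 = x2 ∧ y1 = (cur d).negY x2 y2)) (T : ℚ) :
    (((cur d).slope x1 x2 y1 y2) * (T - x1) + y1) ^ 2 - (T ^ 3 - (d : ℚ) ^ 2 * T) =
      -((T - x1) * (T - x2) * (T - (cur d).addX x1 x2 ((cur d).slope x1 x2 y1 y2))) := by
  have h := congrArg (Polynomial.eval T) (WeierstrassCurve.Affine.addPolynomial_slope h1 h2 hxy)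
  rw [WeierstrassCurve.Affine.addPolynomial_eq] at h
  simp only [Cubic.toPoly, eval_neg, eval_add, eval_mul, eval_C, eval_pow, eval_X, eval_sub] at h
  have a1 : (cur d).a₁ = 0 := rfl
  have a2 : (cur d).a₂ = 0 := rfl
  have a3 : (cur d).a₃ = 0 := rfl
  have a4 : (cur d).a₄ = -(d : ℚ) ^ 2 := rfl
  have a6 : (cur d).a₆ = 0 := rfl
  rw [a1, a2, a3, a4, a6] at h
  rw [← h]
  ring

end HOMM

open HOMM in
theorem specHOM (hBAS : SpecBAS) : SpecHOM := by
  intro d hd i P Q
  rcases P with _ | ⟨x1, y1, h1⟩
  · have h : (WeierstrassCurve.Affine.Point.zero : Pt d) + Q = Q := zero_add Q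
    rw [h]
    exact ⟨del d i Q, by change 1 * _ * _ = _; rw [one_mul]⟩
  · rcases Q with _ | ⟨x2, y2, h2⟩
    · have h : (WeierstrassCurve.Affine.Point.some x1 y1 h1 : Pt d) +
          WeierstrassCurve.Affine.Point.zero = WeierstrassCurve.Affine.Point.some x1 y1 h1 :=
        add_zero _
      rw [h]
      refine ⟨del d i (WeierstrassCurve.Affine.Point.some x1 y1 h1), ?_⟩
      change _ * 1 * _ = _
      rw [mul_one]
    · by_cases hxy : x1 = x2 ∧ y1 = (cur d).negY x2 y2
      · have h : (WeierstrassCurve.Affine.Point.some x1 y1 h1 : Pt d) +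
            WeierstrassCurve.Affine.Point.some x2 y2 h2 = 0 :=
          WeierstrassCurve.Affine.Point.add_of_Y_eq hxy.1 hxy.2
        rw [h]
        refine ⟨del d i (WeierstrassCurve.Affine.Point.some x2 y2 h2), ?_⟩
        change (if x1 = rt d i then dv d i else x1 - rt d i) * _ * 1 = _
        rw [mul_one, hxy.1]
        rfl
      · have h : (WeierstrassCurve.Affine.Point.some x1 y1 h1 : Pt d) +
            WeierstrassCurve.Affine.Point.some x2 y2 h2 =
              WeierstrassCurve.Affine.Point.some _ _
                (WeierstrassCurve.Affine.nonsingular_add h1 h2 hxy) :=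
          WeierstrassCurve.Affine.Point.add_some hxy
        rw [h]
        change IsSquare ((if x1 = rt d i then dv d i else x1 - rt d i) *
          (if x2 = rt d i then dv d i else x2 - rt d i) *
          (if (cur d).addX x1 x2 ((cur d).slope x1 x2 y1 y2) = rt d i then dv d i else
            (cur d).addX x1 x2 ((cur d).slope x1 x2 y1 y2) - rt d i))
        obtain ⟨r1, r2⟩ := root d i
        have hT := chord d h1.1 h2.1 hxy
        have hx : (cur d).addX x1 x2 ((cur d).slope x1 x2 y1 y2) =
            ((cur d).slope x1 x2 y1 y2) ^ 2 - x1 - x2 := by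
          simp only [WeierstrassCurve.Affine.addX]
          have a1 : (cur d).a₁ = 0 := rfl
          have a2 : (cur d).a₂ = 0 := rfl
          rw [a1, a2]
          ring
        generalize (cur d).addX x1 x2 ((cur d).slope x1 x2 y1 y2) = x3 at hT hx ⊢
        generalize (cur d).slope x1 x2 y1 y2 = l at hT hx
        refine core (m := l * (rt d i - x1) + y1) (l := l) (dv_ne d hd i) ?_ ?_
        · have hTe := hT (rt d i)
          linear_combination (-1) * hTe - r1
        · have hT1 := hT 1
          have hT2 := hT (-1)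
          linear_combination (1 / 2) * hT1 - (1 / 2) * hT2 - 2 * rt d i * hx - r2

end Pool.Agent.Lib.MPad6874
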