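import Pool.Agent.Lib.MP_ad6874_nt.Spec

/-!
# The index of `2 G` (MP_ad6874_nt, module IDX)
-/

set_option autoImplicit false

namespace Pool.Agent.Lib.MPad6874

namespace IDXM

theorem natSq (n : ℕ) (hn : n ≠ 0) (h : ∀ p, p.Prime → Even (n.factorization p)) : IsSquare n := by
  refine ⟨n.factorization.prod fun p e => p ^ (e / 2), ?_⟩
  conv_lhs => rw [← Nat.prod_factorization_pow_eq_self hn]
  rw [Finsupp.prod, Finsupp.prod, ← Finset.prod_mul_distrib]
  refine Finset.prod_congr rfl fun p hp => ?_
  have hp' : p.Prime := Nat.prime_of_mem_primeFactors (by simpa using hp)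
  obtain ⟨m, hm⟩ := h p hp'
  rw [← pow_add, hm]
  congr 1
  omega

theorem ratSq (r : ℚ) (hr : 0 < r) (h : ∀ p : ℕ, p.Prime → Even (padicValRat p r)) :
    IsSquare r := by
  have hnum : 0 < r.num := Rat.num_pos.mpr hr
  have hden : r.den ≠ 0 := r.den_nz
  have hn0 : r.num.natAbs ≠ 0 := by omega
  have hsq : IsSquare (r.num.natAbs * r.den) := by
    apply natSq _ (Nat.mul_ne_zero hn0 hden)
    intro p hp
    have := Fact.mk hp
    rw [Nat.factorization_mul hn0 hden, Finsupp.add_apply]
    have h1 := h p hp
    have h2 : padicValRat p r = ((r.num.natAbs.factorization p : ℕ) : ℤ)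
        - ((r.den.factorization p : ℕ) : ℤ) := by
      rw [padicValRat, padicValInt, Nat.factorization_def _ hp, Nat.factorization_def _ hp]
    rw [h2] at h1
    have h3 : Even (((r.num.natAbs.factorization p : ℕ) : ℤ) + ((r.den.factorization p : ℕ) : ℤ)) := by
      rw [Int.even_sub] at h1
      rw [Int.even_add]
      exact h1
    exact_mod_cast h3
  obtain ⟨m, hm⟩ := hsq
  refine ⟨(m : ℚ) / r.den, ?_⟩
  have hdenq : (r.den : ℚ) ≠ 0 := by exact_mod_cast hden
  have hm' : (r.num : ℚ) * r.den = (m : ℚ) * m := by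
    have : (((r.num.natAbs * r.den : ℕ)) : ℚ) = ((m * m : ℕ) : ℚ) := by rw [hm]
    push_cast at this
    rwa [← Int.cast_natCast, Int.natAbs_of_nonneg hnum.le] at this
  have hr' : r = (r.num : ℚ) / r.den := (Rat.num_div_den r).symm
  conv_lhs => rw [hr']
  field_simp
  linarith

theorem sq_cancel {x y : ℚ} (hx : x ≠ 0) (h1 : IsSquare x) (h2 : IsSquare (x * y)) :
    IsSquare y := by
  have : y = x * y / x := by field_simp
  rw [this]
  exact h2.div h1

end IDXM

theorem specIDX (hBAS : SpecBAS) (hHOM : SpecHOM) (hINJ : SpecINJ) (hVAL : SpecVAL) :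
    SpecIDX := by
  intro d hd
  set S := (2 * d).natAbs.primeFactors with hS
  let Φ : Pt d → (Fin 2 → (Bool × (S → ZMod 2))) := fun P i =>
    (decide (0 < del d i.castSucc P), fun p => ((padicValRat p.1 (del d i.castSucc P) : ℤ) : ZMod 2))
  have key : ∀ P Q : Pt d, Φ P = Φ Q → P - Q ∈ (nsmulAddMonoidHom (α := Pt d) 2).range := by
    intro P Q hPQ
    have h01 : ∀ i : Fin 2, IsSquare (del d i.castSucc P * del d i.castSucc Q) := by
      intro i
      have hx := hBAS.nz d hd i.castSucc P
      have hy := hBAS.nz d hd i.castSucc Q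
      have hi := congrFun hPQ i
      have hs : decide (0 < del d i.castSucc P) = decide (0 < del d i.castSucc Q) :=
        congrArg Prod.fst hi
      have hv := congrArg Prod.snd hi
      apply IDXM.ratSq
      · have hs' : (0 < del d i.castSucc P) ↔ (0 < del d i.castSucc Q) := by simpa using hs
        rcases lt_or_gt_of_ne hx with h | h
        · have : ¬ 0 < del d i.castSucc Q := fun h' => absurd (hs'.mpr h') (not_lt.mpr h.le)
          have h2 : del d i.castSucc Q < 0 := lt_of_le_of_ne (not_lt.mp this) hy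
          exact mul_pos_of_neg_of_neg h h2
        · exact mul_pos h (hs'.mp h)
      · intro p hp
        have := Fact.mk hp
        rw [padicValRat.mul hx hy]
        by_cases hpS : p ∈ S
        · have h1 : ((padicValRat p (del d i.castSucc P) : ℤ) : ZMod 2)
              = ((padicValRat p (del d i.castSucc Q) : ℤ) : ZMod 2) := congrFun hv ⟨p, hpS⟩
          rw [ZMod.intCast_eq_intCast_iff_dvd_sub] at h1
          obtain ⟨c, hc⟩ := h1
          refine ⟨padicValRat p (del d i.castSucc P) + c, ?_⟩
          push_cast at hc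
          omega
        · have hnd : ¬ (p : ℤ) ∣ 2 * d := by
            intro hdv
            apply hpS
            rw [hS, Nat.mem_primeFactors]
            refine ⟨hp, Int.natCast_dvd.mp hdv, ?_⟩
            omega
          exact (hVAL d p hd hp hnd P _).add (hVAL d p hd hp hnd Q _)
    have hall : ∀ i : Fin 3, IsSquare (del d i P * del d i Q) := by
      have e0 : IsSquare (del d 0 P * del d 0 Q) := h01 0
      have e1 : IsSquare (del d 1 P * del d 1 Q) := h01 1
      have n0 := mul_ne_zero (hBAS.nz d hd 0 P) (hBAS.nz d hd 0 Q)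
      have n1 := mul_ne_zero (hBAS.nz d hd 1 P) (hBAS.nz d hd 1 Q)
      have e2 : IsSquare (del d 2 P * del d 2 Q) := by
        apply IDXM.sq_cancel (mul_ne_zero n0 n1) (e0.mul e1)
        have h3 := (hBAS.prd d hd P).mul (hBAS.prd d hd Q)
        have e : (del d 0 P * del d 0 Q) * (del d 1 P * del d 1 Q) * (del d 2 P * del d 2 Q)
            = (del d 0 P * del d 1 P * del d 2 P) * (del d 0 Q * del d 1 Q * del d 2 Q) := by
          ring
        rw [e]
        exact h3
      intro i
      fin_cases i
      · exact e0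
      · exact e1
      · exact e2
    have hsq : ∀ i : Fin 3, IsSquare (del d i (P - Q)) := by
      intro i
      have h1 := hHOM d hd i P (-Q)
      rw [hBAS.neg, ← sub_eq_add_neg] at h1
      exact IDXM.sq_cancel (mul_ne_zero (hBAS.nz d hd i P) (hBAS.nz d hd i Q)) (hall i) h1
    obtain ⟨R, hR⟩ := hINJ.1 d hd (P - Q) hsq
    exact ⟨R, hR⟩
  set H := (nsmulAddMonoidHom (α := Pt d) 2).range with hH
  have hinj : Function.Injective (fun x : Pt d ⧸ H => Φ (Quotient.out x)) := by
    intro x y hxy
    have h1 := key _ _ hxy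
    have h2 : ((Quotient.out y : Pt d) : Pt d ⧸ H) = ((Quotient.out x : Pt d) : Pt d ⧸ H) := by
      rw [QuotientAddGroup.eq]
      rw [← sub_eq_neg_add]
      exact h1
    simpa using h2.symm
  have hfin : Finite (Pt d ⧸ H) := Finite.of_injective _ hinj
  refine ⟨AddSubgroup.finiteIndex_of_finite_quotient, ?_⟩
  have hcard : Nat.card (Pt d ⧸ H) ≤ Nat.card (Fin 2 → (Bool × (S → ZMod 2))) :=
    Nat.card_le_card_of_injective _ hinj
  have hT : Nat.card (Fin 2 → (Bool × (S → ZMod 2))) = 2 ^ (2 * (om (2 * d) + 1)) := by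
    rw [Nat.card_eq_fintype_card]
    simp only [Fintype.card_pi, Fintype.card_prod, Fintype.card_bool, Finset.prod_const,
      Finset.card_univ, Fintype.card_fin, ZMod.card, Fintype.card_coe]
    rw [om, ← hS, ← pow_succ', ← pow_mul]
    congr 1
    ring
  rw [← hT]
  exact hcard

end Pool.Agent.Lib.MPad6874
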