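import Pool.Agent.Lib.MP_ad6874_nt.Spec

/-!
# MP_ad6874_nt, module IND: the three points are independent
-/

set_option autoImplicit false

namespace Pool.Agent.Lib.MPad6874

namespace INDM

lemma sq_cancel {x y : ℚ} (hx : x ≠ 0) (h : IsSquare (x * x * y)) : IsSquare y := by
  obtain ⟨r, hr⟩ := h
  refine ⟨r / x, ?_⟩
  field_simp
  linear_combination hr

/-- the product of the relevant factors -/
noncomputable def cf (n D : ℤ) : ℤ := by
  classical exact if Odd n then D else 1

lemma cf_odd {n : ℤ} (D : ℤ) (h : Odd n) : cf n D = D := by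
  unfold cf
  simp [h]

lemma cf_even {n : ℤ} (D : ℤ) (h : Even n) : cf n D = 1 := by
  unfold cf
  simp [Int.not_odd_iff_even.2 h]

lemma cf_three {n D : ℤ} (h : ¬ (3 : ℤ) ∣ D) : ¬ (3 : ℤ) ∣ cf n D := by
  rcases Int.even_or_odd n with hn | hn
  · rw [cf_even D hn]
    norm_num
  · rw [cf_odd D hn]
    exact h

lemma add_two (hBAS : SpecBAS) (hHOM : SpecHOM) {d : ℤ} (hd : d ≠ 0) (i : Fin 3) (R Q : Pt d)
    (X : ℚ) (h : IsSquare (del d i R * X)) : IsSquare (del d i (R + (Q + Q)) * X) := by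
  have hR := hBAS.nz d hd i R
  have hQ := hBAS.nz d hd i Q
  have hQQ := hBAS.nz d hd i (Q + Q)
  have h1 : IsSquare (del d i (Q + Q)) := sq_cancel hQ (hHOM d hd i Q Q)
  have h2 := hHOM d hd i R (Q + Q)
  have h3 : IsSquare ((del d i R * del d i (Q + Q)) * (del d i R * del d i (Q + Q)) *
      (del d i (R + (Q + Q)) * X)) := by
    have h4 := (h2.mul h).mul h1
    have e : (del d i R * del d i (Q + Q)) * (del d i R * del d i (Q + Q)) *
        (del d i (R + (Q + Q)) * X) =
        del d i R * del d i (Q + Q) * del d i (R + (Q + Q)) * (del d i R * X) *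
          del d i (Q + Q) := by ring
    rw [e]
    exact h4
  exact sq_cancel (mul_ne_zero hR hQQ) h3

lemma add_one' (hBAS : SpecBAS) (hHOM : SpecHOM) {d : ℤ} (hd : d ≠ 0) (i : Fin 3) (R P : Pt d)
    (X D : ℚ) (h : IsSquare (del d i R * X)) (hP : IsSquare (del d i P * D)) :
    IsSquare (del d i (R + P) * (X * D)) := by
  have hR := hBAS.nz d hd i R
  have hP' := hBAS.nz d hd i P
  have h2 := hHOM d hd i R P
  have h3 : IsSquare ((del d i R * del d i P) * (del d i R * del d i P) *
      (del d i (R + P) * (X * D))) := by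
    have h4 := (h2.mul h).mul hP
    have e : (del d i R * del d i P) * (del d i R * del d i P) * (del d i (R + P) * (X * D)) =
        del d i R * del d i P * del d i (R + P) * (del d i R * X) * (del d i P * D) := by ring
    rw [e]
    exact h4
  exact sq_cancel (mul_ne_zero hR hP') h3

lemma step (hBAS : SpecBAS) (hHOM : SpecHOM) {d : ℤ} (hd : d ≠ 0) (i : Fin 3) (R P : Pt d)
    (n X D : ℤ) (h : IsSquare (del d i R * (X : ℚ))) (hP : IsSquare (del d i P * (D : ℚ))) :
    IsSquare (del d i (R + n • P) * ((X * cf n D : ℤ) : ℚ)) := by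
  rcases Int.even_or_odd n with hn | hn
  · rw [cf_even D hn, mul_one]
    obtain ⟨m, rfl⟩ := hn
    rw [add_zsmul]
    exact add_two hBAS hHOM hd i R (m • P) X h
  · rw [cf_odd D hn]
    obtain ⟨m, rfl⟩ := hn
    have e : R + (2 * m + 1) • P = (R + P) + (m • P + m • P) := by
      rw [add_zsmul, two_mul, add_zsmul, one_zsmul]
      abel
    rw [e]
    refine add_two hBAS hHOM hd i (R + P) (m • P) _ ?_
    push_cast
    exact add_one' hBAS hHOM hd i R P _ _ h hP

/-- the table of the values of `δ` -/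
def Dt (u : ℤ) : Fin 3 → Fin 3 → ℤ :=
  ![![fb u * fc u, fa u * fc u, fa u * fb u],
    ![-2 * (fa u * fb u), -2 * (fb u * fc u), fa u * fc u],
    ![-2 * (fa u * fc u), -2 * (fb u * fc u), fa u * fb u]]

lemma Dt_three (hNSQ : SpecNSQ) (u : ℤ) (j i : Fin 3) : ¬ (3 : ℤ) ∣ Dt u j i := by
  obtain ⟨ha, hb, hc⟩ := hNSQ.thr u
  have h2 : ¬ (3 : ℤ) ∣ -2 := by norm_num
  have hp := Int.prime_three
  fin_cases j <;> fin_cases i <;>
    simp only [Dt, Fin.isValue, Fin.zero_eta, Fin.mk_one, Fin.reduceFinMk, Matrix.cons_val] <;>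
    simp only [hp.dvd_mul, ha, hb, hc, h2, or_self, not_false_eq_true]

lemma three_dvd (hNSQ : SpecNSQ) {u s : ℤ} (h : Good u s) : (3 : ℤ) ∣ s ∧ ¬ (9 : ℤ) ∣ s := by
  obtain ⟨_, _, hsf, _, q, hq⟩ := h
  obtain ⟨ha, hb, hc⟩ := hNSQ.thr u
  have hp := Int.prime_three
  constructor
  · by_contra h3
    have h1 : (3 : ℤ) ∣ s * q ^ 2 := by
      rw [hq]
      exact ⟨2 * (fa u * fb u * fc u), by ring⟩
    have h2 : (3 : ℤ) ∣ q := hp.dvd_of_dvd_pow ((hp.dvd_mul.1 h1).resolve_left h3)
    obtain ⟨r, rfl⟩ := h2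
    have h4 : 3 * (s * r ^ 2) = 2 * (fa u * fb u * fc u) := by linarith
    have h5 : (3 : ℤ) ∣ 2 * (fa u * fb u * fc u) := ⟨_, h4.symm⟩
    have h6 : ¬ (3 : ℤ) ∣ 2 := by norm_num
    simp only [hp.dvd_mul, ha, hb, hc, h6, or_self] at h5
  · intro h9
    have h1 : (3 : ℤ) * 3 ∣ s := by
      norm_num
      exact h9
    have := hsf 3 h1
    rw [Int.isUnit_iff] at this
    omega

lemma not_sq (hNSQ : SpecNSQ) {u s : ℤ} (h : Good u s) {X : ℤ} (hX : ¬ (3 : ℤ) ∣ X) (e : ℤ)
    (he : e = 1 ∨ e = -1) : ¬ IsSquare (((e * (4 * s) : ℤ) : ℚ) * (X : ℚ)) := by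
  intro hsq
  obtain ⟨h3, h9⟩ := three_dvd hNSQ h
  have hp := Int.prime_three
  have h1 : IsSquare (e * (4 * s) * X) := by
    rw [← Rat.isSquare_intCast_iff]
    push_cast at hsq ⊢
    exact hsq
  obtain ⟨w, hw⟩ := h1
  obtain ⟨r, rfl⟩ := h3
  have h2 : (3 : ℤ) ∣ w * w := ⟨e * 4 * r * X, by rw [← hw]; ring⟩
  have h4 : (3 : ℤ) ∣ w := by
    rcases hp.dvd_mul.1 h2 with h | h <;> exact h
  obtain ⟨t, rfl⟩ := h4
  have h5 : e * 4 * r * X = 3 * (t * t) := by linarith
  have h6 : (3 : ℤ) ∣ e * 4 * r * X := ⟨_, h5⟩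
  have h7 : ¬ (3 : ℤ) ∣ e := by
    rcases he with rfl | rfl <;> norm_num
  have h8 : ¬ (3 : ℤ) ∣ 4 := by norm_num
  have h10 : ¬ (3 : ℤ) ∣ r := by
    intro hr
    apply h9
    obtain ⟨k, rfl⟩ := hr
    exact ⟨k, by ring⟩
  simp only [hp.dvd_mul, h7, h8, h10, hX, or_self] at h6

lemma neg_not_sq {x : ℤ} (h : x < 0) : ¬ IsSquare ((x : ℤ) : ℚ) := by
  rintro ⟨r, hr⟩
  have h1 : ((x : ℤ) : ℚ) < 0 := by exact_mod_cast h
  nlinarith [mul_self_nonneg r]

end INDM

open INDM

/-- Module IND: the rank is at least three. -/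
theorem specIND (hBAS : SpecBAS) (hHOM : SpecHOM) (hINJ : SpecINJ) (hGRP : SpecGRP)
    (hNSQ : SpecNSQ) (hPTS : SpecPTS) : SpecIND := by
  intro u s hg hfg
  have hs0 : 0 < s := hg.2.2.2.1
  have hd : (4 * s : ℤ) ≠ 0 := by omega
  obtain ⟨P, ⟨h00, h01, h02⟩, ⟨h10, h11, h12⟩, ⟨h20, h21, h22⟩⟩ := hPTS u s hg
  have hP : ∀ j i, IsSquare (del (4 * s) i (P j) * ((Dt u j i : ℤ) : ℚ)) := by
    intro j i
    fin_cases j <;> fin_cases i
    · exact h00
    · exact h01
    · exact h02
    · exact h10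
    · exact h11
    · exact h12
    · exact h20
    · exact h21
    · exact h22
  obtain ⟨ha, hb, hc⟩ := hNSQ.pos u hg.1 hg.2.1
  have hli : LinearIndependent ℤ P := by
    refine hGRP (Pt (4 * s)) P (hINJ.2 (4 * s) hd) ?_
    intro n hn T hT hsum
    -- the values of `δ` at `T`
    have hX : ∀ i, IsSquare (del (4 * s) i T *
        ((cf (n 0) (Dt u 0 i) * cf (n 1) (Dt u 1 i) * cf (n 2) (Dt u 2 i) : ℤ) : ℚ)) := by
      intro i
      have h0 : IsSquare (del (4 * s) i (0 : Pt (4 * s)) * ((1 : ℤ) : ℚ)) := by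
        have : del (4 * s) i (0 : Pt (4 * s)) = 1 := rfl
        rw [this]
        exact ⟨1, by norm_num⟩
      have h1 := step hBAS hHOM hd i 0 (P 0) (n 0) 1 (Dt u 0 i) h0 (hP 0 i)
      have h2 := step hBAS hHOM hd i _ (P 1) (n 1) _ (Dt u 1 i) h1 (hP 1 i)
      have h3 := step hBAS hHOM hd i _ (P 2) (n 2) _ (Dt u 2 i) h2 (hP 2 i)
      rw [zero_add, one_mul] at h3
      rw [Fin.sum_univ_three] at hsum
      rw [hsum] at h3
      exact h3
    have hX3 : ∀ i, ¬ (3 : ℤ) ∣
        cf (n 0) (Dt u 0 i) * cf (n 1) (Dt u 1 i) * cf (n 2) (Dt u 2 i) := by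
      intro i
      have hp := Int.prime_three
      have e0 := cf_three (n := n 0) (Dt_three hNSQ u 0 i)
      have e1 := cf_three (n := n 1) (Dt_three hNSQ u 1 i)
      have e2 := cf_three (n := n 2) (Dt_three hNSQ u 2 i)
      simp only [hp.dvd_mul, e0, e1, e2, or_self, not_false_eq_true]
    rcases hBAS.tor (4 * s) hd T hT with hT0 | ⟨k, hk, hTk⟩
    · -- `T = 0`
      have hY : ∀ i, IsSquare
          ((cf (n 0) (Dt u 0 i) * cf (n 1) (Dt u 1 i) * cf (n 2) (Dt u 2 i) : ℤ) : ℚ) := by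
        intro i
        have h := hX i
        rw [hT0] at h
        have h' : del (4 * s) i (0 : Pt (4 * s)) = 1 := rfl
        rw [h', one_mul] at h
        exact h
      have hac := hNSQ.ac u hg.1 hg.2.1
      have hbc := hNSQ.bc u hg.1 hg.2.1
      have hab0 : 0 < fa u * fb u := mul_pos ha hb
      have hac0 : 0 < fa u * fc u := mul_pos ha hc
      have hbc0 : 0 < fb u * fc u := mul_pos hb hc
      have Y0 := hY 0
      have Y1 := hY 1
      simp only [Dt, Fin.isValue, Matrix.cons_val_zero, Matrix.cons_val_one, Matrix.cons_val] at Y0 Y1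
      rcases Int.even_or_odd (n 0) with n0 | n0 <;> rcases Int.even_or_odd (n 1) with n1 | n1 <;>
        rcases Int.even_or_odd (n 2) with n2 | n2
      · obtain ⟨i, hi⟩ := hn
        rw [← Int.not_even_iff_odd] at hi
        fin_cases i
        · exact hi n0
        · exact hi n1
        · exact hi n2
      · rw [cf_even _ n0, cf_even _ n1, cf_odd _ n2] at Y0
        exact neg_not_sq (by nlinarith) Y0
      · rw [cf_even _ n0, cf_odd _ n1, cf_even _ n2] at Y0
        exact neg_not_sq (by nlinarith) Y0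
      · rw [cf_even _ n0, cf_odd _ n1, cf_odd _ n2] at Y0
        apply hbc
        have hx : ((2 * fa u : ℤ) : ℚ) ≠ 0 := by
          have : (2 * fa u : ℤ) ≠ 0 := by omega
          exact_mod_cast this
        refine sq_cancel hx ?_
        convert Y0 using 1
        push_cast
        ring
      · rw [cf_odd _ n0, cf_even _ n1, cf_even _ n2] at Y1
        apply hac
        convert Y1 using 1
        push_cast
        ring
      · rw [cf_odd _ n0, cf_even _ n1, cf_odd _ n2] at Y0
        refine neg_not_sq ?_ Y0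
        have := mul_pos hbc0 hac0
        nlinarith
      · rw [cf_odd _ n0, cf_odd _ n1, cf_even _ n2] at Y0
        refine neg_not_sq ?_ Y0
        have := mul_pos hbc0 hab0
        nlinarith
      · rw [cf_odd _ n0, cf_odd _ n1, cf_odd _ n2] at Y1
        apply hac
        have hx : ((2 * (fb u * fc u) : ℤ) : ℚ) ≠ 0 := by
          have : (2 * (fb u * fc u) : ℤ) ≠ 0 := by omega
          exact_mod_cast this
        refine sq_cancel hx ?_
        convert Y1 using 1
        push_cast
        ring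
    · -- `T = (e_k, 0)`
      have hdq : ((4 * s : ℤ) : ℚ) ≠ 0 := by exact_mod_cast hd
      fin_cases k
      · have h := hX 1
        have h' : del (4 * s) 1 T = (((-1) * (4 * s) : ℤ) : ℚ) := by
          rw [hTk]
          have hne : ¬ (rt (4 * s) 0 = rt (4 * s) 1) := by
            simp only [rt, Matrix.cons_val_zero, Matrix.cons_val_one, Fin.isValue]
            exact fun h => hdq h.symm
          change (if rt (4 * s) 0 = rt (4 * s) 1 then dv (4 * s) 1 else rt (4 * s) 0 - rt (4 * s) 1) = _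
          rw [if_neg hne]
          simp only [rt, Matrix.cons_val_zero, Matrix.cons_val_one, Fin.isValue]
          push_cast
          ring
        rw [h'] at h
        exact not_sq hNSQ hg (hX3 1) (-1) (Or.inr rfl) h
      · have h := hX 0
        have h' : del (4 * s) 0 T = ((1 * (4 * s) : ℤ) : ℚ) := by
          rw [hTk]
          have hne : ¬ (rt (4 * s) 1 = rt (4 * s) 0) := by
            simp only [rt, Matrix.cons_val_zero, Matrix.cons_val_one, Fin.isValue]
            exact hdq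
          change (if rt (4 * s) 1 = rt (4 * s) 0 then dv (4 * s) 0 else rt (4 * s) 1 - rt (4 * s) 0) = _
          rw [if_neg hne]
          simp only [rt, Matrix.cons_val_zero, Matrix.cons_val_one, Fin.isValue]
          push_cast
          ring
        rw [h'] at h
        exact not_sq hNSQ hg (hX3 0) 1 (Or.inl rfl) h
      · have h := hX 0
        have h' : del (4 * s) 0 T = (((-1) * (4 * s) : ℤ) : ℚ) := by
          rw [hTk]
          have e2 : rt (4 * s) 2 = -((4 * s : ℤ) : ℚ) := rfl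
          have e0 : rt (4 * s) 0 = 0 := rfl
          have hne : ¬ (rt (4 * s) 2 = rt (4 * s) 0) := by
            rw [e2, e0]
            exact neg_ne_zero.2 hdq
          change (if rt (4 * s) 2 = rt (4 * s) 0 then dv (4 * s) 0 else rt (4 * s) 2 - rt (4 * s) 0) = _
          rw [if_neg hne, e2, e0]
          push_cast
          ring
        rw [h'] at h
        exact not_sq hNSQ hg (hX3 0) (-1) (Or.inr rfl) h
  have : Module.Finite ℤ (Pt (4 * s)) := Module.Finite.iff_addGroup_fg.2 hfg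
  have h := hli.fintype_card_le_finrank
  simpa using h

end Pool.Agent.Lib.MPad6874
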