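import Pool.Agent.Lib.MP_ad6874_nt.Spec2
import Pool.Agent.Lib.MP_ad6874_nt.IND

/-!
# MP_ad6874_nt, module IN2: the three points are independent (two variables; adapted from IND)
-/

set_option autoImplicit false

namespace Pool.Agent.Lib.MPad6874

namespace IN2M

open INDM

lemma eq_sq {x y : ℚ} (h : x = y) (hy : IsSquare y) : IsSquare x := h ▸ hy

/-- the table of the values of `δ` -/
def Dt2 (u v : ℤ) : Fin 3 → Fin 3 → ℤ :=
  ![![gb u v * gc u v, ga u v * gc u v, ga u v * gb u v],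
    ![-2 * (ga u v * gb u v), -2 * (gb u v * gc u v), ga u v * gc u v],
    ![-2 * (ga u v * gc u v), -2 * (gb u v * gc u v), ga u v * gb u v]]

lemma thr2 (hAR2 : SpecAR2) {u v : ℤ} (hpr : Pr u v) :
    ¬ (3 : ℤ) ∣ ga u v ∧ ¬ (3 : ℤ) ∣ gb u v ∧ ¬ (3 : ℤ) ∣ gc u v := by
  obtain ⟨ha, hb, hc⟩ := hAR2.thr u v hpr
  refine ⟨?_, ?_, ?_⟩ <;> intro h <;> omega

lemma Dt_three2 (hAR2 : SpecAR2) {u v : ℤ} (hpr : Pr u v) (j i : Fin 3) :
    ¬ (3 : ℤ) ∣ Dt2 u v j i := by
  obtain ⟨ha, hb, hc⟩ := thr2 hAR2 hpr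
  have h2 : ¬ (3 : ℤ) ∣ -2 := by norm_num
  have hp := Int.prime_three
  fin_cases j <;> fin_cases i <;>
    simp only [Dt2, Fin.isValue, Fin.zero_eta, Fin.mk_one, Fin.reduceFinMk, Matrix.cons_val] <;>
    simp only [hp.dvd_mul, ha, hb, hc, h2, or_self, not_false_eq_true]

lemma three_dvd2 (hAR2 : SpecAR2) {u v s : ℤ} (h : Good2 u v s) : (3 : ℤ) ∣ s ∧ ¬ (9 : ℤ) ∣ s := by
  obtain ⟨hpr, hsf, _, q, hq⟩ := h
  obtain ⟨ha, hb, hc⟩ := thr2 hAR2 hpr
  unfold gF at hq
  have hp := Int.prime_three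
  constructor
  · by_contra h3
    have h1 : (3 : ℤ) ∣ s * q ^ 2 := by
      rw [hq]
      exact ⟨2 * (ga u v * gb u v * gc u v), by ring⟩
    have h2 : (3 : ℤ) ∣ q := hp.dvd_of_dvd_pow ((hp.dvd_mul.1 h1).resolve_left h3)
    obtain ⟨r, rfl⟩ := h2
    have h4 : 3 * (s * r ^ 2) = 2 * (ga u v * gb u v * gc u v) := by linarith
    have h5 : (3 : ℤ) ∣ 2 * (ga u v * gb u v * gc u v) := ⟨_, h4.symm⟩
    have h6 : ¬ (3 : ℤ) ∣ 2 := by norm_num
    simp only [hp.dvd_mul, ha, hb, hc, h6, or_self] at h5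
  · intro h9
    have h1 : (3 : ℤ) * 3 ∣ s := by
      norm_num
      exact h9
    have := hsf 3 h1
    rw [Int.isUnit_iff] at this
    omega

lemma not_sq2 (hAR2 : SpecAR2) {u v s : ℤ} (h : Good2 u v s) {X : ℤ} (hX : ¬ (3 : ℤ) ∣ X) (e : ℤ)
    (he : e = 1 ∨ e = -1) : ¬ IsSquare (((e * (4 * s) : ℤ) : ℚ) * (X : ℚ)) := by
  intro hsq
  obtain ⟨h3, h9⟩ := three_dvd2 hAR2 h
  have hp := Int.prime_three
  have h1 : IsSquare (e * (4 * s) * X) := by
    rw [← Rat.isSquare_intCast_iff]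
    push_cast at hsq ⊢
    exact hsq
  obtain ⟨w, hw⟩ := h1
  obtain ⟨r, rfl⟩ := h3
  have h2 : (3 : ℤ) ∣ w * w := ⟨e * 4 * r * X, by rw [← hw]; ring⟩
  have h4 : (3 : ℤ) ∣ w := by
    rcases hp.dvd_mul.1 h2 with h | h <;> exact h
  obtain ⟨t, rfl⟩ := h4
  have h5 : e * 4 * r * X = 3 * (t * t) := by linarith
  have h6 : (3 : ℤ) ∣ e * 4 * r * X := ⟨_, h5⟩
  have h7 : ¬ (3 : ℤ) ∣ e := by
    rcases he with rfl | rfl <;> norm_num
  have h8 : ¬ (3 : ℤ) ∣ 4 := by norm_num
  have h10 : ¬ (3 : ℤ) ∣ r := by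
    intro hr
    apply h9
    obtain ⟨k, rfl⟩ := hr
    exact ⟨k, by ring⟩
  simp only [hp.dvd_mul, h7, h8, h10, hX, or_self] at h6


end IN2M

open INDM IN2M

/-- Module IN2: the rank is at least three. -/
theorem specIN2 (hBAS : SpecBAS) (hHOM : SpecHOM) (hINJ : SpecINJ) (hGRP : SpecGRP)
    (hAR2 : SpecAR2) (hPT2 : SpecPT2) : SpecIN2 := by
  intro u v s hg hfg
  have hs0 : 0 < s := hg.2.2.1
  have hp : Pr u v := hg.1
  have hd : (4 * s : ℤ) ≠ 0 := by omega
  obtain ⟨P, ⟨h00, h01, h02⟩, ⟨h10, h11, h12⟩, ⟨h20, h21, h22⟩⟩ := hPT2 u v s hg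
  have hP : ∀ j i, IsSquare (del (4 * s) i (P j) * ((Dt2 u v j i : ℤ) : ℚ)) := by
    intro j i
    fin_cases j <;> fin_cases i
    · exact h00
    · exact h01
    · exact h02
    · exact h10
    · exact h11
    · exact h12
    · exact h20
    · exact h21
    · exact h22
  obtain ⟨ha, hb1, hb2, hc⟩ := hAR2.pos u v hp
  have hb : 0 < gb u v := mul_pos hb1 hb2
  have hli : LinearIndependent ℤ P := by
    refine hGRP (Pt (4 * s)) P (hINJ.2 (4 * s) hd) ?_
    intro n hn T hT hsum
    -- the values of `δ` at `T`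
    have hX : ∀ i, IsSquare (del (4 * s) i T *
        ((cf (n 0) (Dt2 u v 0 i) * cf (n 1) (Dt2 u v 1 i) * cf (n 2) (Dt2 u v 2 i) : ℤ) : ℚ)) := by
      intro i
      have h0 : IsSquare (del (4 * s) i (0 : Pt (4 * s)) * ((1 : ℤ) : ℚ)) := by
        have : del (4 * s) i (0 : Pt (4 * s)) = 1 := rfl
        rw [this]
        exact ⟨1, by norm_num⟩
      have h1 := step hBAS hHOM hd i 0 (P 0) (n 0) 1 (Dt2 u v 0 i) h0 (hP 0 i)
      have h2 := step hBAS hHOM hd i _ (P 1) (n 1) _ (Dt2 u v 1 i) h1 (hP 1 i)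
      have h3 := step hBAS hHOM hd i _ (P 2) (n 2) _ (Dt2 u v 2 i) h2 (hP 2 i)
      rw [zero_add, one_mul] at h3
      rw [Fin.sum_univ_three] at hsum
      rw [hsum] at h3
      exact h3
    have hX3 : ∀ i, ¬ (3 : ℤ) ∣
        cf (n 0) (Dt2 u v 0 i) * cf (n 1) (Dt2 u v 1 i) * cf (n 2) (Dt2 u v 2 i) := by
      intro i
      have hp3 := Int.prime_three
      have e0 := cf_three (n := n 0) (Dt_three2 hAR2 hp 0 i)
      have e1 := cf_three (n := n 1) (Dt_three2 hAR2 hp 1 i)
      have e2 := cf_three (n := n 2) (Dt_three2 hAR2 hp 2 i)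
      simp only [hp3.dvd_mul, e0, e1, e2, or_self, not_false_eq_true]
    rcases hBAS.tor (4 * s) hd T hT with hT0 | ⟨k, hk, hTk⟩
    · -- `T = 0`
      have hY : ∀ i, IsSquare
          ((cf (n 0) (Dt2 u v 0 i) * cf (n 1) (Dt2 u v 1 i) * cf (n 2) (Dt2 u v 2 i) : ℤ) : ℚ) := by
        intro i
        have h := hX i
        rw [hT0] at h
        have h' : del (4 * s) i (0 : Pt (4 * s)) = 1 := rfl
        rw [h', one_mul] at h
        exact h
      have hac := hAR2.ac u v hp
      have hbc := hAR2.bc u v hp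
      have hab0 : 0 < ga u v * gb u v := mul_pos ha hb
      have hac0 : 0 < ga u v * gc u v := mul_pos ha hc
      have hbc0 : 0 < gb u v * gc u v := mul_pos hb hc
      have Y0 := hY 0
      have Y1 := hY 1
      simp only [Dt2, Fin.isValue, Matrix.cons_val_zero, Matrix.cons_val_one, Matrix.cons_val] at Y0 Y1
      rcases Int.even_or_odd (n 0) with n0 | n0 <;> rcases Int.even_or_odd (n 1) with n1 | n1 <;>
        rcases Int.even_or_odd (n 2) with n2 | n2
      · obtain ⟨i, hi⟩ := hn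
        rw [← Int.not_even_iff_odd] at hi
        fin_cases i
        · exact hi n0
        · exact hi n1
        · exact hi n2
      · rw [cf_even _ n0, cf_even _ n1, cf_odd _ n2] at Y0
        exact neg_not_sq (by nlinarith) Y0
      · rw [cf_even _ n0, cf_odd _ n1, cf_even _ n2] at Y0
        exact neg_not_sq (by nlinarith) Y0
      · rw [cf_even _ n0, cf_odd _ n1, cf_odd _ n2] at Y0
        apply hbc
        have hx : ((2 * ga u v : ℤ) : ℚ) ≠ 0 := by
          have : (2 * ga u v : ℤ) ≠ 0 := by omega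
          exact_mod_cast this
        refine sq_cancel hx ?_
        refine eq_sq ?_ Y0
        push_cast
        ring
      · rw [cf_odd _ n0, cf_even _ n1, cf_even _ n2] at Y1
        apply hac
        refine eq_sq ?_ Y1
        push_cast
        ring
      · rw [cf_odd _ n0, cf_even _ n1, cf_odd _ n2] at Y0
        refine neg_not_sq ?_ Y0
        have := mul_pos hbc0 hac0
        nlinarith
      · rw [cf_odd _ n0, cf_odd _ n1, cf_even _ n2] at Y0
        refine neg_not_sq ?_ Y0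
        have := mul_pos hbc0 hab0
        nlinarith
      · rw [cf_odd _ n0, cf_odd _ n1, cf_odd _ n2] at Y1
        apply hac
        have hx : ((2 * (gb u v * gc u v) : ℤ) : ℚ) ≠ 0 := by
          have : (2 * (gb u v * gc u v) : ℤ) ≠ 0 := by omega
          exact_mod_cast this
        refine sq_cancel hx ?_
        refine eq_sq ?_ Y1
        push_cast
        ring
    · -- `T = (e_k, 0)`
      have hdq : ((4 * s : ℤ) : ℚ) ≠ 0 := by exact_mod_cast hd
      fin_cases k
      · have h := hX 1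
        have h' : del (4 * s) 1 T = (((-1) * (4 * s) : ℤ) : ℚ) := by
          rw [hTk]
          have hne : ¬ (rt (4 * s) 0 = rt (4 * s) 1) := by
            simp only [rt, Matrix.cons_val_zero, Matrix.cons_val_one, Fin.isValue]
            exact fun h => hdq h.symm
          change (if rt (4 * s) 0 = rt (4 * s) 1 then dv (4 * s) 1 else rt (4 * s) 0 - rt (4 * s) 1) = _
          rw [if_neg hne]
          simp only [rt, Matrix.cons_val_zero, Matrix.cons_val_one, Fin.isValue]
          push_cast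
          ring
        rw [h'] at h
        exact not_sq2 hAR2 hg (hX3 1) (-1) (Or.inr rfl) h
      · have h := hX 0
        have h' : del (4 * s) 0 T = ((1 * (4 * s) : ℤ) : ℚ) := by
          rw [hTk]
          have hne : ¬ (rt (4 * s) 1 = rt (4 * s) 0) := by
            simp only [rt, Matrix.cons_val_zero, Matrix.cons_val_one, Fin.isValue]
            exact hdq
          change (if rt (4 * s) 1 = rt (4 * s) 0 then dv (4 * s) 0 else rt (4 * s) 1 - rt (4 * s) 0) = _
          rw [if_neg hne]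
          simp only [rt, Matrix.cons_val_zero, Matrix.cons_val_one, Fin.isValue]
          push_cast
          ring
        rw [h'] at h
        exact not_sq2 hAR2 hg (hX3 0) 1 (Or.inl rfl) h
      · have h := hX 0
        have h' : del (4 * s) 0 T = (((-1) * (4 * s) : ℤ) : ℚ) := by
          rw [hTk]
          have e2 : rt (4 * s) 2 = -((4 * s : ℤ) : ℚ) := rfl
          have e0 : rt (4 * s) 0 = 0 := rfl
          have hne : ¬ (rt (4 * s) 2 = rt (4 * s) 0) := by
            rw [e2, e0]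
            exact neg_ne_zero.2 hdq
          change (if rt (4 * s) 2 = rt (4 * s) 0 then dv (4 * s) 0 else rt (4 * s) 2 - rt (4 * s) 0) = _
          rw [if_neg hne, e2, e0]
          push_cast
          ring
        rw [h'] at h
        exact not_sq2 hAR2 hg (hX3 0) (-1) (Or.inr rfl) h
  have : Module.Finite ℤ (Pt (4 * s)) := Module.Finite.iff_addGroup_fg.2 hfg
  have h := hli.fintype_card_le_finrank
  simpa using h

end Pool.Agent.Lib.MPad6874
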