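import Pool.Agent.Lib.MP_ad6874_nt.Spec3
import Pool.Agent.Lib.MP_ad6874_nt.IN2

/-!
# MP_ad6874_nt, module IN3: the three points are independent (on cur D, D = s times a square; adapted from IN2)
-/

set_option autoImplicit false

namespace Pool.Agent.Lib.MPad6874

namespace IN3M

open INDM IN2M

lemma sim_ne {D s : ℤ} (hs : s ≠ 0) (h : Sim D s) : D ≠ 0 := by
  obtain ⟨l, hl, h⟩ := h
  rintro rfl
  have h1 : (s : ℚ) * l ^ 2 = 0 := by rw [← h]; norm_num
  have h2 : (s : ℚ) ≠ 0 := by exact_mod_cast hs
  exact (mul_ne_zero h2 (pow_ne_zero 2 hl)) h1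

lemma not_sq3 (hAR2 : SpecAR2) {u v s D : ℤ} (h : Good2 u v s) (hD : Sim D s) {X : ℤ}
    (hX : ¬ (3 : ℤ) ∣ X) (e : ℤ) (he : e = 1 ∨ e = -1) :
    ¬ IsSquare (((e * D : ℤ) : ℚ) * (X : ℚ)) := by
  rintro ⟨w, hw⟩
  obtain ⟨l, hl, hDl⟩ := hD
  refine not_sq2 hAR2 h hX e he ⟨2 * w / l, ?_⟩
  have h1 : (2 * w / l) * (2 * w / l) = 4 * (w * w) / l ^ 2 := by
    field_simp
    ring
  rw [h1, ← hw]
  push_cast
  rw [hDl]
  field_simp

end IN3M

open INDM IN2M IN3M

/-- Module IN3: the rank is at least three. -/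
theorem specIN3 (hBAS : SpecBAS) (hHOM : SpecHOM) (hINJ : SpecINJ) (hGRP : SpecGRP)
    (hAR2 : SpecAR2) (hPT3 : SpecPT3) : SpecIN3 := by
  intro u v s D hg hD hfg
  have hs0 : 0 < s := hg.2.2.1
  have hp : Pr u v := hg.1
  have hd : D ≠ 0 := sim_ne hs0.ne' hD
  obtain ⟨P, ⟨h00, h01, h02⟩, ⟨h10, h11, h12⟩, ⟨h20, h21, h22⟩⟩ := hPT3 u v s D hg hD
  have hP : ∀ j i, IsSquare (del D i (P j) * ((Dt2 u v j i : ℤ) : ℚ)) := by
    intro j i
    fin_cases j <;> fin_cases i
    · exact h00
    · exact h01
    · exact h02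
    · exact h10
    · exact h11
    · exact h12
    · exact h20
    · exact h21
    · exact h22
  obtain ⟨ha, hb1, hb2, hc⟩ := hAR2.pos u v hp
  have hb : 0 < gb u v := mul_pos hb1 hb2
  have hli : LinearIndependent ℤ P := by
    refine hGRP (Pt D) P (hINJ.2 D hd) ?_
    intro n hn T hT hsum
    -- the values of `δ` at `T`
    have hX : ∀ i, IsSquare (del D i T *
        ((cf (n 0) (Dt2 u v 0 i) * cf (n 1) (Dt2 u v 1 i) * cf (n 2) (Dt2 u v 2 i) : ℤ) : ℚ)) := by
      intro i
      have h0 : IsSquare (del D i (0 : Pt D) * ((1 : ℤ) : ℚ)) := by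
        have : del D i (0 : Pt D) = 1 := rfl
        rw [this]
        exact ⟨1, by norm_num⟩
      have h1 := step hBAS hHOM hd i 0 (P 0) (n 0) 1 (Dt2 u v 0 i) h0 (hP 0 i)
      have h2 := step hBAS hHOM hd i _ (P 1) (n 1) _ (Dt2 u v 1 i) h1 (hP 1 i)
      have h3 := step hBAS hHOM hd i _ (P 2) (n 2) _ (Dt2 u v 2 i) h2 (hP 2 i)
      rw [zero_add, one_mul] at h3
      rw [Fin.sum_univ_three] at hsum
      rw [hsum] at h3
      exact h3
    have hX3 : ∀ i, ¬ (3 : ℤ) ∣
        cf (n 0) (Dt2 u v 0 i) * cf (n 1) (Dt2 u v 1 i) * cf (n 2) (Dt2 u v 2 i) := by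
      intro i
      have hp3 := Int.prime_three
      have e0 := cf_three (n := n 0) (Dt_three2 hAR2 hp 0 i)
      have e1 := cf_three (n := n 1) (Dt_three2 hAR2 hp 1 i)
      have e2 := cf_three (n := n 2) (Dt_three2 hAR2 hp 2 i)
      simp only [hp3.dvd_mul, e0, e1, e2, or_self, not_false_eq_true]
    rcases hBAS.tor D hd T hT with hT0 | ⟨k, hk, hTk⟩
    · -- `T = 0`
      have hY : ∀ i, IsSquare
          ((cf (n 0) (Dt2 u v 0 i) * cf (n 1) (Dt2 u v 1 i) * cf (n 2) (Dt2 u v 2 i) : ℤ) : ℚ) := by
        intro i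
        have h := hX i
        rw [hT0] at h
        have h' : del D i (0 : Pt D) = 1 := rfl
        rw [h', one_mul] at h
        exact h
      have hac := hAR2.ac u v hp
      have hbc := hAR2.bc u v hp
      have hab0 : 0 < ga u v * gb u v := mul_pos ha hb
      have hac0 : 0 < ga u v * gc u v := mul_pos ha hc
      have hbc0 : 0 < gb u v * gc u v := mul_pos hb hc
      have Y0 := hY 0
      have Y1 := hY 1
      simp only [Dt2, Fin.isValue, Matrix.cons_val_zero, Matrix.cons_val_one, Matrix.cons_val] at Y0 Y1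
      rcases Int.even_or_odd (n 0) with n0 | n0 <;> rcases Int.even_or_odd (n 1) with n1 | n1 <;>
        rcases Int.even_or_odd (n 2) with n2 | n2
      · obtain ⟨i, hi⟩ := hn
        rw [← Int.not_even_iff_odd] at hi
        fin_cases i
        · exact hi n0
        · exact hi n1
        · exact hi n2
      · rw [cf_even _ n0, cf_even _ n1, cf_odd _ n2] at Y0
        exact neg_not_sq (by nlinarith) Y0
      · rw [cf_even _ n0, cf_odd _ n1, cf_even _ n2] at Y0
        exact neg_not_sq (by nlinarith) Y0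
      · rw [cf_even _ n0, cf_odd _ n1, cf_odd _ n2] at Y0
        apply hbc
        have hx : ((2 * ga u v : ℤ) : ℚ) ≠ 0 := by
          have : (2 * ga u v : ℤ) ≠ 0 := by omega
          exact_mod_cast this
        refine sq_cancel hx ?_
        refine eq_sq ?_ Y0
        push_cast
        ring
      · rw [cf_odd _ n0, cf_even _ n1, cf_even _ n2] at Y1
        apply hac
        refine eq_sq ?_ Y1
        push_cast
        ring
      · rw [cf_odd _ n0, cf_even _ n1, cf_odd _ n2] at Y0
        refine neg_not_sq ?_ Y0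
        have := mul_pos hbc0 hac0
        nlinarith
      · rw [cf_odd _ n0, cf_odd _ n1, cf_even _ n2] at Y0
        refine neg_not_sq ?_ Y0
        have := mul_pos hbc0 hab0
        nlinarith
      · rw [cf_odd _ n0, cf_odd _ n1, cf_odd _ n2] at Y1
        apply hac
        have hx : ((2 * (gb u v * gc u v) : ℤ) : ℚ) ≠ 0 := by
          have : (2 * (gb u v * gc u v) : ℤ) ≠ 0 := by omega
          exact_mod_cast this
        refine sq_cancel hx ?_
        refine eq_sq ?_ Y1
        push_cast
        ring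
    · -- `T = (e_k, 0)`
      have hdq : (D : ℚ) ≠ 0 := by exact_mod_cast hd
      fin_cases k
      · have h := hX 1
        have h' : del D 1 T = (((-1) * D : ℤ) : ℚ) := by
          rw [hTk]
          have hne : ¬ (rt D 0 = rt D 1) := by
            simp only [rt, Matrix.cons_val_zero, Matrix.cons_val_one, Fin.isValue]
            exact fun h => hdq h.symm
          change (if rt D 0 = rt D 1 then dv D 1 else rt D 0 - rt D 1) = _
          rw [if_neg hne]
          simp only [rt, Matrix.cons_val_zero, Matrix.cons_val_one, Fin.isValue]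
          push_cast
          ring
        rw [h'] at h
        exact not_sq3 hAR2 hg hD (hX3 1) (-1) (Or.inr rfl) h
      · have h := hX 0
        have h' : del D 0 T = ((1 * D : ℤ) : ℚ) := by
          rw [hTk]
          have hne : ¬ (rt D 1 = rt D 0) := by
            simp only [rt, Matrix.cons_val_zero, Matrix.cons_val_one, Fin.isValue]
            exact hdq
          change (if rt D 1 = rt D 0 then dv D 0 else rt D 1 - rt D 0) = _
          rw [if_neg hne]
          simp only [rt, Matrix.cons_val_zero, Matrix.cons_val_one, Fin.isValue]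
          push_cast
          ring
        rw [h'] at h
        exact not_sq3 hAR2 hg hD (hX3 0) 1 (Or.inl rfl) h
      · have h := hX 0
        have h' : del D 0 T = (((-1) * D : ℤ) : ℚ) := by
          rw [hTk]
          have e2 : rt D 2 = -(D : ℚ) := rfl
          have e0 : rt D 0 = 0 := rfl
          have hne : ¬ (rt D 2 = rt D 0) := by
            rw [e2, e0]
            exact neg_ne_zero.2 hdq
          change (if rt D 2 = rt D 0 then dv D 0 else rt D 2 - rt D 0) = _
          rw [if_neg hne, e2, e0]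
          push_cast
          ring
        rw [h'] at h
        exact not_sq3 hAR2 hg hD (hX3 0) (-1) (Or.inr rfl) h
  have : Module.Finite ℤ (Pt D) := Module.Finite.iff_addGroup_fg.2 hfg
  have h := hli.fintype_card_le_finrank
  simpa using h

end Pool.Agent.Lib.MPad6874
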