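import Pool.Agent.Lib.MP_ad6874_nt.Spec

/-!
# Module INJ (MP_ad6874_nt): halving, and the 4-torsion (helper92)
-/

set_option autoImplicit false

namespace Pool.Agent.Lib.MPad6874

namespace INJM

open WeierstrassCurve.Affine

lemma del_some (d : ℤ) (i : Fin 3) (x y : ℚ) (h : (cur d).Nonsingular x y) :
    del d i (Point.some x y h) = if x = rt d i then dv d i else x - rt d i := rfl

lemma negY_eq (d : ℤ) (x y : ℚ) : (cur d).negY x y = -y := by
  simp only [negY, cur]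
  ring

lemma ne_negY {d : ℤ} {x y : ℚ} (hy : y ≠ 0) : y ≠ (cur d).negY x y := by
  rw [negY_eq]
  intro h
  apply hy
  linarith

/-- doubling with a given slope -/
lemma dbl_slope {d : ℤ} {x y l x' y' : ℚ} (h : (cur d).Nonsingular x y)
    (hy : y ≠ 0) (hl : l * (2 * y) = 3 * x ^ 2 - (d : ℚ) ^ 2) (hx' : x' = l ^ 2 - 2 * x)
    (hy' : y' = -(y + l * (x' - x))) :
    ∃ h' : (cur d).Nonsingular x' y', (2 : ℕ) • (Point.some x y h : Pt d) = Point.some x' y' h' := by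
  have hn : y ≠ (cur d).negY x y := ne_negY hy
  have e1 : (cur d).slope x x y y = l := by
    rw [slope_of_Y_ne rfl hn, negY_eq]
    simp only [cur]
    have e : y - -y = 2 * y := by ring
    have h2 : (2 : ℚ) * y ≠ 0 := mul_ne_zero two_ne_zero hy
    rw [e, div_eq_iff h2, hl]
    ring
  have e2 : (cur d).addX x x l = x' := by
    simp only [addX, cur]
    rw [hx']
    ring
  have e3 : (cur d).addY x x y l = y' := by
    rw [addY, negY_eq, negAddY, e2, hy']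
    ring
  have h4 := nonsingular_add h h (fun hxy => hn hxy.right)
  have h5 : (cur d).Nonsingular x' y' := by
    rw [e1, e2, e3] at h4
    exact h4
  refine ⟨h5, ?_⟩
  rw [two_nsmul, Point.add_self_of_Y_ne hn]
  simp only [Point.some.injEq]
  rw [e1, e2, e3]
  exact ⟨rfl, rfl⟩

/-- the value `y(2Q)` -/
lemma half_aux (hBAS : SpecBAS) {d : ℤ} (hd : d ≠ 0) {x r0 r1 r2 : ℚ} (h0 : x = r0 ^ 2)
    (h1 : x - d = r1 ^ 2) (h2 : x + d = r2 ^ 2) :
    ∃ (Q : Pt d) (hn : (cur d).Nonsingular x (r0 * r1 * r2)),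
      (2 : ℕ) • Q = Point.some _ _ hn := by
  have hd' : (d : ℚ) ≠ 0 := by exact_mod_cast hd
  have n01 : r0 + r1 ≠ 0 := by
    intro h3
    apply hd'
    linear_combination h0 - h1 + (r0 - r1) * h3
  have n02 : r0 + r2 ≠ 0 := by
    intro h3
    apply hd'
    linear_combination h2 - h0 + (r2 - r0) * h3
  have n12 : r1 + r2 ≠ 0 := by
    intro h3
    apply hd'
    linear_combination (h2 - h1 + (r2 - r1) * h3) / 2
  obtain ⟨X, hX⟩ : ∃ X : ℚ, X = x + r0 * r1 + r0 * r2 + r1 * r2 := ⟨_, rfl⟩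
  obtain ⟨Y, hY⟩ : ∃ Y : ℚ, Y = (r0 + r1) * (r0 + r2) * (r1 + r2) := ⟨_, rfl⟩
  have hY0 : Y ≠ 0 := by
    rw [hY]
    exact mul_ne_zero (mul_ne_zero n01 n02) n12
  have X0 : X = (r0 + r1) * (r0 + r2) := by
    rw [hX]
    linear_combination h0
  have X1 : X - d = (r0 + r1) * (r1 + r2) := by
    rw [hX]
    linear_combination h1
  have X2 : X + d = (r0 + r2) * (r1 + r2) := by
    rw [hX]
    linear_combination h2
  have heq : Y ^ 2 = X ^ 3 - (d : ℚ) ^ 2 * X := by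
    have e : X ^ 3 - (d : ℚ) ^ 2 * X = X * (X - d) * (X + d) := by ring
    rw [e, X1, X2, X0, hY]
    ring
  have hl : (r0 + r1 + r2) * (2 * Y) = 3 * X ^ 2 - (d : ℚ) ^ 2 := by
    have e : 3 * X ^ 2 - (d : ℚ) ^ 2 = X * (X - d) + X * (X + d) + (X - d) * (X + d) := by ring
    rw [e, X1, X2, X0, hY]
    ring
  have hN := hBAS.nons d X Y hd heq
  obtain ⟨hn, hdd⟩ := dbl_slope (l := r0 + r1 + r2) (x' := x) (y' := r0 * r1 * r2) hN hY0 hl
    (by
      rw [hX]
      linear_combination (h0 + h1 + h2))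
    (by
      rw [hY, hX]
      ring)
  exact ⟨_, hn, hdd⟩

lemma not_sq_neg {d : ℤ} (hd : d ≠ 0) : ¬ IsSquare (-(d : ℚ) ^ 2) := by
  rintro ⟨r, hr⟩
  have hd' : (d : ℚ) ≠ 0 := by exact_mod_cast hd
  have h1 : 0 < (d : ℚ) ^ 2 := by positivity
  nlinarith [mul_self_nonneg r]

lemma not_sq_two {d : ℤ} (hd : d ≠ 0) : ¬ IsSquare (2 * (d : ℚ) ^ 2) := by
  rintro ⟨r, hr⟩
  have hd' : (d : ℚ) ≠ 0 := by exact_mod_cast hd
  have h2 : IsSquare (2 : ℚ) := by
    refine ⟨r / d, ?_⟩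
    field_simp
    linear_combination hr
  have h3 : IsSquare (2 : ℕ) := by
    have : ((2 : ℕ) : ℚ) = 2 := by norm_num
    rw [← this] at h2
    exact Rat.isSquare_natCast_iff.1 h2
  obtain ⟨k, hk⟩ := h3
  have : k < 2 := by nlinarith
  interval_cases k <;> omega

lemma dv_not_sq {d : ℤ} (hd : d ≠ 0) (i : Fin 3) : ¬ IsSquare (dv d i) := by
  fin_cases i
  · exact not_sq_neg hd
  · exact not_sq_two hd
  · exact not_sq_two hd

lemma part1 (hBAS : SpecBAS) {d : ℤ} (hd : d ≠ 0) (P : Pt d) (hP : ∀ i, IsSquare (del d i P)) :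
    ∃ Q : Pt d, (2 : ℕ) • Q = P := by
  rcases P with _ | ⟨x, y, h⟩
  · exact ⟨0, nsmul_zero 2⟩
  · have hs : ∀ i, ∃ r : ℚ, x - rt d i = r ^ 2 := by
      intro i
      have h1 := hP i
      rw [del_some] at h1
      split_ifs at h1 with h2
      · exact absurd h1 (dv_not_sq hd i)
      · obtain ⟨r, hr⟩ := h1
        exact ⟨r, by rw [hr]; ring⟩
    obtain ⟨r0, h0⟩ := hs 0
    obtain ⟨r1, h1⟩ := hs 1
    obtain ⟨r2, h2⟩ := hs 2
    have g0 : x = r0 ^ 2 := by
      rw [← h0]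
      simp [rt]
    have g1 : x - d = r1 ^ 2 := by
      rw [← h1]
      simp [rt]
    have g2 : x + d = r2 ^ 2 := by
      rw [← h2]
      simp [rt]
    have he := (hBAS.eqn d x y).1 h.1
    have hy : y ^ 2 = (r0 * r1 * r2) ^ 2 := by
      have e : x ^ 3 - (d : ℚ) ^ 2 * x = x * (x - d) * (x + d) := by ring
      rw [he, e, g1, g2]
      rw [g0]
      ring
    rcases sq_eq_sq_iff_eq_or_eq_neg.1 hy with hy' | hy'
    · obtain ⟨Q, hn, hQ⟩ := half_aux hBAS hd g0 g1 g2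
      refine ⟨Q, ?_⟩
      rw [hQ]
      simp only [Point.some.injEq]
      exact ⟨trivial, hy'.symm⟩
    · have g0' : x = (-r0) ^ 2 := by rw [neg_sq]; exact g0
      obtain ⟨Q, hn, hQ⟩ := half_aux hBAS hd g0' g1 g2
      refine ⟨Q, ?_⟩
      rw [hQ]
      simp only [Point.some.injEq]
      refine ⟨trivial, ?_⟩
      rw [hy']
      ring

lemma part2 (hBAS : SpecBAS) (hHOM : SpecHOM) {d : ℤ} (hd : d ≠ 0) (T : Pt d)
    (hT : (4 : ℕ) • T = 0) : (2 : ℕ) • T = 0 := by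
  have h2 : (2 : ℕ) • ((2 : ℕ) • T) = 0 := by
    rw [← mul_nsmul]
    exact hT
  rcases hBAS.tor d hd _ h2 with h3 | ⟨i, h, h3⟩
  · exact h3
  · exfalso
    have h4 := hHOM d hd i T T
    rw [← two_nsmul, h3, del_some, if_pos rfl] at h4
    obtain ⟨r, hr⟩ := h4
    have h5 := hBAS.nz d hd i T
    apply dv_not_sq hd i
    refine ⟨r / del d i T, ?_⟩
    field_simp
    linear_combination hr

end INJM

theorem specINJ (hBAS : SpecBAS) (hHOM : SpecHOM) : SpecINJ :=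
  ⟨fun _ hd P hP => INJM.part1 hBAS hd P hP, fun _ hd T hT => INJM.part2 hBAS hHOM hd T hT⟩

end Pool.Agent.Lib.MPad6874
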