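import Pool.Agent.Lib.MP_ad6874_nt.Spec

/-!
# MWR: Mordell's theorem for the twists, from IDX, HGT, RNK
-/

set_option autoImplicit false

namespace Pool.Agent.Lib.MPad6874

theorem specMWR (hIDX : SpecIDX) (hHGT : SpecHGT) (hRNK : SpecRNK) : SpecMWR := by
  intro d hd
  obtain ⟨hfi, hle⟩ := hIDX d hd
  obtain ⟨h, C, h0, hpar, hfin⟩ := hHGT d hd
  have hN : Northcott h := ⟨hfin⟩
  have hFG : AddGroup.FG (Pt d) := AddCommGroup.fg_of_descent' hfi h0 hpar
  exact ⟨hFG, hRNK (Pt d) _ hFG hfi hle⟩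

end Pool.Agent.Lib.MPad6874
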