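import Pool.Agent.Lib.MP_ad6874_nt.Spec2

/-!
# MP_ad6874_nt: pairs for which `p²` divides `gp` or `gq` (PB2)
-/

set_option autoImplicit false

namespace Pool.Agent.Lib.MPad6874

namespace PB2M

theorem u_pos (Y y : ℕ) : 0 < uY Y y := by
  unfold uY
  positivity

theorem v_pos (w : ℕ) : 0 < vW w := by
  unfold vW
  positivity

theorem u_le {Y : ℕ} (hY : 1 ≤ Y) {y : ℕ} (hy : y ≤ Y) : uY Y y ≤ 26 * (Y : ℤ) := by
  unfold uY
  have h1 : (y : ℤ) ≤ Y := by exact_mod_cast hy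
  have h2 : (1 : ℤ) ≤ Y := by exact_mod_cast hY
  linarith

theorem three_v_le {Y : ℕ} {y w : ℕ} (hy : 1 ≤ y) (hw : w ≤ Y) : 3 * vW w ≤ uY Y y := by
  unfold uY vW
  have h1 : (w : ℤ) ≤ Y := by exact_mod_cast hw
  have h2 : (1 : ℤ) ≤ y := by exact_mod_cast hy
  linarith

/-- coprime pairs with the same slope are equal -/
theorem eq_of_slope {u1 v1 u2 v2 : ℤ} (hu1 : 0 < u1) (hu2 : 0 < u2) (h1 : IsCoprime u1 v1)
    (h2 : IsCoprime u2 v2) (h : u1 * v2 = u2 * v1) : u1 = u2 ∧ v1 = v2 := by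
  have h3 : u1 ∣ u2 := by
    have : u1 ∣ u2 * v1 := ⟨v2, h.symm⟩
    exact h1.dvd_of_dvd_mul_right this
  have h4 : u2 ∣ u1 := by
    have : u2 ∣ u1 * v2 := ⟨v1, h⟩
    exact h2.dvd_of_dvd_mul_right this
  have h5 : u1 = u2 := Int.dvd_antisymm hu1.le hu2.le h3 h4
  refine ⟨h5, ?_⟩
  subst h5
  exact (mul_left_cancel₀ hu1.ne' h).symm

theorem pair_eq {Y : ℕ} {t1 t2 : ℕ × ℕ} (h1 : uY Y t1.1 = uY Y t2.1) (h2 : vW t1.2 = vW t2.2) :
    t1 = t2 := by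
  unfold uY at h1
  unfold vW at h2
  apply Prod.ext
  · have : (t1.1 : ℤ) = t2.1 := by linarith
    exact_mod_cast this
  · have : (t1.2 : ℤ) = t2.2 := by linarith
    exact_mod_cast this

/-- one class -/
theorem class_bound (hSP2 : SpecSP2) (Y p : ℕ) (hY : 1 ≤ Y) (hp : 0 < p) (T : Finset (ℕ × ℕ))
    (hT : ∀ t ∈ T, Box Y t ∧ IsCoprime (uY Y t.1) (vW t.2))
    (hD : ∀ t1 ∈ T, ∀ t2 ∈ T, (p : ℤ) ^ 2 ∣ uY Y t1.1 * vW t2.2 - uY Y t2.1 * vW t1.2) :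
    (T.card : ℝ) ≤ 226 * (Y : ℝ) ^ 2 / (p : ℝ) ^ 2 + 1 := by
  classical
  have hY0 : (0 : ℝ) < Y := by exact_mod_cast hY
  have hp0 : (0 : ℝ) < p := by exact_mod_cast hp
  obtain ⟨f, hf⟩ : ∃ f : ℕ × ℕ → ℝ, f = fun t => (vW t.2 : ℝ) / (uY Y t.1 : ℝ) := ⟨_, rfl⟩
  have hf' : ∀ t, f t = (vW t.2 : ℝ) / (uY Y t.1 : ℝ) := fun t => by rw [hf]
  have hu0 : ∀ t : ℕ × ℕ, (0 : ℝ) < (uY Y t.1 : ℝ) := fun t => by exact_mod_cast u_pos Y t.1
  have hdiff : ∀ t1 t2 : ℕ × ℕ, f t1 - f t2 =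
      -((uY Y t1.1 * vW t2.2 - uY Y t2.1 * vW t1.2 : ℤ) : ℝ) / ((uY Y t1.1 : ℝ) * uY Y t2.1) := by
    intro t1 t2
    rw [hf', hf', div_sub_div _ _ (hu0 t1).ne' (hu0 t2).ne']
    push_cast
    congr 1
    ring
  have hinj : Set.InjOn f T := by
    intro t1 ht1 t2 ht2 h
    have h1 := hdiff t1 t2
    rw [h, sub_self] at h1
    have h2 : ((uY Y t1.1 * vW t2.2 - uY Y t2.1 * vW t1.2 : ℤ) : ℝ) = 0 := by
      have h3 := (div_eq_zero_iff.1 h1.symm).resolve_right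
        (mul_pos (hu0 t1) (hu0 t2)).ne'
      linarith
    have h3 : uY Y t1.1 * vW t2.2 - uY Y t2.1 * vW t1.2 = 0 := by exact_mod_cast h2
    obtain ⟨h4, h5⟩ := eq_of_slope (u_pos Y t1.1) (u_pos Y t2.1) (hT t1 ht1).2 (hT t2 ht2).2
      (sub_eq_zero.1 h3)
    exact pair_eq h4 h5
  have hcard : (T.image f).card = T.card := Finset.card_image_of_injOn hinj
  have h26 : (0 : ℝ) < (26 * Y) ^ 2 := by positivity
  have hS := hSP2 (T.image f) ((p : ℝ) ^ 2 / (26 * Y) ^ 2) (1 / 3) (by positivity) (by norm_num)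
    (by
      intro x hx
      obtain ⟨t, ht, rfl⟩ := Finset.mem_image.1 hx
      have hb := (hT t ht).1
      rw [hf']
      refine ⟨div_nonneg (by exact_mod_cast (v_pos t.2).le) (hu0 t).le, ?_⟩
      rw [div_le_div_iff₀ (hu0 t) (by norm_num)]
      have h1 : (3 * vW t.2 : ℤ) ≤ uY Y t.1 := three_v_le hb.1 hb.2.2.2
      have h2 : ((3 * vW t.2 : ℤ) : ℝ) ≤ (uY Y t.1 : ℝ) := by exact_mod_cast h1
      push_cast at h2
      linarith)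
    (by
      intro x hx y hy hxy
      obtain ⟨t1, ht1, rfl⟩ := Finset.mem_image.1 hx
      obtain ⟨t2, ht2, rfl⟩ := Finset.mem_image.1 hy
      rw [hdiff, abs_div, abs_neg, abs_of_pos (mul_pos (hu0 t1) (hu0 t2))]
      have hne : uY Y t1.1 * vW t2.2 - uY Y t2.1 * vW t1.2 ≠ 0 := by
        intro h0
        apply hxy
        have h1 := hdiff t1 t2
        rw [h0] at h1
        simp only [Int.cast_zero, neg_zero, zero_div] at h1
        linarith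
      have hle : (p : ℤ) ^ 2 ≤ |uY Y t1.1 * vW t2.2 - uY Y t2.1 * vW t1.2| :=
        Int.le_of_dvd (abs_pos.2 hne) ((dvd_abs _ _).2 (hD t1 ht1 t2 ht2))
      have hle' : (p : ℝ) ^ 2 ≤ |((uY Y t1.1 * vW t2.2 - uY Y t2.1 * vW t1.2 : ℤ) : ℝ)| := by
        exact_mod_cast hle
      have hu1 : (uY Y t1.1 : ℝ) ≤ 26 * Y := by
        exact_mod_cast u_le hY (hT t1 ht1).1.2.1
      have hu2 : (uY Y t2.1 : ℝ) ≤ 26 * Y := by
        exact_mod_cast u_le hY (hT t2 ht2).1.2.1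
      have hmul : (uY Y t1.1 : ℝ) * uY Y t2.1 ≤ (26 * Y) ^ 2 := by
        rw [sq]
        exact mul_le_mul hu1 hu2 (hu0 t2).le (by positivity)
      exact div_le_div₀ (abs_nonneg _) hle' (mul_pos (hu0 t1) (hu0 t2)) hmul)
  rw [hcard] at hS
  refine hS.trans ?_
  have h1 : (1 / 3 : ℝ) / ((p : ℝ) ^ 2 / (26 * Y) ^ 2) = (676 / 3) * Y ^ 2 / p ^ 2 := by
    field_simp
    norm_num
  rw [h1]
  have h2 : (676 / 3 : ℝ) * Y ^ 2 / p ^ 2 ≤ 226 * Y ^ 2 / p ^ 2 := by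
    gcongr
    norm_num
  linarith

/-- both forms at once: `e = 1` is `gp`, `e = -1` is `gq`. -/
theorem both (hSP2 : SpecSP2) (Y p : ℕ) (hY : 1 ≤ Y) (hp : p.Prime) (hp5 : 5 ≤ p) (e : ℤ)
    (he : e ^ 2 = 1) :
    (({t : ℕ × ℕ | Box Y t ∧ IsCoprime (uY Y t.1) (vW t.2) ∧
      (p : ℤ) ^ 2 ∣ (uY Y t.1) ^ 2 - 2 * e * (uY Y t.1) * vW t.2 - (vW t.2) ^ 2}.ncard : ℕ) : ℝ) ≤
      500 * (Y : ℝ) ^ 2 / (p : ℝ) ^ 2 + 2 := by
  classical
  obtain ⟨A, hA⟩ : ∃ A : Set (ℕ × ℕ), A = {t : ℕ × ℕ | Box Y t ∧ IsCoprime (uY Y t.1) (vW t.2) ∧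
      (p : ℤ) ^ 2 ∣ (uY Y t.1) ^ 2 - 2 * e * (uY Y t.1) * vW t.2 - (vW t.2) ^ 2} := ⟨_, rfl⟩
  have hmem : ∀ t, t ∈ A ↔ Box Y t ∧ IsCoprime (uY Y t.1) (vW t.2) ∧
      (p : ℤ) ^ 2 ∣ (uY Y t.1) ^ 2 - 2 * e * (uY Y t.1) * vW t.2 - (vW t.2) ^ 2 :=
    fun t => by rw [hA]; rfl
  rw [← hA]
  have hAfin : A.Finite := by
    refine ((Finset.Icc 1 Y ×ˢ Finset.Icc 1 Y).finite_toSet).subset ?_
    intro t ht
    obtain ⟨⟨h1, h2, h3, h4⟩, -⟩ := (hmem t).1 ht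
    rw [Finset.mem_coe, Finset.mem_product, Finset.mem_Icc, Finset.mem_Icc]
    exact ⟨⟨h1, h2⟩, ⟨h3, h4⟩⟩
  have hY0 : (0 : ℝ) < Y := by exact_mod_cast hY
  have hp0 : (0 : ℝ) < p := by exact_mod_cast hp.pos
  have hpZ : Prime (p : ℤ) := Nat.prime_iff_prime_int.1 hp
  have hpv : ∀ t ∈ A, ¬ (p : ℤ) ∣ vW t.2 := by
    intro t ht hpv
    obtain ⟨-, hc, hd⟩ := (hmem t).1 ht
    have h1 : (p : ℤ) ∣ (uY Y t.1) ^ 2 := by
      have h2 : (p : ℤ) ∣ (uY Y t.1) ^ 2 - 2 * e * (uY Y t.1) * vW t.2 - (vW t.2) ^ 2 :=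
        (Dvd.intro_left _ (sq (p : ℤ)).symm).trans hd
      have h3 : (uY Y t.1) ^ 2 = ((uY Y t.1) ^ 2 - 2 * e * (uY Y t.1) * vW t.2 -
        (vW t.2) ^ 2) + vW t.2 * (2 * e * (uY Y t.1) + vW t.2) := by ring
      rw [h3]
      exact dvd_add h2 (hpv.mul_right _)
    have h4 : (p : ℤ) ∣ uY Y t.1 := hpZ.dvd_of_dvd_pow h1
    exact hpZ.not_unit (hc.isUnit_of_dvd' h4 hpv)
  rcases A.eq_empty_or_nonempty with h0 | ⟨t0, ht0⟩
  · rw [h0, Set.ncard_empty]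
    push_cast
    positivity
  have hcop0 : IsCoprime ((p : ℤ) ^ 2) (vW t0.2) :=
    IsCoprime.pow_left ((hpZ.coprime_iff_not_dvd).2 (hpv t0 ht0))
  -- the two classes
  obtain ⟨T1, hT1⟩ : ∃ T1 : Finset (ℕ × ℕ), T1 = hAfin.toFinset.filter
    (fun t => (p : ℤ) ^ 2 ∣ uY Y t0.1 * vW t.2 - uY Y t.1 * vW t0.2) := ⟨_, rfl⟩
  obtain ⟨T2, hT2⟩ : ∃ T2 : Finset (ℕ × ℕ), T2 = hAfin.toFinset.filter
    (fun t => (p : ℤ) ^ 2 ∣ uY Y t0.1 * vW t.2 + uY Y t.1 * vW t0.2 -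
      2 * e * vW t0.2 * vW t.2) := ⟨_, rfl⟩
  have hmem1 : ∀ t, t ∈ T1 ↔ t ∈ A ∧ (p : ℤ) ^ 2 ∣ uY Y t0.1 * vW t.2 - uY Y t.1 * vW t0.2 :=
    fun t => by rw [hT1, Finset.mem_filter, Set.Finite.mem_toFinset]
  have hmem2 : ∀ t, t ∈ T2 ↔ t ∈ A ∧ (p : ℤ) ^ 2 ∣ uY Y t0.1 * vW t.2 + uY Y t.1 * vW t0.2 -
      2 * e * vW t0.2 * vW t.2 :=
    fun t => by rw [hT2, Finset.mem_filter, Set.Finite.mem_toFinset]
  have hcover : hAfin.toFinset ⊆ T1 ∪ T2 := by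
    intro t ht
    rw [Set.Finite.mem_toFinset] at ht
    rw [Finset.mem_union, hmem1, hmem2]
    obtain ⟨-, -, hd0⟩ := (hmem t0).1 ht0
    obtain ⟨-, -, hd⟩ := (hmem t).1 ht
    obtain ⟨D, hD⟩ : ∃ D, D = uY Y t0.1 * vW t.2 - uY Y t.1 * vW t0.2 := ⟨_, rfl⟩
    obtain ⟨D', hD'⟩ : ∃ D', D' = uY Y t0.1 * vW t.2 + uY Y t.1 * vW t0.2 -
      2 * e * vW t0.2 * vW t.2 := ⟨_, rfl⟩
    rw [← hD, ← hD']
    have h1 : (p : ℤ) ^ 2 ∣ D * D' := by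
      have h2 : D * D' = ((uY Y t0.1) ^ 2 - 2 * e * (uY Y t0.1) * vW t0.2 - (vW t0.2) ^ 2) *
          (vW t.2) ^ 2 - ((uY Y t.1) ^ 2 - 2 * e * (uY Y t.1) * vW t.2 - (vW t.2) ^ 2) *
          (vW t0.2) ^ 2 := by
        rw [hD, hD']; ring
      rw [h2]
      exact dvd_sub (hd0.mul_right _) (hd.mul_right _)
    by_cases hpD : (p : ℤ) ∣ D
    · left
      refine ⟨ht, ?_⟩
      have hpD' : ¬ (p : ℤ) ∣ D' := by
        intro hpD'
        have h3 : (p : ℤ) ∣ 2 * vW t0.2 * (uY Y t.1 - e * vW t.2) := by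
          have h4 : 2 * vW t0.2 * (uY Y t.1 - e * vW t.2) = D' - D := by
            rw [hD, hD']; ring
          rw [h4]
          exact dvd_sub hpD' hpD
        have h2' : ¬ (p : ℤ) ∣ 2 := by
          intro h
          have := Int.le_of_dvd (by norm_num) h
          have h5 : (5 : ℤ) ≤ p := by exact_mod_cast hp5
          linarith
        have h5 : (p : ℤ) ∣ uY Y t.1 - e * vW t.2 := by
          rcases hpZ.dvd_or_dvd h3 with h | h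
          · rcases hpZ.dvd_or_dvd h with h | h
            · exact absurd h h2'
            · exact absurd h (hpv t0 ht0)
          · exact h
        have h6 : (p : ℤ) ∣ 2 * (vW t.2) ^ 2 := by
          have h7 : (p : ℤ) ∣ (uY Y t.1) ^ 2 - 2 * e * (uY Y t.1) * vW t.2 - (vW t.2) ^ 2 :=
            (Dvd.intro_left _ (sq (p : ℤ)).symm).trans hd
          have h8 : 2 * (vW t.2) ^ 2 = (uY Y t.1 - e * vW t.2) * (uY Y t.1 - e * vW t.2) -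
              ((uY Y t.1) ^ 2 - 2 * e * (uY Y t.1) * vW t.2 - (vW t.2) ^ 2) +
              (1 - e ^ 2) * (vW t.2) ^ 2 := by ring
          rw [h8, he]
          simp only [sub_self, zero_mul, add_zero]
          exact dvd_sub (h5.mul_right _) h7
        rcases hpZ.dvd_or_dvd h6 with h | h
        · exact h2' h
        · exact hpv t ht (hpZ.dvd_of_dvd_pow h)
      have hc : IsCoprime ((p : ℤ) ^ 2) D' :=
        IsCoprime.pow_left ((hpZ.coprime_iff_not_dvd).2 hpD')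
      exact hc.dvd_of_dvd_mul_right h1
    · right
      refine ⟨ht, ?_⟩
      have hc : IsCoprime ((p : ℤ) ^ 2) D :=
        IsCoprime.pow_left ((hpZ.coprime_iff_not_dvd).2 hpD)
      exact hc.dvd_of_dvd_mul_left h1
  have hc1 : (T1.card : ℝ) ≤ 226 * (Y : ℝ) ^ 2 / (p : ℝ) ^ 2 + 1 := by
    refine class_bound hSP2 Y p hY hp.pos T1 ?_ ?_
    · intro t ht
      have h := (hmem t).1 ((hmem1 t).1 ht).1
      exact ⟨h.1, h.2.1⟩
    · intro t1 ht1 t2 ht2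
      have h1 := ((hmem1 t1).1 ht1).2
      have h2 := ((hmem1 t2).1 ht2).2
      refine hcop0.dvd_of_dvd_mul_left ?_
      have h3 : vW t0.2 * (uY Y t1.1 * vW t2.2 - uY Y t2.1 * vW t1.2) =
          (uY Y t0.1 * vW t2.2 - uY Y t2.1 * vW t0.2) * vW t1.2 -
          (uY Y t0.1 * vW t1.2 - uY Y t1.1 * vW t0.2) * vW t2.2 := by ring
      rw [h3]
      exact dvd_sub (h2.mul_right _) (h1.mul_right _)
  have hc2 : (T2.card : ℝ) ≤ 226 * (Y : ℝ) ^ 2 / (p : ℝ) ^ 2 + 1 := by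
    refine class_bound hSP2 Y p hY hp.pos T2 ?_ ?_
    · intro t ht
      have h := (hmem t).1 ((hmem2 t).1 ht).1
      exact ⟨h.1, h.2.1⟩
    · intro t1 ht1 t2 ht2
      have h1 := ((hmem2 t1).1 ht1).2
      have h2 := ((hmem2 t2).1 ht2).2
      refine hcop0.dvd_of_dvd_mul_left ?_
      have h3 : vW t0.2 * (uY Y t1.1 * vW t2.2 - uY Y t2.1 * vW t1.2) =
          (uY Y t0.1 * vW t1.2 + uY Y t1.1 * vW t0.2 - 2 * e * vW t0.2 * vW t1.2) * vW t2.2 -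
          (uY Y t0.1 * vW t2.2 + uY Y t2.1 * vW t0.2 - 2 * e * vW t0.2 * vW t2.2) * vW t1.2 := by
        ring
      rw [h3]
      exact dvd_sub (h1.mul_right _) (h2.mul_right _)
  rw [Set.ncard_eq_toFinset_card A hAfin]
  have h1 : (hAfin.toFinset.card : ℝ) ≤ (T1.card : ℝ) + T2.card := by
    have h2 := (Finset.card_le_card hcover).trans (Finset.card_union_le T1 T2)
    exact_mod_cast h2
  have h3 : 226 * (Y : ℝ) ^ 2 / (p : ℝ) ^ 2 + 226 * (Y : ℝ) ^ 2 / (p : ℝ) ^ 2 ≤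
      500 * (Y : ℝ) ^ 2 / (p : ℝ) ^ 2 := by
    rw [← add_div]
    gcongr
    nlinarith [sq_nonneg (Y : ℝ)]
  linarith

end PB2M

open PB2M in
/-- **PB2.** -/
theorem specPB2 (hSP2 : SpecSP2) : SpecPB2 := by
  intro Y p hY hp hp5
  constructor
  · have h := both hSP2 Y p hY hp hp5 1 (by norm_num)
    simpa only [mul_one, gp] using h
  · have h := both hSP2 Y p hY hp hp5 (-1) (by norm_num)
    have h2 : ∀ u v : ℤ, u ^ 2 - 2 * (-1) * u * v - v ^ 2 = gq u v := by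
      intro u v
      unfold gq
      ring
    simpa only [h2] using h

end Pool.Agent.Lib.MPad6874
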