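import Pool.Agent.Lib.MP_ad6874_nt.Spec

set_option autoImplicit false

namespace Pool.Agent.Lib.MPad6874

namespace PTSaux

theorem mk (hBAS : SpecBAS) {s q : ℤ} {N x y : ℚ} (hs : 0 < s) (hq : (s : ℚ) * (q : ℚ) ^ 2 = N)
    (hN : N * y ^ 2 = x ^ 3 - x) (h0 : x ≠ 0) (h1 : x - 1 ≠ 0) (h2 : x + 1 ≠ 0) :
    ∃ P : Pt (4 * s), del (4 * s) 0 P = 4 * (s : ℚ) * x ∧
      del (4 * s) 1 P = 4 * (s : ℚ) * (x - 1) ∧ del (4 * s) 2 P = 4 * (s : ℚ) * (x + 1) := by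
  have hS : (s : ℚ) ≠ 0 := by
    have : s ≠ 0 := by omega
    exact_mod_cast this
  have hd : 4 * s ≠ 0 := by omega
  have heq : (8 * (s : ℚ) ^ 2 * q * y) ^ 2
      = (4 * (s : ℚ) * x) ^ 3 - ((4 * s : ℤ) : ℚ) ^ 2 * (4 * (s : ℚ) * x) := by
    push_cast
    have h3 : (8 * (s : ℚ) ^ 2 * q * y) ^ 2 = 64 * (s : ℚ) ^ 3 * (((s : ℚ) * (q : ℚ) ^ 2) * y ^ 2) := by
      ring
    rw [h3, hq, hN]
    ring
  refine ⟨.some (4 * (s : ℚ) * x) (8 * (s : ℚ) ^ 2 * q * y) (hBAS.nons (4 * s) _ _ hd heq), ?_, ?_, ?_⟩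
  · show (if 4 * (s : ℚ) * x = rt (4 * s) 0 then dv (4 * s) 0 else 4 * (s : ℚ) * x - rt (4 * s) 0) = _
    have hr : rt (4 * s) 0 = 0 := rfl
    rw [hr, if_neg, sub_zero]
    intro h
    rcases mul_eq_zero.1 h with h | h
    · exact hS (by linarith)
    · exact h0 h
  · show (if 4 * (s : ℚ) * x = rt (4 * s) 1 then dv (4 * s) 1 else 4 * (s : ℚ) * x - rt (4 * s) 1) = _
    have hr : rt (4 * s) 1 = ((4 * s : ℤ) : ℚ) := rfl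
    have h5 : 4 * (s : ℚ) * x - ((4 * s : ℤ) : ℚ) = 4 * (s : ℚ) * (x - 1) := by
      push_cast
      ring
    rw [hr, if_neg, h5]
    intro h
    rw [← sub_eq_zero, h5] at h
    rcases mul_eq_zero.1 h with h | h
    · exact hS (by linarith)
    · exact h1 h
  · show (if 4 * (s : ℚ) * x = rt (4 * s) 2 then dv (4 * s) 2 else 4 * (s : ℚ) * x - rt (4 * s) 2) = _
    have hr : rt (4 * s) 2 = -((4 * s : ℤ) : ℚ) := rfl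
    have h5 : 4 * (s : ℚ) * x - -((4 * s : ℤ) : ℚ) = 4 * (s : ℚ) * (x + 1) := by
      push_cast
      ring
    rw [hr, if_neg, h5]
    intro h
    rw [← sub_eq_zero, h5] at h
    rcases mul_eq_zero.1 h with h | h
    · exact hS (by linarith)
    · exact h2 h

theorem sq {S Q N x z t : ℚ} (hq : S * Q ^ 2 = N) (h : x * z = N * t ^ 2) :
    IsSquare (4 * S * x * z) := by
  refine ⟨2 * S * Q * t, ?_⟩
  have h1 : 4 * S * x * z = 4 * S * (x * z) := by ring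
  rw [h1, h, ← hq]
  ring

/-- the common shape of the three points -/
theorem one (hBAS : SpecBAS) {s q : ℤ} {N x w y z0 z1 z2 m0 m1 m2 t0 t1 t2 : ℚ} (hs : 0 < s)
    (hq : (s : ℚ) * (q : ℚ) ^ 2 = N) (hw : w ≠ 0) (hx : x = m0 / w) (h1 : x - 1 = m1 / w)
    (h2 : x + 1 = m2 / w) (hm0 : m0 ≠ 0) (hm1 : m1 ≠ 0) (hm2 : m2 ≠ 0)
    (hN : N * y ^ 2 = m0 / w * (m1 / w) * (m2 / w)) (e0 : m0 / w * z0 = N * t0 ^ 2)
    (e1 : m1 / w * z1 = N * t1 ^ 2) (e2 : m2 / w * z2 = N * t2 ^ 2) :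
    ∃ P : Pt (4 * s), IsSquare (del (4 * s) 0 P * z0) ∧ IsSquare (del (4 * s) 1 P * z1) ∧
      IsSquare (del (4 * s) 2 P * z2) := by
  have hx0 : x ≠ 0 := by
    rw [hx]
    exact div_ne_zero hm0 hw
  have hx1 : x - 1 ≠ 0 := by
    rw [h1]
    exact div_ne_zero hm1 hw
  have hx2 : x + 1 ≠ 0 := by
    rw [h2]
    exact div_ne_zero hm2 hw
  have h3 : N * y ^ 2 = x ^ 3 - x := by
    rw [hN, ← hx, ← h1, ← h2]
    ring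
  obtain ⟨P, hP0, hP1, hP2⟩ := mk hBAS hs hq h3 hx0 hx1 hx2
  refine ⟨P, ?_, ?_, ?_⟩
  · rw [hP0]
    exact sq hq (by rw [hx]; exact e0)
  · rw [hP1]
    exact sq hq (by rw [h1]; exact e1)
  · rw [hP2]
    exact sq hq (by rw [h2]; exact e2)

end PTSaux

open PTSaux in
theorem specPTS (hBAS : SpecBAS) (hNSQ : SpecNSQ) : SpecPTS := by
  rintro u s ⟨hu, hu4, _, hs, q, hq⟩
  obtain ⟨ha, hb, hc⟩ := hNSQ.pos u hu hu4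
  have ha' : (0 : ℚ) < (u : ℚ) ^ 4 + 1 := by
    have : (0 : ℚ) < ((fa u : ℤ) : ℚ) := by exact_mod_cast ha
    rw [fa] at this
    push_cast at this
    exact this
  have hb' : (0 : ℚ) < (u : ℚ) ^ 4 - 6 * (u : ℚ) ^ 2 + 1 := by
    have : (0 : ℚ) < ((fb u : ℤ) : ℚ) := by exact_mod_cast hb
    rw [fb] at this
    push_cast at this
    exact this
  have hc' : (0 : ℚ) < (u : ℚ) ^ 4 + 6 * (u : ℚ) ^ 2 + 1 := by
    have : (0 : ℚ) < ((fc u : ℤ) : ℚ) := by exact_mod_cast hc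
    rw [fc] at this
    push_cast at this
    exact this
  have hU : (4 : ℚ) ≤ (u : ℚ) := by exact_mod_cast hu4
  have hU0 : (u : ℚ) ≠ 0 := by
    intro h
    rw [h] at hU
    norm_num at hU
  have hUm : (u : ℚ) ^ 2 - 1 ≠ 0 := by nlinarith
  have hUp : (u : ℚ) ^ 2 + 1 ≠ 0 := by nlinarith
  have hq' : (s : ℚ) * (q : ℚ) ^ 2 = 6 * (((u : ℚ) ^ 4 + 1) * ((u : ℚ) ^ 4 - 6 * (u : ℚ) ^ 2 + 1) *
      ((u : ℚ) ^ 4 + 6 * (u : ℚ) ^ 2 + 1)) := by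
    have : ((s * q ^ 2 : ℤ) : ℚ) = ((6 * (fa u * fb u * fc u) : ℤ) : ℚ) := by rw [hq]
    rw [fa, fb, fc] at this
    push_cast at this
    exact this
  have hA : ((fa u : ℤ) : ℚ) = (u : ℚ) ^ 4 + 1 := by
    rw [fa]
    push_cast
    ring
  have hB : ((fb u : ℤ) : ℚ) = (u : ℚ) ^ 4 - 6 * (u : ℚ) ^ 2 + 1 := by
    rw [fb]
    push_cast
    ring
  have hC : ((fc u : ℤ) : ℚ) = (u : ℚ) ^ 4 + 6 * (u : ℚ) ^ 2 + 1 := by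
    rw [fc]
    push_cast
    ring
  obtain ⟨P0, hP0⟩ := one hBAS (s := s) (q := q)
    (N := 6 * (((u : ℚ) ^ 4 + 1) * ((u : ℚ) ^ 4 - 6 * (u : ℚ) ^ 2 + 1) *
      ((u : ℚ) ^ 4 + 6 * (u : ℚ) ^ 2 + 1)))
    (x := ((u : ℚ) ^ 4 + 1) / (6 * (u : ℚ) ^ 2)) (w := 6 * (u : ℚ) ^ 2)
    (y := 1 / (36 * (u : ℚ) ^ 3))
    (z0 := ((fb u * fc u : ℤ) : ℚ)) (z1 := ((fa u * fc u : ℤ) : ℚ)) (z2 := ((fa u * fb u : ℤ) : ℚ))
    (m0 := (u : ℚ) ^ 4 + 1) (m1 := (u : ℚ) ^ 4 - 6 * (u : ℚ) ^ 2 + 1)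
    (m2 := (u : ℚ) ^ 4 + 6 * (u : ℚ) ^ 2 + 1)
    (t0 := 1 / (6 * (u : ℚ))) (t1 := 1 / (6 * (u : ℚ))) (t2 := 1 / (6 * (u : ℚ)))
    hs hq' (by positivity) rfl (by field_simp; ring) (by field_simp; ring) ha'.ne' hb'.ne' hc'.ne'
    (by field_simp; ring)
    (by push_cast; rw [hB, hC]; field_simp; try ring)
    (by push_cast; rw [hA, hC]; field_simp; try ring)
    (by push_cast; rw [hA, hB]; field_simp; try ring)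
  obtain ⟨P1, hP1⟩ := one hBAS (s := s) (q := q)
    (N := 6 * (((u : ℚ) ^ 4 + 1) * ((u : ℚ) ^ 4 - 6 * (u : ℚ) ^ 2 + 1) *
      ((u : ℚ) ^ 4 + 6 * (u : ℚ) ^ 2 + 1)))
    (x := -((u : ℚ) ^ 4 + 6 * (u : ℚ) ^ 2 + 1) / (3 * ((u : ℚ) ^ 2 - 1) ^ 2))
    (w := 3 * ((u : ℚ) ^ 2 - 1) ^ 2)
    (y := 2 / (9 * ((u : ℚ) ^ 2 - 1) ^ 3))
    (z0 := ((-2 * (fa u * fb u) : ℤ) : ℚ)) (z1 := ((-2 * (fb u * fc u) : ℤ) : ℚ))
    (z2 := ((fa u * fc u : ℤ) : ℚ))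
    (m0 := -((u : ℚ) ^ 4 + 6 * (u : ℚ) ^ 2 + 1)) (m1 := -4 * ((u : ℚ) ^ 4 + 1))
    (m2 := 2 * ((u : ℚ) ^ 4 - 6 * (u : ℚ) ^ 2 + 1))
    (t0 := 1 / (3 * ((u : ℚ) ^ 2 - 1))) (t1 := 2 / (3 * ((u : ℚ) ^ 2 - 1)))
    (t2 := 1 / (3 * ((u : ℚ) ^ 2 - 1)))
    hs hq' (by positivity) rfl (by field_simp; ring) (by field_simp; ring)
    (neg_ne_zero.2 hc'.ne') (mul_ne_zero (by norm_num) ha'.ne') (mul_ne_zero (by norm_num) hb'.ne')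
    (by field_simp; ring)
    (by push_cast; rw [hA, hB]; field_simp; try ring)
    (by push_cast; rw [hB, hC]; field_simp; try ring)
    (by push_cast; rw [hA, hC]; field_simp; try ring)
  obtain ⟨P2, hP2⟩ := one hBAS (s := s) (q := q)
    (N := 6 * (((u : ℚ) ^ 4 + 1) * ((u : ℚ) ^ 4 - 6 * (u : ℚ) ^ 2 + 1) *
      ((u : ℚ) ^ 4 + 6 * (u : ℚ) ^ 2 + 1)))
    (x := -((u : ℚ) ^ 4 - 6 * (u : ℚ) ^ 2 + 1) / (3 * ((u : ℚ) ^ 2 + 1) ^ 2))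
    (w := 3 * ((u : ℚ) ^ 2 + 1) ^ 2)
    (y := 2 / (9 * ((u : ℚ) ^ 2 + 1) ^ 3))
    (z0 := ((-2 * (fa u * fc u) : ℤ) : ℚ)) (z1 := ((-2 * (fb u * fc u) : ℤ) : ℚ))
    (z2 := ((fa u * fb u : ℤ) : ℚ))
    (m0 := -((u : ℚ) ^ 4 - 6 * (u : ℚ) ^ 2 + 1)) (m1 := -4 * ((u : ℚ) ^ 4 + 1))
    (m2 := 2 * ((u : ℚ) ^ 4 + 6 * (u : ℚ) ^ 2 + 1))
    (t0 := 1 / (3 * ((u : ℚ) ^ 2 + 1))) (t1 := 2 / (3 * ((u : ℚ) ^ 2 + 1)))
    (t2 := 1 / (3 * ((u : ℚ) ^ 2 + 1)))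
    hs hq' (by positivity) rfl (by field_simp; ring) (by field_simp; ring)
    (neg_ne_zero.2 hb'.ne') (mul_ne_zero (by norm_num) ha'.ne') (mul_ne_zero (by norm_num) hc'.ne')
    (by field_simp; ring)
    (by push_cast; rw [hA, hC]; field_simp; try ring)
    (by push_cast; rw [hB, hC]; field_simp; try ring)
    (by push_cast; rw [hA, hB]; field_simp; try ring)
  exact ⟨![P0, P1, P2], hP0, hP1, hP2⟩

end Pool.Agent.Lib.MPad6874
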