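import Pool.Agent.Lib.MP_ad6874_nt.Spec2
import Pool.Agent.Lib.MP_ad6874_nt.PTS

/-!
# Module PT2: the three points, homogeneous version
-/

set_option autoImplicit false

namespace Pool.Agent.Lib.MPad6874

open PTSaux in
theorem specPT2 (hBAS : SpecBAS) (hAR2 : SpecAR2) : SpecPT2 := by
  rintro u v s ⟨hPr, _, hs, q, hq⟩
  obtain ⟨ha, hp, hqq, hc⟩ := hAR2.pos u v hPr
  obtain ⟨_, _, hv0, huv, _⟩ := hPr
  have hb : 0 < gb u v := mul_pos hp hqq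
  obtain ⟨U, hU⟩ : ∃ U : ℚ, U = (u : ℚ) := ⟨_, rfl⟩
  obtain ⟨V, hV⟩ : ∃ V : ℚ, V = (v : ℚ) := ⟨_, rfl⟩
  have hV0 : 0 < V := by
    rw [hV]
    exact_mod_cast hv0
  have hUV : 3 * V ≤ U := by
    rw [hU, hV]
    exact_mod_cast huv
  have hU0 : 0 < U := by linarith
  have hA : ((ga u v : ℤ) : ℚ) = U ^ 4 + V ^ 4 := by
    rw [ga, hU, hV]
    push_cast
    ring
  have hB : ((gb u v : ℤ) : ℚ) = U ^ 4 - 6 * U ^ 2 * V ^ 2 + V ^ 4 := by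
    rw [gb, gp, gq, hU, hV]
    push_cast
    ring
  have hC : ((gc u v : ℤ) : ℚ) = U ^ 4 + 6 * U ^ 2 * V ^ 2 + V ^ 4 := by
    rw [gc, hU, hV]
    push_cast
    ring
  have ha' : (0 : ℚ) < U ^ 4 + V ^ 4 := by
    rw [← hA]
    exact_mod_cast ha
  have hb' : (0 : ℚ) < U ^ 4 - 6 * U ^ 2 * V ^ 2 + V ^ 4 := by
    rw [← hB]
    exact_mod_cast hb
  have hc' : (0 : ℚ) < U ^ 4 + 6 * U ^ 2 * V ^ 2 + V ^ 4 := by
    rw [← hC]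
    exact_mod_cast hc
  have hUm : U ^ 2 - V ^ 2 ≠ 0 := by nlinarith
  have hUp : U ^ 2 + V ^ 2 ≠ 0 := by positivity
  have hUn : U ≠ 0 := hU0.ne'
  have hVn : V ≠ 0 := hV0.ne'
  have hq' : (s : ℚ) * (q : ℚ) ^ 2 = 6 * ((U ^ 4 + V ^ 4) * (U ^ 4 - 6 * U ^ 2 * V ^ 2 + V ^ 4) *
      (U ^ 4 + 6 * U ^ 2 * V ^ 2 + V ^ 4)) := by
    have : ((s * q ^ 2 : ℤ) : ℚ) = ((6 * gF u v : ℤ) : ℚ) := by rw [hq]
    rw [gF] at this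
    push_cast at this
    rw [hA, hB, hC] at this
    exact this
  obtain ⟨P0, hP0⟩ := one hBAS (s := s) (q := q)
    (N := 6 * ((U ^ 4 + V ^ 4) * (U ^ 4 - 6 * U ^ 2 * V ^ 2 + V ^ 4) *
      (U ^ 4 + 6 * U ^ 2 * V ^ 2 + V ^ 4)))
    (x := (U ^ 4 + V ^ 4) / (6 * (U * V) ^ 2)) (w := 6 * (U * V) ^ 2)
    (y := 1 / (36 * (U * V) ^ 3))
    (z0 := ((gb u v * gc u v : ℤ) : ℚ)) (z1 := ((ga u v * gc u v : ℤ) : ℚ))
    (z2 := ((ga u v * gb u v : ℤ) : ℚ))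
    (m0 := U ^ 4 + V ^ 4) (m1 := U ^ 4 - 6 * U ^ 2 * V ^ 2 + V ^ 4)
    (m2 := U ^ 4 + 6 * U ^ 2 * V ^ 2 + V ^ 4)
    (t0 := 1 / (6 * (U * V))) (t1 := 1 / (6 * (U * V))) (t2 := 1 / (6 * (U * V)))
    hs hq' (by positivity) rfl (by field_simp; ring) (by field_simp; ring) ha'.ne' hb'.ne' hc'.ne'
    (by field_simp; ring)
    (by push_cast; rw [hB, hC]; field_simp; try ring)
    (by push_cast; rw [hA, hC]; field_simp; try ring)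
    (by push_cast; rw [hA, hB]; field_simp; try ring)
  obtain ⟨P1, hP1⟩ := one hBAS (s := s) (q := q)
    (N := 6 * ((U ^ 4 + V ^ 4) * (U ^ 4 - 6 * U ^ 2 * V ^ 2 + V ^ 4) *
      (U ^ 4 + 6 * U ^ 2 * V ^ 2 + V ^ 4)))
    (x := -(U ^ 4 + 6 * U ^ 2 * V ^ 2 + V ^ 4) / (3 * (U ^ 2 - V ^ 2) ^ 2))
    (w := 3 * (U ^ 2 - V ^ 2) ^ 2)
    (y := 2 / (9 * (U ^ 2 - V ^ 2) ^ 3))
    (z0 := ((-2 * (ga u v * gb u v) : ℤ) : ℚ)) (z1 := ((-2 * (gb u v * gc u v) : ℤ) : ℚ))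
    (z2 := ((ga u v * gc u v : ℤ) : ℚ))
    (m0 := -(U ^ 4 + 6 * U ^ 2 * V ^ 2 + V ^ 4)) (m1 := -4 * (U ^ 4 + V ^ 4))
    (m2 := 2 * (U ^ 4 - 6 * U ^ 2 * V ^ 2 + V ^ 4))
    (t0 := 1 / (3 * (U ^ 2 - V ^ 2))) (t1 := 2 / (3 * (U ^ 2 - V ^ 2)))
    (t2 := 1 / (3 * (U ^ 2 - V ^ 2)))
    hs hq' (by positivity) rfl (by field_simp; ring) (by field_simp; ring)
    (neg_ne_zero.2 hc'.ne') (mul_ne_zero (by norm_num) ha'.ne') (mul_ne_zero (by norm_num) hb'.ne')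
    (by field_simp; ring)
    (by push_cast; rw [hA, hB]; field_simp; try ring)
    (by push_cast; rw [hB, hC]; field_simp; try ring)
    (by push_cast; rw [hA, hC]; field_simp; try ring)
  obtain ⟨P2, hP2⟩ := one hBAS (s := s) (q := q)
    (N := 6 * ((U ^ 4 + V ^ 4) * (U ^ 4 - 6 * U ^ 2 * V ^ 2 + V ^ 4) *
      (U ^ 4 + 6 * U ^ 2 * V ^ 2 + V ^ 4)))
    (x := -(U ^ 4 - 6 * U ^ 2 * V ^ 2 + V ^ 4) / (3 * (U ^ 2 + V ^ 2) ^ 2))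
    (w := 3 * (U ^ 2 + V ^ 2) ^ 2)
    (y := 2 / (9 * (U ^ 2 + V ^ 2) ^ 3))
    (z0 := ((-2 * (ga u v * gc u v) : ℤ) : ℚ)) (z1 := ((-2 * (gb u v * gc u v) : ℤ) : ℚ))
    (z2 := ((ga u v * gb u v : ℤ) : ℚ))
    (m0 := -(U ^ 4 - 6 * U ^ 2 * V ^ 2 + V ^ 4)) (m1 := -4 * (U ^ 4 + V ^ 4))
    (m2 := 2 * (U ^ 4 + 6 * U ^ 2 * V ^ 2 + V ^ 4))
    (t0 := 1 / (3 * (U ^ 2 + V ^ 2))) (t1 := 2 / (3 * (U ^ 2 + V ^ 2)))
    (t2 := 1 / (3 * (U ^ 2 + V ^ 2)))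
    hs hq' (by positivity) rfl (by field_simp; ring) (by field_simp; ring)
    (neg_ne_zero.2 hb'.ne') (mul_ne_zero (by norm_num) ha'.ne') (mul_ne_zero (by norm_num) hc'.ne')
    (by field_simp; ring)
    (by push_cast; rw [hA, hC]; field_simp; try ring)
    (by push_cast; rw [hB, hC]; field_simp; try ring)
    (by push_cast; rw [hA, hB]; field_simp; try ring)
  exact ⟨![P0, P1, P2], hP0, hP1, hP2⟩

end Pool.Agent.Lib.MPad6874
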