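import Pool.Agent.Lib.MP_ad6874_nt.Spec2

/-!
# Few pairs have a large common prime factor (RC2)
-/

set_option autoImplicit false

namespace Pool.Agent.Lib.MPad6874

namespace RC2M

open Finset

/-- numbers in one residue class -/
lemma card_class (p Y : ℕ) (T : Finset ℕ) (hT : ∀ y ∈ T, y ≤ Y)
    (hc : ∀ y ∈ T, ∀ y' ∈ T, y % p = y' % p) : T.card ≤ Y / p + 1 := by
  have h : T.card ≤ (range (Y / p + 1)).card := by
    refine card_le_card_of_injOn (fun y => y / p) ?_ ?_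
    · intro y hy
      have h1 := hT y hy
      simp only [coe_range, Set.mem_Iio]
      have := Nat.div_le_div_right (c := p) h1
      omega
    · intro y hy y' hy' h
      have h1 := hc y hy y' hy'
      simp only at h
      rw [← Nat.div_add_mod y p, ← Nat.div_add_mod y' p, h, h1]
  rwa [card_range] at h

/-- a prime `≥ 5` dividing `6 n` divides `n` -/
lemma dvd_of_six (p : ℕ) (hp : p.Prime) (h5 : 5 ≤ p) (n : ℤ) (h : (p : ℤ) ∣ 6 * n) : (p : ℤ) ∣ n := by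
  have hpi : Prime (p : ℤ) := Nat.prime_iff_prime_int.1 hp
  rcases hpi.dvd_or_dvd h with h1 | h1
  · exfalso
    have h2 : p ∣ 6 := by exact_mod_cast h1
    have h3 := Nat.le_of_dvd (by norm_num) h2
    interval_cases p
    · omega
    · revert hp; norm_num
  · exact h1

lemma class_of (p : ℕ) (hp : p.Prime) (h5 : 5 ≤ p) (y y' : ℕ) (a b : ℤ)
    (ha : (p : ℤ) ∣ a) (hb : (p : ℤ) ∣ b) (h : a - b = 6 * ((y : ℤ) - y')) : y % p = y' % p := by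
  have h1 : (p : ℤ) ∣ (y : ℤ) - y' := by
    apply dvd_of_six p hp h5
    rw [← h]
    exact dvd_sub ha hb
  have h2 : (y' : ℤ) ≡ (y : ℤ) [ZMOD p] := (Int.modEq_iff_dvd).2 h1
  have h3 : y' ≡ y [MOD p] := Int.natCast_modEq_iff.1 h2
  exact h3.symm

open scoped Classical in
/-- the pairs for one prime -/
noncomputable def Ap (Y p : ℕ) : Finset (ℕ × ℕ) :=
  ((Icc 1 Y).filter (fun y : ℕ => (p : ℤ) ∣ uY Y y)) ×ˢ ((Icc 1 Y).filter (fun w : ℕ => (p : ℤ) ∣ vW w))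

lemma card_Ap (Y p : ℕ) (hp : p.Prime) (h5 : 5 ≤ p) :
    ((Ap Y p).card : ℝ) ≤ 2 * (Y : ℝ) ^ 2 * (1 / (p : ℝ) ^ 2) + 2 := by
  have hp0 : (0 : ℝ) < p := by exact_mod_cast hp.pos
  classical
  have hdiv : ((Y / p : ℕ) : ℝ) ≤ (Y : ℝ) / p := Nat.cast_div_le
  have h1 : (((Icc 1 Y).filter (fun y : ℕ => (p : ℤ) ∣ uY Y y)).card : ℝ) ≤ (Y : ℝ) / p + 1 := by
    have := card_class p Y ((Icc 1 Y).filter (fun y : ℕ => (p : ℤ) ∣ uY Y y))
      (fun y hy => (mem_Icc.1 (mem_filter.1 hy).1).2)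
      (fun y hy y' hy' => class_of p hp h5 y y' _ _ (mem_filter.1 hy).2 (mem_filter.1 hy').2
        (by unfold uY; ring))
    have h2 : (((Icc 1 Y).filter (fun y : ℕ => (p : ℤ) ∣ uY Y y)).card : ℝ) ≤ ((Y / p + 1 : ℕ) : ℝ) := by
      exact_mod_cast this
    push_cast at h2
    linarith
  have h3 : (((Icc 1 Y).filter (fun w : ℕ => (p : ℤ) ∣ vW w)).card : ℝ) ≤ (Y : ℝ) / p + 1 := by
    have := card_class p Y ((Icc 1 Y).filter (fun w : ℕ => (p : ℤ) ∣ vW w))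
      (fun y hy => (mem_Icc.1 (mem_filter.1 hy).1).2)
      (fun y hy y' hy' => class_of p hp h5 y y' _ _ (mem_filter.1 hy).2 (mem_filter.1 hy').2
        (by unfold vW; ring))
    have h2 : (((Icc 1 Y).filter (fun w : ℕ => (p : ℤ) ∣ vW w)).card : ℝ) ≤ ((Y / p + 1 : ℕ) : ℝ) := by
      exact_mod_cast this
    push_cast at h2
    linarith
  have h4 : ((Ap Y p).card : ℝ) = (((Icc 1 Y).filter (fun y : ℕ => (p : ℤ) ∣ uY Y y)).card : ℝ) *
      (((Icc 1 Y).filter (fun w : ℕ => (p : ℤ) ∣ vW w)).card : ℝ) := by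
    unfold Ap
    rw [card_product]
    push_cast
    congr!
  rw [h4]
  have hq : 0 ≤ (Y : ℝ) / p := by positivity
  calc _ ≤ ((Y : ℝ) / p + 1) * ((Y : ℝ) / p + 1) := mul_le_mul h1 h3 (Nat.cast_nonneg _) (by linarith)
    _ ≤ 2 * ((Y : ℝ) / p) ^ 2 + 2 := by nlinarith [sq_nonneg ((Y : ℝ) / p - 1)]
    _ = _ := by rw [div_pow]; ring

end RC2M

open RC2M Finset in
theorem specRC2 (hTS2 : SpecTS2) : SpecRC2 := by
  refine ⟨14, fun z Y hz hY => ?_⟩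
  classical
  set P : Finset ℕ := (Icc 1 (7 * Y)).filter (fun n : ℕ => z ≤ (n : ℝ)) with hP
  set P' : Finset ℕ := P.filter (fun p : ℕ => p.Prime ∧ 5 ≤ p) with hP'
  have hsub : {t : ℕ × ℕ | Box Y t ∧ ∃ p : ℕ, p.Prime ∧ z ≤ (p : ℝ) ∧ (p : ℤ) ∣ uY Y t.1 ∧
      (p : ℤ) ∣ vW t.2} ⊆ ((P'.biUnion (Ap Y) : Finset (ℕ × ℕ)) : Set (ℕ × ℕ)) := by
    rintro t ⟨⟨h1, h2, h3, h4⟩, p, hp, hz', hu, hv⟩
    rw [mem_coe, mem_biUnion]
    have hv1 : p ∣ 6 * t.2 + 1 := by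
      have : (p : ℤ) ∣ ((6 * t.2 + 1 : ℕ) : ℤ) := by
        unfold vW at hv
        push_cast
        exact hv
      exact_mod_cast this
    have hle := Nat.le_of_dvd (by omega) hv1
    have h5 : 5 ≤ p := by
      by_contra hlt
      push Not at hlt
      have h2p := hp.two_le
      interval_cases p
      · omega
      · omega
      · revert hp; norm_num
    refine ⟨p, ?_, ?_⟩
    · rw [hP', mem_filter, hP, mem_filter, mem_Icc]
      exact ⟨⟨⟨by omega, by omega⟩, hz'⟩, hp, h5⟩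
    · unfold Ap
      rw [mem_product, mem_filter, mem_filter, mem_Icc, mem_Icc]
      exact ⟨⟨⟨h1, h2⟩, hu⟩, ⟨h3, h4⟩, hv⟩
  have hc1 : (({t : ℕ × ℕ | Box Y t ∧ ∃ p : ℕ, p.Prime ∧ z ≤ (p : ℝ) ∧ (p : ℤ) ∣ uY Y t.1 ∧
      (p : ℤ) ∣ vW t.2}.ncard : ℕ) : ℝ) ≤ ((P'.biUnion (Ap Y)).card : ℝ) := by
    have := Set.ncard_le_ncard hsub (Finset.finite_toSet _)
    rw [Set.ncard_coe_finset] at this
    exact_mod_cast this
  have hc2 : ((P'.biUnion (Ap Y)).card : ℝ) ≤ ∑ p ∈ P', (2 * (Y : ℝ) ^ 2 * (1 / (p : ℝ) ^ 2) + 2) := by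
    have h1 : ((P'.biUnion (Ap Y)).card : ℝ) ≤ ∑ p ∈ P', ((Ap Y p).card : ℝ) := by
      exact_mod_cast card_biUnion_le
    refine h1.trans (sum_le_sum fun p hp => ?_)
    obtain ⟨_, hpp, h5⟩ := mem_filter.1 hp
    exact card_Ap Y p hpp h5
  have hc3 : ∑ p ∈ P', (2 * (Y : ℝ) ^ 2 * (1 / (p : ℝ) ^ 2) + 2) ≤
      ∑ p ∈ P, (2 * (Y : ℝ) ^ 2 * (1 / (p : ℝ) ^ 2) + 2) :=
    sum_le_sum_of_subset_of_nonneg (filter_subset _ _) (fun p _ _ => by positivity)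
  have hc4 : ∑ p ∈ P, (2 * (Y : ℝ) ^ 2 * (1 / (p : ℝ) ^ 2) + 2) ≤ 2 * (Y : ℝ) ^ 2 * (2 / z) + 14 * Y := by
    rw [sum_add_distrib, ← mul_sum, sum_const, nsmul_eq_mul]
    have h1 := hTS2 z (7 * Y) (by linarith)
    have h2 : (P.card : ℝ) ≤ 7 * Y := by
      have : P.card ≤ 7 * Y := by
        refine (card_filter_le _ _).trans ?_
        rw [Nat.card_Icc]
        omega
      exact_mod_cast this
    have h3 : 2 * (Y : ℝ) ^ 2 * ∑ i ∈ P, (1 : ℝ) / (i : ℝ) ^ 2 ≤ 2 * (Y : ℝ) ^ 2 * (2 / z) := by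
      refine mul_le_mul_of_nonneg_left ?_ (by positivity)
      rw [hP]
      convert h1
    linarith
  have h5 : 2 * (Y : ℝ) ^ 2 * (2 / z) + 14 * Y ≤ 14 * ((Y : ℝ) ^ 2 / z + Y) := by
    have h6 : 2 * (Y : ℝ) ^ 2 * (2 / z) = 4 * ((Y : ℝ) ^ 2 / z) := by ring
    have h7 : 0 ≤ (Y : ℝ) ^ 2 / z := by positivity
    rw [h6]
    linarith
  linarith

end Pool.Agent.Lib.MPad6874
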