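import Pool.Agent.Lib.MP_ad6874_nt.Spec

/-!
# RNK: the rank of a finitely generated abelian group is at most the binary logarithm of the index of `2 G`
-/

set_option autoImplicit false

namespace Pool.Agent.Lib.MPad6874

namespace RNKM

/-- the map to `(ℤ/2)^r` -/
noncomputable def red {G F : Type} [AddCommGroup G] [AddCommGroup F] (p : G →ₗ[ℤ] F) {r : ℕ}
    (b : Module.Basis (Fin r) ℤ F) : G →+ (Fin r → ZMod 2) where
  toFun x i := ((b.repr (p x) i : ℤ) : ZMod 2)
  map_zero' := by funext i; simp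
  map_add' x y := by funext i; simp

theorem red_apply {G F : Type} [AddCommGroup G] [AddCommGroup F] (p : G →ₗ[ℤ] F) {r : ℕ}
    (b : Module.Basis (Fin r) ℤ F) (x : G) (i : Fin r) :
    red p b x i = ((b.repr (p x) i : ℤ) : ZMod 2) := rfl

theorem red_surj {G F : Type} [AddCommGroup G] [AddCommGroup F] (p : G →ₗ[ℤ] F)
    (hp : Function.Surjective p) {r : ℕ} (b : Module.Basis (Fin r) ℤ F) :
    Function.Surjective (red p b) := by
  intro v
  obtain ⟨x, hx⟩ := hp (b.repr.symm (Finsupp.equivFunOnFinite.symm (fun i => ((v i).val : ℤ))))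
  refine ⟨x, ?_⟩
  funext i
  rw [red_apply, hx]
  simp

theorem le_ker {G F : Type} [AddCommGroup G] [AddCommGroup F] (p : G →ₗ[ℤ] F) {r : ℕ}
    (b : Module.Basis (Fin r) ℤ F) : (nsmulAddMonoidHom (α := G) 2).range ≤ (red p b).ker := by
  rintro _ ⟨x, rfl⟩
  rw [AddMonoidHom.mem_ker, nsmulAddMonoidHom_apply, map_nsmul]
  funext i
  rw [Pi.smul_apply, Pi.zero_apply, nsmul_eq_mul]
  have : ((2 : ℕ) : ZMod 2) = 0 := by decide
  rw [this, zero_mul]

end RNKM

open RNKM in
theorem specRNK : SpecRNK := by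
  intro G _ k hG hfin hidx
  have hfg : Module.Finite ℤ G := Module.Finite.iff_addGroup_fg.2 hG
  have hr : Module.finrank ℤ (G ⧸ Submodule.torsion ℤ G) = Module.finrank ℤ G :=
    finrank_quotient_eq_of_le_torsion le_rfl
  have hfree : Module.Free ℤ (G ⧸ Submodule.torsion ℤ G) := inferInstance
  let b : Module.Basis (Fin (Module.finrank ℤ G)) ℤ (G ⧸ Submodule.torsion ℤ G) :=
    Module.finBasisOfFinrankEq ℤ (G ⧸ Submodule.torsion ℤ G) hr
  have hf := red_surj (Submodule.torsion ℤ G).mkQ (Submodule.mkQ_surjective _) b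
  have h2 := le_ker (Submodule.torsion ℤ G).mkQ b
  generalize red (Submodule.torsion ℤ G).mkQ b = f at hf h2
  have h1 : f.ker.index = 2 ^ (Module.finrank ℤ G) := by
    rw [AddSubgroup.index_ker, AddMonoidHom.range_eq_top.2 hf]
    simp
  have h3 := AddSubgroup.index_dvd_of_le h2
  rw [h1] at h3
  have h4 : 2 ^ (Module.finrank ℤ G) ≤ 2 ^ k :=
    (Nat.le_of_dvd (Nat.pos_of_ne_zero hfin.index_ne_zero) h3).trans hidx
  exact (Nat.pow_le_pow_iff_right (by norm_num)).1 h4

end Pool.Agent.Lib.MPad6874
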