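import Pool.Agent.Lib.MP_ad6874_nt.Spec2

set_option autoImplicit false

namespace Pool.Agent.Lib.MPad6874

namespace RS2M

open Finset

open scoped Classical in
noncomputable def T1 (Y p : ℕ) : Finset (ℕ × ℕ) :=
  ((Icc 1 Y) ×ˢ (Icc 1 Y)).filter (fun t => IsCoprime (uY Y t.1) (vW t.2) ∧
    (p : ℤ) ^ 2 ∣ gp (uY Y t.1) (vW t.2))

open scoped Classical in
noncomputable def T2 (Y p : ℕ) : Finset (ℕ × ℕ) :=
  ((Icc 1 Y) ×ˢ (Icc 1 Y)).filter (fun t => IsCoprime (uY Y t.1) (vW t.2) ∧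
    (p : ℤ) ^ 2 ∣ gq (uY Y t.1) (vW t.2))

lemma T1_card (Y p : ℕ) : (T1 Y p).card = {t : ℕ × ℕ | Box Y t ∧ IsCoprime (uY Y t.1) (vW t.2) ∧
      (p : ℤ) ^ 2 ∣ gp (uY Y t.1) (vW t.2)}.ncard := by
  rw [← Set.ncard_coe_finset]
  congr 1
  ext t
  simp only [T1, mem_coe, mem_filter, mem_product, mem_Icc, Set.mem_ofPred_eq, Box]
  tauto

lemma T2_card (Y p : ℕ) : (T2 Y p).card = {t : ℕ × ℕ | Box Y t ∧ IsCoprime (uY Y t.1) (vW t.2) ∧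
      (p : ℤ) ^ 2 ∣ gq (uY Y t.1) (vW t.2)}.ncard := by
  rw [← Set.ncard_coe_finset]
  congr 1
  ext t
  simp only [T2, mem_coe, mem_filter, mem_product, mem_Icc, Set.mem_ofPred_eq, Box]
  tauto

lemma pr_of {Y : ℕ} {t : ℕ × ℕ} (hb : Box Y t) (hc : IsCoprime (uY Y t.1) (vW t.2)) :
    Pr (uY Y t.1) (vW t.2) := by
  obtain ⟨h1, h2, h3, h4⟩ := hb
  refine ⟨?_, ?_, ?_, ?_, hc⟩
  · unfold uY; omega
  · unfold vW; omega
  · unfold vW; omega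
  · unfold uY vW; omega

lemma prime_five {u v : ℤ} (hAR2 : SpecAR2) (h : Pr u v) (p : ℕ) (hp : p.Prime)
    (hd : (p : ℤ) ∣ gb u v) : 5 ≤ p := by
  by_contra hlt
  push Not at hlt
  have h2p := hp.two_le
  have hodd := hAR2.odd u v h
  have h3 := (hAR2.thr u v h).2.1
  interval_cases p
  · have : (2 : ℤ) ∣ gF u v := by
      unfold gF
      exact Dvd.dvd.mul_right (Dvd.dvd.mul_left hd _) _
    rw [← Int.not_even_iff_odd, even_iff_two_dvd] at hodd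
    exact hodd this
  · have : (3 : ℤ) ∣ gb u v := hd
    omega
  · revert hp; norm_num

end RS2M

open RS2M Finset in
theorem specRS2 (hAR2 : SpecAR2) (hTS2 : SpecTS2) (hPB2 : SpecPB2) : SpecRS2 := by
  refine ⟨2000, fun z Y hz hY => ?_⟩
  classical
  set P : Finset ℕ := (Icc 1 (40 * Y)).filter (fun n : ℕ => z ≤ (n : ℝ)) with hP
  set P' : Finset ℕ := P.filter (fun p : ℕ => p.Prime ∧ 5 ≤ p) with hP'
  have hsub : {t : ℕ × ℕ | Box Y t ∧ IsCoprime (uY Y t.1) (vW t.2) ∧ ∃ p : ℕ, p.Prime ∧ z ≤ (p : ℝ) ∧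
      ((p : ℤ) ^ 2 ∣ gp (uY Y t.1) (vW t.2) ∨ (p : ℤ) ^ 2 ∣ gq (uY Y t.1) (vW t.2))} ⊆
      ((P'.biUnion (fun p => T1 Y p ∪ T2 Y p) : Finset (ℕ × ℕ)) : Set (ℕ × ℕ)) := by
    rintro t ⟨hb, hc, p, hp, hz', hor⟩
    rw [mem_coe, mem_biUnion]
    have hPr := pr_of hb hc
    obtain ⟨ha0, hp0, hq0, hc0⟩ := hAR2.pos _ _ hPr
    obtain ⟨_, hu1, hu2⟩ := hAR2.upp _ _ hPr
    have hu26 : uY Y t.1 ≤ 26 * (Y : ℤ) := by
      obtain ⟨b1, b2, _⟩ := hb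
      unfold uY
      omega
    have hu0 : 0 ≤ uY Y t.1 := by unfold uY; omega
    have husq : (uY Y t.1) ^ 2 ≤ (26 * (Y : ℤ)) ^ 2 := pow_le_pow_left₀ hu0 hu26 2
    have h5 : 5 ≤ p := by
      refine prime_five hAR2 hPr p hp ?_
      unfold gb
      rcases hor with h | h
      · exact Dvd.dvd.mul_right ((dvd_pow_self _ (by norm_num)).trans h) _
      · exact Dvd.dvd.mul_left ((dvd_pow_self _ (by norm_num)).trans h) _
    have hle : (p : ℤ) ^ 2 ≤ (40 * (Y : ℤ)) ^ 2 := by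
      rcases hor with h | h
      · have := Int.le_of_dvd hp0 h
        nlinarith
      · have := Int.le_of_dvd hq0 h
        nlinarith
    have hle' : (p : ℤ) ≤ 40 * (Y : ℤ) := by
      exact (pow_le_pow_iff_left₀ (by positivity) (by positivity) (by norm_num)).1 hle
    refine ⟨p, ?_, ?_⟩
    · rw [hP', mem_filter, hP, mem_filter, mem_Icc]
      refine ⟨⟨⟨by omega, by omega⟩, hz'⟩, hp, h5⟩
    · obtain ⟨b1, b2, b3, b4⟩ := hb
      rw [mem_union]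
      rcases hor with h | h
      · left
        unfold T1
        rw [mem_filter, mem_product, mem_Icc, mem_Icc]
        exact ⟨⟨⟨b1, b2⟩, b3, b4⟩, hc, h⟩
      · right
        unfold T2
        rw [mem_filter, mem_product, mem_Icc, mem_Icc]
        exact ⟨⟨⟨b1, b2⟩, b3, b4⟩, hc, h⟩
  have hc1 := Set.ncard_le_ncard hsub (Finset.finite_toSet _)
  rw [Set.ncard_coe_finset] at hc1
  have hc1' : (({t : ℕ × ℕ | Box Y t ∧ IsCoprime (uY Y t.1) (vW t.2) ∧ ∃ p : ℕ, p.Prime ∧ z ≤ (p : ℝ) ∧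
      ((p : ℤ) ^ 2 ∣ gp (uY Y t.1) (vW t.2) ∨ (p : ℤ) ^ 2 ∣ gq (uY Y t.1) (vW t.2))}.ncard : ℕ) : ℝ) ≤
      ((P'.biUnion (fun p => T1 Y p ∪ T2 Y p)).card : ℝ) := by exact_mod_cast hc1
  have hc2 : ((P'.biUnion (fun p => T1 Y p ∪ T2 Y p)).card : ℝ) ≤
      ∑ p ∈ P', (1000 * (Y : ℝ) ^ 2 * (1 / (p : ℝ) ^ 2) + 4) := by
    have h1 : ((P'.biUnion (fun p => T1 Y p ∪ T2 Y p)).card : ℝ) ≤
        ∑ p ∈ P', ((T1 Y p ∪ T2 Y p).card : ℝ) := by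
      exact_mod_cast card_biUnion_le
    refine h1.trans (sum_le_sum fun p hp => ?_)
    obtain ⟨_, hpp, h5⟩ := mem_filter.1 hp
    obtain ⟨e1, e2⟩ := hPB2 Y p hY hpp h5
    rw [← T1_card] at e1
    rw [← T2_card] at e2
    have h3 : ((T1 Y p ∪ T2 Y p).card : ℝ) ≤ (T1 Y p).card + (T2 Y p).card := by
      exact_mod_cast card_union_le _ _
    have h4 : 1000 * (Y : ℝ) ^ 2 * (1 / (p : ℝ) ^ 2) = 500 * (Y : ℝ) ^ 2 / (p : ℝ) ^ 2 +
        500 * (Y : ℝ) ^ 2 / (p : ℝ) ^ 2 := by ring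
    rw [h4]
    linarith
  have hc3 : ∑ p ∈ P', (1000 * (Y : ℝ) ^ 2 * (1 / (p : ℝ) ^ 2) + 4) ≤
      ∑ p ∈ P, (1000 * (Y : ℝ) ^ 2 * (1 / (p : ℝ) ^ 2) + 4) :=
    sum_le_sum_of_subset_of_nonneg (filter_subset _ _) (fun p _ _ => by positivity)
  have hc4 : ∑ p ∈ P, (1000 * (Y : ℝ) ^ 2 * (1 / (p : ℝ) ^ 2) + 4) ≤
      1000 * (Y : ℝ) ^ 2 * (2 / z) + 160 * Y := by
    rw [sum_add_distrib, ← mul_sum, sum_const, nsmul_eq_mul]
    have h1 := hTS2 z (40 * Y) (by linarith)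
    have h2 : (P.card : ℝ) ≤ 40 * Y := by
      have : P.card ≤ 40 * Y := by
        refine (card_filter_le _ _).trans ?_
        rw [Nat.card_Icc]
        omega
      exact_mod_cast this
    have h3 : 1000 * (Y : ℝ) ^ 2 * ∑ i ∈ P, (1 : ℝ) / (i : ℝ) ^ 2 ≤ 1000 * (Y : ℝ) ^ 2 * (2 / z) := by
      refine mul_le_mul_of_nonneg_left ?_ (by positivity)
      rw [hP]
      convert h1
    linarith
  have h5 : 1000 * (Y : ℝ) ^ 2 * (2 / z) + 160 * Y ≤ 2000 * ((Y : ℝ) ^ 2 / z + Y) := by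
    have h6 : 1000 * (Y : ℝ) ^ 2 * (2 / z) = 2000 * ((Y : ℝ) ^ 2 / z) := by ring
    have h7 : (0 : ℝ) ≤ Y := Nat.cast_nonneg Y
    rw [h6]
    linarith
  linarith

end Pool.Agent.Lib.MPad6874
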