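import Pool.Agent.Lib.MP_ad6874_nt.Spec2

set_option autoImplicit false

namespace Pool.Agent.Lib.MPad6874

theorem specSP2 : SpecSP2 := by
  intro S g L hg hL hS hd
  have h1 : S.card ≤ (Finset.range (⌊L / g⌋₊ + 1)).card := by
    refine Finset.card_le_card_of_injOn (fun x => ⌊x / g⌋₊) ?_ ?_
    · intro x hx
      have hx' := hS x hx
      rw [Finset.mem_coe, Finset.mem_range]
      show ⌊x / g⌋₊ < ⌊L / g⌋₊ + 1
      have : ⌊x / g⌋₊ ≤ ⌊L / g⌋₊ := Nat.floor_le_floor (div_le_div_of_nonneg_right hx'.2 hg.le)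
      omega
    · intro x hx y hy hxy
      by_contra hne
      have h2 := hd x hx y hy hne
      have hx' : 0 ≤ x / g := div_nonneg (hS x hx).1 hg.le
      have hy' : 0 ≤ y / g := div_nonneg (hS y hy).1 hg.le
      have hxy' : ⌊x / g⌋₊ = ⌊y / g⌋₊ := hxy
      have h3 := Nat.floor_le hx'
      have h4 := Nat.lt_floor_add_one (x / g)
      have h5 := Nat.floor_le hy'
      have h6 := Nat.lt_floor_add_one (y / g)
      rw [hxy'] at h3 h4
      have h7 : |x / g - y / g| < 1 := by
        rw [abs_lt]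
        constructor <;> linarith
      rw [← sub_div, abs_div, abs_of_pos hg, div_lt_one hg] at h7
      linarith
  rw [Finset.card_range] at h1
  have h2 : (S.card : ℝ) ≤ ((⌊L / g⌋₊ + 1 : ℕ) : ℝ) := by exact_mod_cast h1
  have h3 := Nat.floor_le (div_nonneg hL hg.le)
  push_cast at h2
  linarith

end Pool.Agent.Lib.MPad6874
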