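import Pool.Agent.Lib.MP_ad6874_nt.Spec2
import Pool.Agent.Lib.MP_3efbeb_nt.SV.Poly

/-!
# The sieve in the variable `y`, uniformly in `v` (SV2)
-/

set_option autoImplicit false

namespace Pool.Agent.Lib.MPad6874

namespace SV2M

open Polynomial

/-- the polynomial `u(y) = 6 (3Y + y) + 2` -/
noncomputable def UU (Y : ℕ) : ℤ[X] := C 6 * X + C (18 * (Y : ℤ) + 2)

lemma evalUU (Y : ℕ) (y : ℤ) : (UU Y).eval y = 6 * (3 * (Y : ℤ) + y) + 2 := by
  simp only [UU, eval_add, eval_mul, eval_C, eval_X]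
  ring

lemma degUU (Y : ℕ) : (UU Y).natDegree ≤ 1 := natDegree_linear_le

/-- the polynomial `gF (u(y)) v` -/
noncomputable def FP (Y : ℕ) (v : ℤ) : ℤ[X] :=
  (UU Y ^ 4 + C (v ^ 4)) * ((UU Y ^ 2 - C (2 * v) * UU Y - C (v ^ 2)) * (UU Y ^ 2 + C (2 * v) * UU Y - C (v ^ 2))) *
    (UU Y ^ 4 + C (6 * v ^ 2) * UU Y ^ 2 + C (v ^ 4))

lemma evalFP (Y : ℕ) (v y : ℤ) : (FP Y v).eval y = gF (6 * (3 * (Y : ℤ) + y) + 2) v := by
  simp only [FP, eval_add, eval_sub, eval_mul, eval_pow, eval_C, evalUU, gF, ga, gb, gp, gq, gc]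
  ring

lemma degFP (Y : ℕ) (v : ℤ) : (FP Y v).natDegree ≤ 12 := by
  have h1 := degUU Y
  have h2 : (UU Y ^ 2).natDegree ≤ 2 := (natDegree_pow_le).trans (by omega)
  have h4 : (UU Y ^ 4).natDegree ≤ 4 := (natDegree_pow_le).trans (by omega)
  have c : ∀ (a : ℤ) (n : ℕ), (C a : ℤ[X]).natDegree ≤ n := fun a n => by rw [natDegree_C]; exact Nat.zero_le _
  have m : ∀ (a : ℤ) (q : ℤ[X]) (n : ℕ), q.natDegree ≤ n → (C a * q).natDegree ≤ n :=
    fun a q n h => (natDegree_C_mul_le a q).trans h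
  unfold FP
  refine (natDegree_mul_le).trans ?_
  refine (Nat.add_le_add (natDegree_mul_le) le_rfl).trans ?_
  refine (Nat.add_le_add (Nat.add_le_add le_rfl natDegree_mul_le) le_rfl).trans ?_
  have e1 := natDegree_add_le_of_degree_le h4 (c (v ^ 4) 4)
  have e2 := natDegree_sub_le_of_le (natDegree_sub_le_of_le h2 (m (2 * v) _ 2 (h1.trans (by norm_num))))
    (c (v ^ 2) 2)
  have e3 := natDegree_sub_le_of_le (natDegree_add_le_of_degree_le h2 (m (2 * v) _ 2 (h1.trans (by norm_num))))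
    (c (v ^ 2) 2)
  have e4 := natDegree_add_le_of_degree_le (natDegree_add_le_of_degree_le h4 (m (6 * v ^ 2) _ 4 (h2.trans (by norm_num))))
    (c (v ^ 4) 4)
  simp only [max_self] at e2 e3
  omega

/-- no fixed prime divisor -/
lemma no_fixed (Y : ℕ) (v : ℤ) (hv : v % 6 = 1) (p : ℕ) (hp : p.Prime) :
    ∃ y : ℤ, ¬ (p : ℤ) ∣ (FP Y v).eval y := by
  have hpp : Prime (p : ℤ) := Nat.prime_iff_prime_int.1 hp
  by_cases h2 : p = 2
  · refine ⟨0, fun h => ?_⟩
    rw [evalFP, h2] at h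
    have hu : (6 * (3 * (Y : ℤ) + 0) + 2) % 2 = 0 := by omega
    have hv2 : v % 2 = 1 := by omega
    generalize 6 * (3 * (Y : ℤ) + 0) + 2 = u at h hu
    have e : gF u v % 2 = 1 := by
      have h1 : (gF u v : ZMod 2) = 1 := by
        have a1 : (u : ZMod 2) = 0 := by
          rw [ZMod.intCast_zmod_eq_zero_iff_dvd]
          exact Int.dvd_of_emod_eq_zero hu
        have a2 : (v : ZMod 2) = 1 := by
          have : (((v - 1 : ℤ)) : ZMod 2) = 0 := by
            rw [ZMod.intCast_zmod_eq_zero_iff_dvd]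
            omega
          push_cast at this
          linear_combination this
        simp only [gF, ga, gb, gp, gq, gc]
        push_cast
        rw [a1, a2]
        decide
      have h3 : ((gF u v - 1 : ℤ) : ZMod 2) = 0 := by push_cast; rw [h1]; ring
      rw [ZMod.intCast_zmod_eq_zero_iff_dvd] at h3
      omega
    omega
  by_cases h3 : p = 3
  · refine ⟨0, fun h => ?_⟩
    rw [evalFP, h3] at h
    have hu : (6 * (3 * (Y : ℤ) + 0) + 2) % 3 = 2 := by omega
    have hv3 : v % 3 = 1 := by omega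
    generalize 6 * (3 * (Y : ℤ) + 0) + 2 = u at h hu
    have e : (gF u v : ZMod 3) ≠ 0 := by
      have a1 : (u : ZMod 3) = 2 := by
        have : (((u - 2 : ℤ)) : ZMod 3) = 0 := by
          rw [ZMod.intCast_zmod_eq_zero_iff_dvd]
          omega
        push_cast at this
        linear_combination this
      have a2 : (v : ZMod 3) = 1 := by
        have : (((v - 1 : ℤ)) : ZMod 3) = 0 := by
          rw [ZMod.intCast_zmod_eq_zero_iff_dvd]
          omega
        push_cast at this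
        linear_combination this
      simp only [gF, ga, gb, gp, gq, gc]
      push_cast
      rw [a1, a2]
      decide
    apply e
    rw [ZMod.intCast_zmod_eq_zero_iff_dvd]
    exact h
  -- `p ≥ 5`
  have hcop : IsCoprime (6 : ℤ) (p : ℤ) := by
    have h6 : Nat.Coprime 6 p := by
      rw [Nat.coprime_comm, Nat.Prime.coprime_iff_not_dvd hp]
      intro hd
      have h5 : p ∣ 2 * 3 := hd
      rcases (Nat.Prime.dvd_mul hp).1 h5 with h7 | h7
      · exact h2 ((Nat.prime_dvd_prime_iff_eq hp Nat.prime_two).1 h7)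
      · exact h3 ((Nat.prime_dvd_prime_iff_eq hp Nat.prime_three).1 h7)
    exact Nat.isCoprime_iff_coprime.2 h6
  obtain ⟨a, b, hab⟩ := hcop
  -- a value `y` with `u ≡ r`
  have hres : ∀ r : ℤ, ∃ y : ℤ, (p : ℤ) ∣ 6 * (3 * (Y : ℤ) + y) + 2 - r := by
    intro r
    refine ⟨a * (r - 2) - 3 * Y, ⟨-(b * (r - 2)), ?_⟩⟩
    linear_combination (r - 2) * hab
  have hF : Fact p.Prime := ⟨hp⟩
  by_cases hpv : (p : ℤ) ∣ v
  · obtain ⟨y, hy⟩ := hres 1
    refine ⟨y, fun h => ?_⟩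
    rw [evalFP] at h
    generalize 6 * (3 * (Y : ℤ) + y) + 2 = u at h hy
    rw [← ZMod.intCast_zmod_eq_zero_iff_dvd] at h hy hpv
    push_cast at hy
    have a1 : (u : ZMod p) = 1 := by linear_combination hy
    simp only [gF, ga, gb, gp, gq, gc] at h
    push_cast at h
    rw [a1, hpv] at h
    have h1 : (1 : ZMod p) = 0 := by linear_combination h
    exact one_ne_zero h1
  · obtain ⟨y, hy⟩ := hres 0
    refine ⟨y, fun h => ?_⟩
    rw [evalFP] at h
    rw [sub_zero] at hy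
    generalize 6 * (3 * (Y : ℤ) + y) + 2 = u at h hy
    rw [← ZMod.intCast_zmod_eq_zero_iff_dvd] at h hy hpv
    simp only [gF, ga, gb, gp, gq, gc] at h
    push_cast at h
    rw [hy] at h
    have h1 : ((v : ℤ) : ZMod p) ^ 12 = 0 := by linear_combination h
    exact hpv (pow_eq_zero_iff (by norm_num) |>.1 h1)

end SV2M

open SV2M in
open scoped Classical in
theorem specSV2 : SpecSV2 := by
  obtain ⟨C, hC⟩ := Pool.Agent.Lib.MP_3efbeb_nt.SV.specSieveP 12
  refine ⟨C + 1, by omega, fun z Y v hz hY hv => ?_⟩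
  have hz1 : (1 : ℝ) ≤ z := by linarith
  have hzC : z ^ C ≤ (Y : ℝ) := (pow_le_pow_right₀ hz1 (Nat.le_succ C)).trans hY
  have hs := hC (FP Y v) z Y (degFP Y v) hz hzC (fun p hp _ => no_fixed Y v hv p hp)
  have hlog : 0 ≤ Real.log z := Real.log_nonneg hz1
  have hup : ((C : ℝ) * (1 + Real.log z)) ^ C ≤ (((C + 1 : ℕ) : ℝ) * (1 + Real.log z)) ^ (C + 1) := by
    push_cast
    have h1 : ((C : ℝ) * (1 + Real.log z)) ^ C ≤ (((C : ℝ) + 1) * (1 + Real.log z)) ^ C := by
      refine pow_le_pow_left₀ (by positivity) ?_ _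
      nlinarith
    refine h1.trans (pow_le_pow_right₀ ?_ (by omega))
    nlinarith [(Nat.cast_nonneg C : (0 : ℝ) ≤ C)]
  have hset : {y : ℕ | 1 ≤ y ∧ y ≤ Y ∧ Rough z (gF (uY Y y) v)} =
      ↑((Finset.Icc 1 Y).filter (fun y : ℕ => ∀ p : ℕ, p.Prime → (p : ℝ) < z →
        ¬ (p : ℤ) ∣ (FP Y v).eval (y : ℤ))) := by
    ext y
    simp only [Set.mem_setOf_eq, Finset.coe_filter, Finset.mem_Icc, Rough, uY, evalFP, and_assoc]
  rw [hset, Set.ncard_coe_finset]
  refine hs.trans ?_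
  exact mul_le_mul_of_nonneg_right hup (Nat.cast_nonneg _)

end Pool.Agent.Lib.MPad6874
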