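import Pool.Agent.Lib.MP_ad6874_nt.Spec2

/-!
# MP_ad6874_nt: tail of the sum of `1 / n ^ 2` (TS2)
-/

set_option autoImplicit false

namespace Pool.Agent.Lib.MPad6874

namespace TS2M

theorem aux (m : ℕ) (hm : 1 ≤ m) (k : ℕ) :
    ∑ n ∈ Finset.Icc m (m + k), (1 : ℝ) / (n : ℝ) ^ 2 ≤ 2 / m - 1 / ((m + k : ℕ) : ℝ) := by
  have hm0 : (0 : ℝ) < m := by exact_mod_cast hm
  have hm1 : (1 : ℝ) ≤ m := by exact_mod_cast hm
  induction k with
  | zero =>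
    rw [Nat.add_zero, Finset.Icc_self, Finset.sum_singleton]
    have : (1 : ℝ) / (m : ℝ) ^ 2 ≤ 1 / m := by
      apply one_div_le_one_div_of_le hm0
      nlinarith
    have e : (2 : ℝ) / m - 1 / m = 1 / m := by ring
    rw [e]
    exact this
  | succ k ih =>
    rw [← add_assoc, Finset.sum_Icc_succ_top (by omega)]
    have hx : (0 : ℝ) < ((m + k : ℕ) : ℝ) := by exact_mod_cast (by omega : 0 < m + k)
    have h1 : (1 : ℝ) / ((m + k + 1 : ℕ) : ℝ) ^ 2 ≤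
        1 / ((m + k : ℕ) : ℝ) - 1 / ((m + k + 1 : ℕ) : ℝ) := by
      rw [Nat.cast_succ (m + k)]
      generalize ((m + k : ℕ) : ℝ) = x at hx
      have e : 1 / x - 1 / (x + 1) = 1 / (x * (x + 1)) := by
        field_simp
        ring
      rw [e]
      apply one_div_le_one_div_of_le (by positivity)
      nlinarith
    linarith

end TS2M

theorem specTS2 : SpecTS2 := by
  intro z N hz
  have hz0 : 0 < z := by linarith
  have hm : 1 ≤ ⌈z⌉₊ := Nat.one_le_iff_ne_zero.2 (by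
    intro h
    rw [Nat.ceil_eq_zero] at h
    linarith)
  have hmz : z ≤ (⌈z⌉₊ : ℝ) := Nat.le_ceil z
  have hsub : (Finset.Icc 1 N).filter (fun n : ℕ => z ≤ (n : ℝ)) ⊆ Finset.Icc ⌈z⌉₊ (⌈z⌉₊ + N) := by
    intro n hn
    rw [Finset.mem_filter, Finset.mem_Icc] at hn
    rw [Finset.mem_Icc]
    exact ⟨Nat.ceil_le.2 hn.2, by omega⟩
  calc _ ≤ ∑ n ∈ Finset.Icc ⌈z⌉₊ (⌈z⌉₊ + N), (1 : ℝ) / (n : ℝ) ^ 2 :=
        Finset.sum_le_sum_of_subset_of_nonneg hsub fun n _ _ => by positivity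
    _ ≤ 2 / (⌈z⌉₊ : ℝ) - 1 / ((⌈z⌉₊ + N : ℕ) : ℝ) := TS2M.aux _ hm N
    _ ≤ 2 / (⌈z⌉₊ : ℝ) := by
        have : (0 : ℝ) ≤ 1 / ((⌈z⌉₊ + N : ℕ) : ℝ) := by positivity
        linarith
    _ ≤ 2 / z := by gcongr

end Pool.Agent.Lib.MPad6874
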