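import Pool.Agent.Lib.MP_ad6874_nt.Spec

/-!
# VAL: the descent map has even valuations outside `2 d` (MP_ad6874_nt)
-/

set_option autoImplicit false

namespace Pool.Agent.Lib.MPad6874

namespace VALM

/-- An integer prime to `p` has valuation `0`. -/
theorem val_int {p : ℕ} {z : ℤ} (h : ¬ (p : ℤ) ∣ z) : padicValRat p (z : ℚ) = 0 := by
  rw [padicValRat.of_int, padicValInt.eq_zero_of_not_dvd h]
  rfl

/-- The main case. -/
theorem even_of {p : ℕ} (hp : p.Prime) {a b c y : ℚ} (ha : a ≠ 0) (hb : b ≠ 0) (hc : c ≠ 0)
    (hab : b - a ≠ 0) (hac : c - a ≠ 0) (vab : padicValRat p (b - a) = 0)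
    (vac : padicValRat p (c - a) = 0) (h : y ^ 2 = a * b * c) : Even (padicValRat p a) := by
  have : Fact p.Prime := ⟨hp⟩
  have hy : y ≠ 0 := by
    intro h0
    rw [h0] at h
    have : a * b * c ≠ 0 := mul_ne_zero (mul_ne_zero ha hb) hc
    apply this
    rw [← h]
    norm_num
  have hv : 2 * padicValRat p y = padicValRat p a + padicValRat p b + padicValRat p c := by
    rw [← padicValRat.mul ha hb, ← padicValRat.mul (mul_ne_zero ha hb) hc, ← h, padicValRat.pow]
    norm_num
  rcases lt_trichotomy (padicValRat p a) 0 with hlt | heq | hgt
  · have h1 : padicValRat p b = padicValRat p a := by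
      have := padicValRat.add_eq_of_lt (p := p) (q := a) (r := b - a) (by simpa using hb) ha hab
        (by rw [vab]; exact hlt)
      simpa using this
    have h2 : padicValRat p c = padicValRat p a := by
      have := padicValRat.add_eq_of_lt (p := p) (q := a) (r := c - a) (by simpa using hc) ha hac
        (by rw [vac]; exact hlt)
      simpa using this
    rw [h1, h2] at hv
    exact ⟨padicValRat p y - padicValRat p a, by linarith⟩
  · rw [heq]
    exact Even.zero
  · have h1 : padicValRat p b = 0 := by
      have := padicValRat.add_eq_of_lt (p := p) (q := b - a) (r := a) (by simpa using hb) hab ha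
        (by rw [vab]; exact hgt)
      rw [vab] at this
      simpa using this
    have h2 : padicValRat p c = 0 := by
      have := padicValRat.add_eq_of_lt (p := p) (q := c - a) (r := a) (by simpa using hc) hac ha
        (by rw [vac]; exact hgt)
      rw [vac] at this
      simpa using this
    rw [h1, h2] at hv
    exact ⟨padicValRat p y, by linarith⟩

end VALM

open VALM in
theorem specVAL (hBAS : SpecBAS) : SpecVAL := by
  intro d p hd hp hpd P i
  have : Fact p.Prime := ⟨hp⟩
  have hdq : (d : ℚ) ≠ 0 := by exact_mod_cast hd
  have hnd : ¬ (p : ℤ) ∣ d := fun h => hpd (h.mul_left 2)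
  have hpi : Prime (p : ℤ) := Nat.prime_iff_prime_int.mp hp
  have v1 : padicValRat p (d : ℚ) = 0 := val_int hnd
  have v2 : padicValRat p (2 * (d : ℚ)) = 0 := by
    have := val_int hpd
    push_cast at this
    exact this
  have v3 : padicValRat p (d ^ 2 : ℚ) = 0 := by
    have h : ¬ (p : ℤ) ∣ d ^ 2 := fun h => hnd (hpi.dvd_of_dvd_pow h)
    have := val_int h
    push_cast at this
    exact this
  have v4 : padicValRat p (2 * d ^ 2 : ℚ) = 0 := by
    have h : ¬ (p : ℤ) ∣ 2 * d ^ 2 := by
      intro h
      have h' : (p : ℤ) ∣ (2 * d) * d := by
        have : (2 * d) * d = 2 * d ^ 2 := by ring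
        rw [this]; exact h
      rcases hpi.dvd_or_dvd h' with h | h
      · exact hpd h
      · exact hnd h
    have := val_int h
    push_cast at this
    exact this
  have hdv : padicValRat p (dv d i) = 0 := by
    fin_cases i
    · change padicValRat p (-(d : ℚ) ^ 2) = 0
      rw [padicValRat.neg]
      exact v3
    · exact v4
    · exact v4
  rcases P with _ | ⟨x, y, h⟩
  · change Even (padicValRat p 1)
    rw [padicValRat.one]
    exact Even.zero
  · change Even (padicValRat p (if x = rt d i then dv d i else x - rt d i))
    have hE : y ^ 2 = x ^ 3 - (d : ℚ) ^ 2 * x := (hBAS.eqn d x y).mp h.1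
    split_ifs with hx
    · rw [hdv]
      exact Even.zero
    · have r0 : rt d 0 = 0 := rfl
      have r1 : rt d 1 = (d : ℚ) := rfl
      have r2 : rt d 2 = -(d : ℚ) := rfl
      have n2 : (2 * (d : ℚ)) ≠ 0 := by positivity
      have vn1 : padicValRat p (-(d : ℚ)) = 0 := by rw [padicValRat.neg]; exact v1
      have vn2 : padicValRat p (-(2 * (d : ℚ))) = 0 := by rw [padicValRat.neg]; exact v2
      by_cases h0 : x = 0
      · subst h0
        fin_cases i
        · exact absurd r0.symm hx
        · change Even (padicValRat p (0 - (d : ℚ)))
          rw [zero_sub, vn1]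
          exact Even.zero
        · change Even (padicValRat p (0 - -(d : ℚ)))
          rw [zero_sub, neg_neg, v1]
          exact Even.zero
      by_cases h1 : x = (d : ℚ)
      · subst h1
        fin_cases i
        · change Even (padicValRat p ((d : ℚ) - 0))
          rw [sub_zero, v1]
          exact Even.zero
        · exact absurd r1.symm hx
        · change Even (padicValRat p ((d : ℚ) - -(d : ℚ)))
          have : (d : ℚ) - -(d : ℚ) = 2 * d := by ring
          rw [this, v2]
          exact Even.zero
      by_cases h2 : x = -(d : ℚ)
      · subst h2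
        fin_cases i
        · change Even (padicValRat p (-(d : ℚ) - 0))
          rw [sub_zero, vn1]
          exact Even.zero
        · change Even (padicValRat p (-(d : ℚ) - (d : ℚ)))
          have : -(d : ℚ) - (d : ℚ) = -(2 * d) := by ring
          rw [this, vn2]
          exact Even.zero
        · exact absurd r2.symm hx
      have n0 : x ≠ 0 := h0
      have m1 : x - (d : ℚ) ≠ 0 := sub_ne_zero.mpr h1
      have m2 : x + (d : ℚ) ≠ 0 := by
        intro h
        exact h2 (by linarith)
      fin_cases i
      · change Even (padicValRat p (x - 0))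
        rw [sub_zero]
        refine even_of hp (b := x - d) (c := x + d) (y := y) n0 m1 m2 ?_ ?_ ?_ ?_ ?_
        · have : x - d - x = -(d : ℚ) := by ring
          rw [this]; exact neg_ne_zero.mpr hdq
        · have : x + d - x = (d : ℚ) := by ring
          rw [this]; exact hdq
        · have : x - d - x = -(d : ℚ) := by ring
          rw [this]; exact vn1
        · have : x + d - x = (d : ℚ) := by ring
          rw [this]; exact v1
        · rw [hE]; ring
      · change Even (padicValRat p (x - (d : ℚ)))
        refine even_of hp (b := x) (c := x + d) (y := y) m1 n0 m2 ?_ ?_ ?_ ?_ ?_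
        · have : x - (x - d) = (d : ℚ) := by ring
          rw [this]; exact hdq
        · have : x + d - (x - d) = 2 * (d : ℚ) := by ring
          rw [this]; exact n2
        · have : x - (x - d) = (d : ℚ) := by ring
          rw [this]; exact v1
        · have : x + d - (x - d) = 2 * (d : ℚ) := by ring
          rw [this]; exact v2
        · rw [hE]; ring
      · change Even (padicValRat p (x - -(d : ℚ)))
        rw [sub_neg_eq_add]
        refine even_of hp (b := x) (c := x - d) (y := y) m2 n0 m1 ?_ ?_ ?_ ?_ ?_
        · have : x - (x + d) = -(d : ℚ) := by ring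
          rw [this]; exact neg_ne_zero.mpr hdq
        · have : x - d - (x + d) = -(2 * (d : ℚ)) := by ring
          rw [this]; exact neg_ne_zero.mpr n2
        · have : x - (x + d) = -(d : ℚ) := by ring
          rw [this]; exact vn1
        · have : x - d - (x + d) = -(2 * (d : ℚ)) := by ring
          rw [this]; exact vn2
        · rw [hE]; ring

end Pool.Agent.Lib.MPad6874
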