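import Pool.Agent.Lib.MP_ad6874_nt.BAS
import Pool.Agent.Lib.MP_ad6874_nt.HOM
import Pool.Agent.Lib.MP_ad6874_nt.INJ
import Pool.Agent.Lib.MP_ad6874_nt.VAL
import Pool.Agent.Lib.MP_ad6874_nt.IDX
import Pool.Agent.Lib.MP_ad6874_nt.HGT
import Pool.Agent.Lib.MP_ad6874_nt.RNK
import Pool.Agent.Lib.MP_ad6874_nt.MWR
import Pool.Agent.Lib.MP_ad6874_nt.GRP
import Pool.Agent.Lib.MP_ad6874_nt.AR2
import Pool.Agent.Lib.MP_ad6874_nt.PT2
import Pool.Agent.Lib.MP_ad6874_nt.IN2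
import Pool.Agent.Lib.MP_ad6874_nt.SV2
import Pool.Agent.Lib.MP_ad6874_nt.TS2
import Pool.Agent.Lib.MP_ad6874_nt.SP2
import Pool.Agent.Lib.MP_ad6874_nt.PB2
import Pool.Agent.Lib.MP_ad6874_nt.RC2
import Pool.Agent.Lib.MP_ad6874_nt.RS2
import Pool.Agent.Lib.MP_ad6874_nt.FB2
import Pool.Agent.Lib.MP_ad6874_nt.CN2
import Pool.Agent.Lib.MP_ad6874_nt.FN2

/-!
# The assembled theorem (version 2)
-/

set_option autoImplicit false

namespace Pool.Agent.Lib.MPad6874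

theorem allHOM : SpecHOM := specHOM specBAS

theorem allINJ : SpecINJ := specINJ specBAS allHOM

theorem allMWR : SpecMWR :=
  specMWR (specIDX specBAS allHOM allINJ (specVAL specBAS)) (specHGT specBAS) specRNK

theorem allCN2 : SpecCN2 :=
  specCN2 specAR2 specSV2 (specRC2 specTS2) (specRS2 specAR2 specTS2 (specPB2 specSP2)) (specFB2 specAR2)

theorem allFN2 : SpecFN2 :=
  specFN2 allMWR (specIN2 specBAS allHOM allINJ specGRP specAR2 (specPT2 specBAS specAR2)) allCN2 specAR2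

end Pool.Agent.Lib.MPad6874
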