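import Pool.Agent.Lib.MP_ad6874_nt.Spec3

/-!
# Module PT3: the three points on `cur D` for `D ~ s`
-/

set_option autoImplicit false

namespace Pool.Agent.Lib.MPad6874

namespace PT3M

theorem mk (hBAS : SpecBAS) {s q D : ℤ} {N x y l : ℚ} (hl : l ≠ 0) (hD : (D : ℚ) = (s : ℚ) * l ^ 2)
    (hs : 0 < s) (hq : (s : ℚ) * (q : ℚ) ^ 2 = N)
    (hN : N * y ^ 2 = x ^ 3 - x) (h0 : x ≠ 0) (h1 : x - 1 ≠ 0) (h2 : x + 1 ≠ 0) :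
    ∃ P : Pt D, del D 0 P = (D : ℚ) * x ∧
      del D 1 P = (D : ℚ) * (x - 1) ∧ del D 2 P = (D : ℚ) * (x + 1) := by
  have hS : (s : ℚ) ≠ 0 := by
    have : s ≠ 0 := by omega
    exact_mod_cast this
  have hD0 : (D : ℚ) ≠ 0 := by
    rw [hD]
    exact mul_ne_zero hS (pow_ne_zero 2 hl)
  have hd : D ≠ 0 := by exact_mod_cast hD0
  have heq : ((D : ℚ) ^ 2 * q * y / l) ^ 2 = ((D : ℚ) * x) ^ 3 - (D : ℚ) ^ 2 * ((D : ℚ) * x) := by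
    have h3 : ((D : ℚ) * x) ^ 3 - (D : ℚ) ^ 2 * ((D : ℚ) * x) = (D : ℚ) ^ 3 * (x ^ 3 - x) := by ring
    rw [h3, ← hN, ← hq, hD]
    field_simp
  refine ⟨.some ((D : ℚ) * x) ((D : ℚ) ^ 2 * q * y / l) (hBAS.nons D _ _ hd heq), ?_, ?_, ?_⟩
  · show (if (D : ℚ) * x = rt D 0 then dv D 0 else (D : ℚ) * x - rt D 0) = _
    have hr : rt D 0 = 0 := rfl
    rw [hr, if_neg (mul_ne_zero hD0 h0), sub_zero]
  · show (if (D : ℚ) * x = rt D 1 then dv D 1 else (D : ℚ) * x - rt D 1) = _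
    have hr : rt D 1 = (D : ℚ) := rfl
    have h5 : (D : ℚ) * x - (D : ℚ) = (D : ℚ) * (x - 1) := by ring
    rw [hr, if_neg, h5]
    intro h
    rw [← sub_eq_zero, h5] at h
    exact mul_ne_zero hD0 h1 h
  · show (if (D : ℚ) * x = rt D 2 then dv D 2 else (D : ℚ) * x - rt D 2) = _
    have hr : rt D 2 = -(D : ℚ) := rfl
    have h5 : (D : ℚ) * x - -(D : ℚ) = (D : ℚ) * (x + 1) := by ring
    rw [hr, if_neg, h5]
    intro h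
    rw [← sub_eq_zero, h5] at h
    exact mul_ne_zero hD0 h2 h

theorem sq {S Q N x z t l E : ℚ} (hE : E = S * l ^ 2) (hq : S * Q ^ 2 = N) (h : x * z = N * t ^ 2) :
    IsSquare (E * x * z) := by
  refine ⟨S * l * Q * t, ?_⟩
  have h1 : E * x * z = E * (x * z) := by ring
  rw [h1, h, ← hq, hE]
  ring

/-- the common shape of the three points -/
theorem one (hBAS : SpecBAS) {s q D : ℤ} {N x w y z0 z1 z2 m0 m1 m2 t0 t1 t2 l : ℚ} (hl : l ≠ 0)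
    (hD : (D : ℚ) = (s : ℚ) * l ^ 2) (hs : 0 < s)
    (hq : (s : ℚ) * (q : ℚ) ^ 2 = N) (hw : w ≠ 0) (hx : x = m0 / w) (h1 : x - 1 = m1 / w)
    (h2 : x + 1 = m2 / w) (hm0 : m0 ≠ 0) (hm1 : m1 ≠ 0) (hm2 : m2 ≠ 0)
    (hN : N * y ^ 2 = m0 / w * (m1 / w) * (m2 / w)) (e0 : m0 / w * z0 = N * t0 ^ 2)
    (e1 : m1 / w * z1 = N * t1 ^ 2) (e2 : m2 / w * z2 = N * t2 ^ 2) :
    ∃ P : Pt D, IsSquare (del D 0 P * z0) ∧ IsSquare (del D 1 P * z1) ∧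
      IsSquare (del D 2 P * z2) := by
  have hx0 : x ≠ 0 := by
    rw [hx]
    exact div_ne_zero hm0 hw
  have hx1 : x - 1 ≠ 0 := by
    rw [h1]
    exact div_ne_zero hm1 hw
  have hx2 : x + 1 ≠ 0 := by
    rw [h2]
    exact div_ne_zero hm2 hw
  have h3 : N * y ^ 2 = x ^ 3 - x := by
    rw [hN, ← hx, ← h1, ← h2]
    ring
  obtain ⟨P, hP0, hP1, hP2⟩ := mk hBAS hl hD hs hq h3 hx0 hx1 hx2
  refine ⟨P, ?_, ?_, ?_⟩
  · rw [hP0]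
    exact sq hD hq (by rw [hx]; exact e0)
  · rw [hP1]
    exact sq hD hq (by rw [h1]; exact e1)
  · rw [hP2]
    exact sq hD hq (by rw [h2]; exact e2)

end PT3M

open PT3M in
theorem specPT3 (hBAS : SpecBAS) (hAR2 : SpecAR2) : SpecPT3 := by
  rintro u v s D ⟨hPr, _, hs, q, hq⟩ ⟨l, hl, hD⟩
  obtain ⟨ha, hp, hqq, hc⟩ := hAR2.pos u v hPr
  obtain ⟨_, _, hv0, huv, _⟩ := hPr
  have hb : 0 < gb u v := mul_pos hp hqq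
  obtain ⟨U, hU⟩ : ∃ U : ℚ, U = (u : ℚ) := ⟨_, rfl⟩
  obtain ⟨V, hV⟩ : ∃ V : ℚ, V = (v : ℚ) := ⟨_, rfl⟩
  have hV0 : 0 < V := by
    rw [hV]
    exact_mod_cast hv0
  have hUV : 3 * V ≤ U := by
    rw [hU, hV]
    exact_mod_cast huv
  have hU0 : 0 < U := by linarith
  have hA : ((ga u v : ℤ) : ℚ) = U ^ 4 + V ^ 4 := by
    rw [ga, hU, hV]
    push_cast
    ring
  have hB : ((gb u v : ℤ) : ℚ) = U ^ 4 - 6 * U ^ 2 * V ^ 2 + V ^ 4 := by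
    rw [gb, gp, gq, hU, hV]
    push_cast
    ring
  have hC : ((gc u v : ℤ) : ℚ) = U ^ 4 + 6 * U ^ 2 * V ^ 2 + V ^ 4 := by
    rw [gc, hU, hV]
    push_cast
    ring
  have ha' : (0 : ℚ) < U ^ 4 + V ^ 4 := by
    rw [← hA]
    exact_mod_cast ha
  have hb' : (0 : ℚ) < U ^ 4 - 6 * U ^ 2 * V ^ 2 + V ^ 4 := by
    rw [← hB]
    exact_mod_cast hb
  have hc' : (0 : ℚ) < U ^ 4 + 6 * U ^ 2 * V ^ 2 + V ^ 4 := by
    rw [← hC]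
    exact_mod_cast hc
  have hUm : U ^ 2 - V ^ 2 ≠ 0 := by nlinarith
  have hUp : U ^ 2 + V ^ 2 ≠ 0 := by positivity
  have hUn : U ≠ 0 := hU0.ne'
  have hVn : V ≠ 0 := hV0.ne'
  have hq' : (s : ℚ) * (q : ℚ) ^ 2 = 6 * ((U ^ 4 + V ^ 4) * (U ^ 4 - 6 * U ^ 2 * V ^ 2 + V ^ 4) *
      (U ^ 4 + 6 * U ^ 2 * V ^ 2 + V ^ 4)) := by
    have : ((s * q ^ 2 : ℤ) : ℚ) = ((6 * gF u v : ℤ) : ℚ) := by rw [hq]
    rw [gF] at this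
    push_cast at this
    rw [hA, hB, hC] at this
    exact this
  obtain ⟨P0, hP0⟩ := one hBAS (s := s) (q := q) (D := D) (l := l) hl hD
    (N := 6 * ((U ^ 4 + V ^ 4) * (U ^ 4 - 6 * U ^ 2 * V ^ 2 + V ^ 4) *
      (U ^ 4 + 6 * U ^ 2 * V ^ 2 + V ^ 4)))
    (x := (U ^ 4 + V ^ 4) / (6 * (U * V) ^ 2)) (w := 6 * (U * V) ^ 2)
    (y := 1 / (36 * (U * V) ^ 3))
    (z0 := ((gb u v * gc u v : ℤ) : ℚ)) (z1 := ((ga u v * gc u v : ℤ) : ℚ))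
    (z2 := ((ga u v * gb u v : ℤ) : ℚ))
    (m0 := U ^ 4 + V ^ 4) (m1 := U ^ 4 - 6 * U ^ 2 * V ^ 2 + V ^ 4)
    (m2 := U ^ 4 + 6 * U ^ 2 * V ^ 2 + V ^ 4)
    (t0 := 1 / (6 * (U * V))) (t1 := 1 / (6 * (U * V))) (t2 := 1 / (6 * (U * V)))
    hs hq' (by positivity) rfl (by field_simp; ring) (by field_simp; ring) ha'.ne' hb'.ne' hc'.ne'
    (by field_simp; ring)
    (by push_cast; rw [hB, hC]; field_simp; try ring)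
    (by push_cast; rw [hA, hC]; field_simp; try ring)
    (by push_cast; rw [hA, hB]; field_simp; try ring)
  obtain ⟨P1, hP1⟩ := one hBAS (s := s) (q := q) (D := D) (l := l) hl hD
    (N := 6 * ((U ^ 4 + V ^ 4) * (U ^ 4 - 6 * U ^ 2 * V ^ 2 + V ^ 4) *
      (U ^ 4 + 6 * U ^ 2 * V ^ 2 + V ^ 4)))
    (x := -(U ^ 4 + 6 * U ^ 2 * V ^ 2 + V ^ 4) / (3 * (U ^ 2 - V ^ 2) ^ 2))
    (w := 3 * (U ^ 2 - V ^ 2) ^ 2)
    (y := 2 / (9 * (U ^ 2 - V ^ 2) ^ 3))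
    (z0 := ((-2 * (ga u v * gb u v) : ℤ) : ℚ)) (z1 := ((-2 * (gb u v * gc u v) : ℤ) : ℚ))
    (z2 := ((ga u v * gc u v : ℤ) : ℚ))
    (m0 := -(U ^ 4 + 6 * U ^ 2 * V ^ 2 + V ^ 4)) (m1 := -4 * (U ^ 4 + V ^ 4))
    (m2 := 2 * (U ^ 4 - 6 * U ^ 2 * V ^ 2 + V ^ 4))
    (t0 := 1 / (3 * (U ^ 2 - V ^ 2))) (t1 := 2 / (3 * (U ^ 2 - V ^ 2)))
    (t2 := 1 / (3 * (U ^ 2 - V ^ 2)))
    hs hq' (by positivity) rfl (by field_simp; ring) (by field_simp; ring)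
    (neg_ne_zero.2 hc'.ne') (mul_ne_zero (by norm_num) ha'.ne') (mul_ne_zero (by norm_num) hb'.ne')
    (by field_simp; ring)
    (by push_cast; rw [hA, hB]; field_simp; try ring)
    (by push_cast; rw [hB, hC]; field_simp; try ring)
    (by push_cast; rw [hA, hC]; field_simp; try ring)
  obtain ⟨P2, hP2⟩ := one hBAS (s := s) (q := q) (D := D) (l := l) hl hD
    (N := 6 * ((U ^ 4 + V ^ 4) * (U ^ 4 - 6 * U ^ 2 * V ^ 2 + V ^ 4) *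
      (U ^ 4 + 6 * U ^ 2 * V ^ 2 + V ^ 4)))
    (x := -(U ^ 4 - 6 * U ^ 2 * V ^ 2 + V ^ 4) / (3 * (U ^ 2 + V ^ 2) ^ 2))
    (w := 3 * (U ^ 2 + V ^ 2) ^ 2)
    (y := 2 / (9 * (U ^ 2 + V ^ 2) ^ 3))
    (z0 := ((-2 * (ga u v * gc u v) : ℤ) : ℚ)) (z1 := ((-2 * (gb u v * gc u v) : ℤ) : ℚ))
    (z2 := ((ga u v * gb u v : ℤ) : ℚ))
    (m0 := -(U ^ 4 - 6 * U ^ 2 * V ^ 2 + V ^ 4)) (m1 := -4 * (U ^ 4 + V ^ 4))
    (m2 := 2 * (U ^ 4 + 6 * U ^ 2 * V ^ 2 + V ^ 4))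
    (t0 := 1 / (3 * (U ^ 2 + V ^ 2))) (t1 := 2 / (3 * (U ^ 2 + V ^ 2)))
    (t2 := 1 / (3 * (U ^ 2 + V ^ 2)))
    hs hq' (by positivity) rfl (by field_simp; ring) (by field_simp; ring)
    (neg_ne_zero.2 hb'.ne') (mul_ne_zero (by norm_num) ha'.ne') (mul_ne_zero (by norm_num) hc'.ne')
    (by field_simp; ring)
    (by push_cast; rw [hA, hC]; field_simp; try ring)
    (by push_cast; rw [hB, hC]; field_simp; try ring)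
    (by push_cast; rw [hA, hB]; field_simp; try ring)
  exact ⟨![P0, P1, P2], hP0, hP1, hP2⟩

end Pool.Agent.Lib.MPad6874
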