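import Pool.Agent.Lib.MP_ad6874_nt.Main2
import Pool.Agent.Lib.MP_ad6874_nt.PT3
import Pool.Agent.Lib.MP_ad6874_nt.IN3
import Pool.Agent.Lib.MP_ad6874_nt.DK3
import Pool.Agent.Lib.MP_ad6874_nt.FN3

/-!
# The assembled theorem (version 3)
-/

set_option autoImplicit false

namespace Pool.Agent.Lib.MPad6874

theorem allIN3 : SpecIN3 := specIN3 specBAS allHOM allINJ specGRP specAR2 (specPT3 specBAS specAR2)

theorem allFN3 : SpecFN3 := specFN3 allMWR allIN3 allCN2 specDK3

end Pool.Agent.Lib.MPad6874
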