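import Pool.Agent.Lib.MP_ad6874_nt.Spec

/-!
# NSQ: arithmetic of the three forms (MP_ad6874_nt)
-/

set_option autoImplicit false

namespace Pool.Agent.Lib.MPad6874

namespace NSQM

lemma pos_of (u : ℤ) (h4 : 4 ≤ u) : 0 < fa u ∧ 0 < fb u ∧ 0 < fc u := by
  unfold fa fb fc
  have h2 : 16 ≤ u ^ 2 := by nlinarith
  refine ⟨by positivity, by nlinarith, by positivity⟩

lemma dvd_odd (u : ℤ) (hu : Even u) : Odd (fa u) ∧ Odd (fb u) ∧ Odd (fc u) := by
  obtain ⟨k, hk⟩ := hu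
  have hk2 : u = 2 * k := by rw [hk]; ring
  subst hk2
  unfold fa fb fc
  refine ⟨⟨8 * k ^ 4, by ring⟩, ⟨8 * k ^ 4 - 12 * k ^ 2, by ring⟩,
    ⟨8 * k ^ 4 + 12 * k ^ 2, by ring⟩⟩

lemma thr_of (u : ℤ) : ¬ (3 : ℤ) ∣ fa u ∧ ¬ (3 : ℤ) ∣ fb u ∧ ¬ (3 : ℤ) ∣ fc u := by
  have key : ∀ z : ZMod 3, z ^ 4 + 1 ≠ 0 ∧ z ^ 4 - 6 * z ^ 2 + 1 ≠ 0 ∧
      z ^ 4 + 6 * z ^ 2 + 1 ≠ 0 := by decide
  obtain ⟨h1, h2, h3⟩ := key (u : ZMod 3)
  refine ⟨?_, ?_, ?_⟩
  · intro h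
    apply h1
    have := (ZMod.intCast_zmod_eq_zero_iff_dvd (fa u) 3).mpr (by exact_mod_cast h)
    unfold fa at this
    push_cast at this
    exact this
  · intro h
    apply h2
    have := (ZMod.intCast_zmod_eq_zero_iff_dvd (fb u) 3).mpr (by exact_mod_cast h)
    unfold fb at this
    push_cast at this
    exact this
  · intro h
    apply h3
    have := (ZMod.intCast_zmod_eq_zero_iff_dvd (fc u) 3).mpr (by exact_mod_cast h)
    unfold fc at this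
    push_cast at this
    exact this

/-- coprimality from a difference `12 u²` or `6 u²` -/
lemma cop (u x y m : ℤ) (hxo : Odd x) (hx3 : ¬ (3 : ℤ) ∣ x) (hxu : ∃ w, x = u * w + 1)
    (hm : y - x = m ∨ x - y = m) (hm6 : m = 6 * u ^ 2 ∨ m = 12 * u ^ 2) : IsCoprime x y := by
  have h2 : IsCoprime x 2 := by
    have h : ¬ (2 : ℤ) ∣ x := by
      intro h
      exact (Int.not_even_iff_odd.mpr hxo) (even_iff_two_dvd.mpr h)
    exact (((Int.prime_two).coprime_iff_not_dvd).mpr h).symm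
  have h3 : IsCoprime x 3 := (((Int.prime_three).coprime_iff_not_dvd).mpr hx3).symm
  have hu : IsCoprime x u := by
    obtain ⟨w, hw⟩ := hxu
    exact ⟨1, -w, by rw [hw]; ring⟩
  have hm' : IsCoprime x m := by
    rcases hm6 with h | h
    · rw [h, show (6 : ℤ) * u ^ 2 = 2 * 3 * u ^ 2 by ring]
      exact (h2.mul_right h3).mul_right (hu.pow_right)
    · rw [h, show (12 : ℤ) * u ^ 2 = 2 * (2 * 3) * u ^ 2 by ring]
      exact (h2.mul_right (h2.mul_right h3)).mul_right (hu.pow_right)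
  rcases hm with h | h
  · have : y = m + x * 1 := by linarith
    rw [this]
    exact hm'.add_mul_left_right 1
  · have : y = (-m) + x * 1 := by linarith
    rw [this]
    exact (hm'.neg_right).add_mul_left_right 1

lemma ua (u : ℤ) : ∃ w, fa u = u * w + 1 := ⟨u ^ 3, by unfold fa; ring⟩
lemma ub (u : ℤ) : ∃ w, fb u = u * w + 1 := ⟨u ^ 3 - 6 * u, by unfold fb; ring⟩
lemma uc (u : ℤ) : ∃ w, fc u = u * w + 1 := ⟨u ^ 3 + 6 * u, by unfold fc; ring⟩

lemma cop_ac (u : ℤ) (hu : Even u) : IsCoprime (fa u) (fc u) :=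
  cop u (fa u) (fc u) (6 * u ^ 2) (dvd_odd u hu).1 (thr_of u).1 (ua u)
    (Or.inl (by unfold fa fc; ring)) (Or.inl rfl)

lemma cop_bc (u : ℤ) (hu : Even u) : IsCoprime (fb u) (fc u) :=
  cop u (fb u) (fc u) (12 * u ^ 2) (dvd_odd u hu).2.1 (thr_of u).2.1 (ub u)
    (Or.inl (by unfold fb fc; ring)) (Or.inr rfl)

/-- `c` is not a square -/
lemma c_nsq (u : ℤ) (h4 : 4 ≤ u) (w : ℤ) : w ^ 2 ≠ fc u := by
  intro h
  unfold fc at h
  have h1 : (u ^ 2 + 2) ^ 2 < w ^ 2 := by nlinarith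
  have h2 : w ^ 2 < (u ^ 2 + 3) ^ 2 := by nlinarith
  have h3 : |u ^ 2 + 2| < |w| := sq_lt_sq.mp h1
  have h5 : |w| < |u ^ 2 + 3| := sq_lt_sq.mp h2
  have e3 : |u ^ 2 + 2| = u ^ 2 + 2 := abs_of_pos (by positivity)
  have e5 : |u ^ 2 + 3| = u ^ 2 + 3 := abs_of_pos (by positivity)
  rw [e3] at h3
  rw [e5] at h5
  omega

/-- a coprime positive cofactor of `c` -/
lemma cof (u x : ℤ) (h4 : 4 ≤ u) (hc : IsCoprime x (fc u)) : ¬ IsSquare (x * fc u) := by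
  rintro ⟨w, hw⟩
  have hc' : IsCoprime (fc u) x := hc.symm
  have hcp : 0 < fc u := (pos_of u h4).2.2
  obtain ⟨v, hv⟩ := Int.sq_of_isCoprime hc' (show fc u * x = w ^ 2 by rw [mul_comm, hw]; ring)
  rcases hv with hv | hv
  · exact c_nsq u h4 v hv.symm
  · nlinarith [sq_nonneg v]

end NSQM

open NSQM in
theorem specNSQ : SpecNSQ where
  pos := fun u _ h4 => pos_of u h4
  odd := fun u hu => by
    obtain ⟨h1, h2, h3⟩ := dvd_odd u hu
    exact (h1.mul h2).mul h3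
  thr := thr_of
  ac := fun u hu h4 h => by
    rw [Rat.isSquare_intCast_iff] at h
    exact cof u (fa u) h4 (cop_ac u hu) h
  bc := fun u hu h4 h => by
    rw [Rat.isSquare_intCast_iff] at h
    exact cof u (fb u) h4 (cop_bc u hu) h
  abc := fun u hu h4 h =>
    cof u (fa u * fb u) h4 ((cop_ac u hu).mul_left (cop_bc u hu)) h

end Pool.Agent.Lib.MPad6874
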