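import Pool.Agent.Lib.MP_ad6874_nt.Defs

/-!
# Specs with proofs (MP_ad6874_nt)

Target: for `E : y² = x³ - x` there are `R` and `θ > 0` such that for all large `X` at least `X^θ`
fundamental discriminants `|d| < X` have `E_d(ℚ)` finitely generated of rank between `3` and `R`.

Notation of the doc strings: `G = Pt d`, `e_i = rt d i` (`0, d, -d`), `δ_i = del d i`; `~` means
equal up to the square of a nonzero rational number. Do not open `Classical` (the `DecidableEq ℚ`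
instance of the group law must be the default one). Every Spec is a closed proposition; a module
`NAME.lean` proves `theorem specNAME (hOTHER : SpecOTHER) .. : SpecNAME` and imports only `Spec`.
-/

set_option autoImplicit false

namespace Pool.Agent.Lib.MPad6874

/-- **BAS.** Basic properties of `δ` (`d ≠ 0`).
Proof. `cur d` has discriminant `64 d⁶ ≠ 0`, and `Equation x y ↔ y² = x³ - d² x =
(x - e_0)(x - e_1)(x - e_2)`. `ell`: `WeierstrassCurve.isElliptic_iff` + `Δ` computed.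
`nz`: `δ_i` is `1`, or `dv d i ≠ 0`, or `x - e_i ≠ 0`. `neg`: `-(x, y) = (x, -y)`. `prd`: if `x` is no root the
product is `y²`; if `x = e_i` then `y = 0` and `dv d i = (e_i - e_j)(e_i - e_k)`, the product is
`((e_i - e_j)(e_i - e_k))²` (three cases). `tor`: `2 P = 0` iff `P = -P` iff `P = 0` or `y = 0`, i.e. `x` is a root. -/
structure SpecBAS : Prop where
  ell : ∀ d : ℤ, d ≠ 0 → (cur d).IsElliptic
  eqn : ∀ (d : ℤ) (x y : ℚ), (cur d).Equation x y ↔ y ^ 2 = x ^ 3 - (d : ℚ) ^ 2 * x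
  nons : ∀ (d : ℤ) (x y : ℚ), d ≠ 0 → y ^ 2 = x ^ 3 - (d : ℚ) ^ 2 * x → (cur d).Nonsingular x y
  nz : ∀ d : ℤ, d ≠ 0 → ∀ i P, del d i P ≠ 0
  neg : ∀ d : ℤ, ∀ i P, del d i (-P) = del d i P
  prd : ∀ d : ℤ, d ≠ 0 → ∀ P, IsSquare (del d 0 P * del d 1 P * del d 2 P)
  tor : ∀ d : ℤ, d ≠ 0 → ∀ P : Pt d, (2 : ℕ) • P = 0 → P = 0 ∨
    ∃ (i : Fin 3) (h : (cur d).Nonsingular (rt d i) 0), P = .some (rt d i) 0 h

/-- **HOM.** `δ_i` is a homomorphism modulo squares.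
Proof. Let `P, Q` be given, `e = e_i`. If `P = 0` or `Q = 0` or `Q = -P`: the product is `δ(Q)²`,
`δ(P)²` (BAS `neg`, `δ(0) = 1`). Otherwise `P = (x1, y1)`, `Q = (x2, y2)`, not (`x1 = x2` and
`y1 = -y2`), `ℓ` = the slope, `P + Q = (x3, ..)`, `x3 = addX x1 x2 ℓ` (`Affine.Point.add_some`).
`Affine.addPolynomial_slope`, evaluated at `T`:
`(ℓ (T - x1) + y1)² - (T³ - d² T) = -(T - x1)(T - x2)(T - x3)` for all `T` (*)
(`addPolynomial` is `W.polynomial` at `Y = line`; up to sign; or check with `field_simp` by hand).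
At `T = e`: `(x1 - e)(x2 - e)(x3 - e) = (ℓ (e - x1) + y1)²`. So if none of `x1, x2, x3` is `e` we are done.
If exactly one of them is `e`, then the line passes through `(e, 0)`: `ℓ (e - x1) + y1 = 0`, the line is
`ℓ (T - e)`, and dividing (*) by `T - e` (as polynomials, `T³ - d²T = (T-e)(T-e_j)(T-e_k)`) and putting
`T = e` gives `(e - e_j)(e - e_k) = product of (x - e)` over the other two, so the product of the
three `δ` is the square of that product (`dv d i = (e_i-e_j)(e_i-e_k)`). If at least two of the three are `e`: the same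
division shows `dv d i = 0`, which is false for `d ≠ 0`. (Uniform proof: from (*) for all `T` one gets
the identity of polynomials; with `z_k = x_k - e`, `m = ℓ (e - x1) + y1`, `f(T) = (T-e)((T-e)² + α (T-e) + D)`,
`D = dv d i`, comparing coefficients: `z1 z2 z3 = m²`, `z1 z2 + z1 z3 + z2 z3 = D - 2 ℓ m`. So if
`z1 = 0` then `m = 0` and `z2 z3 = D ≠ 0`; then the product is `D z2 z3 = D²`.) -/
def SpecHOM : Prop :=
  ∀ d : ℤ, d ≠ 0 → ∀ (i : Fin 3) (P Q : Pt d), IsSquare (del d i P * del d i Q * del d i (P + Q))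

/-- **INJ.** A point all of whose `δ_i` are squares is a double; and the torsion.
Proof. (1) `P = 0`: `Q = 0`. `P = (x, y)`, `x` no root: `x - e_i = r_i²`, `r_i ≠ 0`, `(r0 r1 r2)² = y²`, and
changing the sign of `r0` we may assume `r0 r1 r2 = -y` or `= y`, as needed. Put
`X = x + r0 r1 + r0 r2 + r1 r2`, `Y = (r0 + r1)(r0 + r2)(r1 + r2)`; then `X - e_0 = (r0+r1)(r0+r2)`,
`X - e_1 = (r1 + r0)(r1 + r2)`, `X - e_2 = (r2+r0)(r2+r1)`, so `Y² = X³ - d² X`, `Y ≠ 0` (`(r_i+r_j)(r_i-r_j) = e_j - e_i ≠ 0`).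
The tangent slope at `Q = (X, Y)` is `ℓ = (3X² - d²)/(2Y) = r0 + r1 + r2`, `x(2Q) = ℓ² - 2X = x`
(use `3x = r0²+r1²+r2²`, the sum of the roots is `0`), `y(2Q) = -(Y + ℓ(x - X)) = r0 r1 r2`. (See also
`Pool/Agent/Lib/MP_8cb858_nt/PR/DHA.lean` for the same computation; `Affine.Point.add_self_of_Y_ne`.)
`x = e_i` is impossible since `dv d i` is not a square: `-d² < 0`; `2 d²` is not a square in `ℚ` (`√2` irrational).
(2) If `4 T = 0` then `2 T` is 2-torsion, all `δ_i(2T)` are squares (HOM with `P = Q = T`: `δ_i(T)² δ_i(2T)` is a square)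
while for a 2-torsion point `P = (e_i, 0) ≠ 0` `δ_i(P) = dv d i` is not a square; so `2 T = 0` (BAS `tor`). -/
def SpecINJ : Prop :=
  (∀ d : ℤ, d ≠ 0 → ∀ P : Pt d, (∀ i, IsSquare (del d i P)) → ∃ Q : Pt d, (2 : ℕ) • Q = P) ∧
  (∀ d : ℤ, d ≠ 0 → ∀ T : Pt d, (4 : ℕ) • T = 0 → (2 : ℕ) • T = 0)

/-- **VAL.** `δ` has even valuation outside `2 d`.
Proof. `v = padicValRat p`, `p ∤ 2 d`. `P = 0`: `v(1) = 0`. `P = (x, y)`, `y² = (x-e_0)(x-e_1)(x-e_2)`. If `x = e_i`: `dv d i = -d²` or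
`2 d²`, valuation `0`. Let `x ≠ e_i`. If `y = 0`: `x = e_j`, `x - e_i` is `±d` or `±2d`, valuation `0`.
Let `y ≠ 0` (so all `x - e_j ≠ 0`; `2 v(y) = ∑ v(x - e_j)`). If `v(x - e_j) < 0` for one `j`, then
it is the same number for all `j` (the differences `e_j - e_k` have valuation `0`), `3 v = 2 v(y)`, `v` even.
If all are `≥ 0`: at most one is `> 0` (since `v(e_j - e_k) = 0`); if `v(x - e_i) > 0` it equals `2 v(y)`.
(`padicValRat.le_padicValRat_add_of_le`, `padicValRat.add_eq_of_lt`, ... or with `padicNorm` and its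
nonarchimedean property.) -/
def SpecVAL : Prop :=
  ∀ (d : ℤ) (p : ℕ), d ≠ 0 → p.Prime → ¬ (p : ℤ) ∣ 2 * d → ∀ (P : Pt d) (i : Fin 3),
    Even (padicValRat p (del d i P))

/-- **IDX.** The index of `2 G`.
Proof. Let `S` be the finite set of the primes dividing `2 d`, `|S| = om (2 d)`. Map
`Φ : G → (Fin 2 → (Bool × (S → ZMod 2)))`, `Φ P i = (δ_i(P) > 0, p ↦ v_p(δ_i(P)) mod 2)` for `i = 0, 1`.
If `Φ P = Φ Q` then for `i = 0, 1` the number `δ_i(P) δ_i(Q)` is positive with all valuations even (VAL outside `S`), hence a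
square in `ℚ` (numerator and denominator are squares); by `prd` also for `i = 2` (`δ_2 ~ δ_0 δ_1`).
By HOM (with `P` and `-Q`, BAS `neg`) `δ_i(P - Q)` is a square for all `i`, so `P - Q ∈ 2 G` (INJ).
So `G ⧸ 2G` injects into a set with `(2 * 2 ^ |S|)^2` elements. -/
def SpecIDX : Prop :=
  ∀ d : ℤ, d ≠ 0 → (nsmulAddMonoidHom (α := Pt d) 2).range.FiniteIndex ∧
    (nsmulAddMonoidHom (α := Pt d) 2).range.index ≤ 2 ^ (2 * (om (2 * d) + 1))

/-- **HGT.** A height function with the approximate parallelogram law and finiteness.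
Proof. `h P = Height.logHeight P.xRep` (`WeierstrassCurve.Affine.Point.xRep`: `![x, 1]`, `![1, 0]` for `0`), `K = ℚ`.
(1) `h ≥ 0` (`Height.zero_le_logHeight` or similar). (2) For all `P, Q` the vector `addSubMap W (sym2x P Q)` (evaluated) is a nonzero multiple of
`sym2x (P+Q) (P-Q)` (`Mathlib/AlgebraicGeometry/EllipticCurve/Affine/AddSubMap.lean`; here `b₂ = 0`,
`b₄ = -2 d²`, `b₆ = 0`, `b₈ = -d⁴`, so `F(s,t,u) = (s² + 2d² s u + d⁴ u², 2 t s - 2 d² t u, t² - 4 s u)`).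
Cases: `Q = 0`: `s = x², ..`: `sym2x P 0 = (x,1,0) ↦ (x², 2x, 1) = sym2x P P`. `P = 0` similar. `Q = ± P`:
`sym2x P P = (x², 2x, 1) ↦ ((x²+d²)², 4x(x²-d²), 0) = 4 y² (x(2P), 1, 0)` if `y ≠ 0`, `x(2P) = (x²+d²)²/(4y²)`, and `((x²+d²)²) (1,0,0)` if `y = 0`
(`x² + d² ≠ 0`). `x1 ≠ x2`: `u' = (x1-x2)²`, `x(P±Q) = ((y1 ∓ y2)/(x1-x2))² - x1 - x2`, so the sum and the product times `(x1-x2)²` are the
other two components (`field_simp; ring` with the two equations `linear_combination`). (3) `logHeight` is invariant under nonzero multiples (`Height.logHeight_smul_eq_logHeight`);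
`WeierstrassCurve.abs_logHeight_addSubMap_sub_two_mul_logHeight_le` gives `|h(F x) - 2 h(x)| ≤ C`, and
`Height.abs_logHeight_sym2_sub_le` (NumberTheory/Height) gives `|h(sym2 x y) - h(x) - h(y)| ≤ C'`; apply the second to
`(P, Q)` and to `(P+Q, P-Q)`. (4) Finiteness: `Northcott` for `mulHeight₁`/`logHeight₁` on `ℚ` (number fields), or `Height` of `x = m/n` is
`max |m| n`, and each `x` has at most two `y`. -/
def SpecHGT : Prop :=
  ∀ d : ℤ, d ≠ 0 → ∃ (h : Pt d → ℝ) (C : ℝ), (∀ P, 0 ≤ h P) ∧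
    (∀ P Q, |h (P + Q) + h (P - Q) - 2 * (h P + h Q)| ≤ C) ∧ (∀ B : ℝ, {P | h P ≤ B}.Finite)

/-- **RNK.** The rank of a finitely generated abelian group is at most the binary logarithm of the index of `2 G`.
Proof. `F = G ⧸ torsion` is finitely generated and torsion free, so free with a basis of `r = finrank ℤ G`
elements. `G → F ≅ (Fin r → ℤ) → (Fin r → ZMod 2)` is surjective with `2 G` in the kernel `K`: `2 ^ r = index K ≤ index (2 G)`
(`AddSubgroup.index_le_of_le` / `relindex`; finite index is given). (Or `G ≅ ℤ^r × finite`, `AddCommGroup.equiv_free_prod_directSum_zmod`.) -/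
def SpecRNK : Prop :=
  ∀ (G : Type) [AddCommGroup G] (k : ℕ), AddGroup.FG G →
    (nsmulAddMonoidHom (α := G) 2).range.FiniteIndex → (nsmulAddMonoidHom (α := G) 2).range.index ≤ 2 ^ k →
    Module.finrank ℤ G ≤ k

/-- **MWR.** Mordell's theorem for the twists and the bound for the rank.
Proof. IDX, HGT and `AddCommGroup.fg_of_descent'` (the instance `Northcott h` is the finiteness), then RNK. -/
def SpecMWR : Prop :=
  ∀ d : ℤ, d ≠ 0 → AddGroup.FG (Pt d) ∧ Module.finrank ℤ (Pt d) ≤ 2 * (om (2 * d) + 1)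

/-- **GRP.** A criterion for linear independence.
Proof. Let `∑ n_i P_i = 0`, not all `n_i = 0`, `g = gcd(n_i) > 0`, `n_i = g m_i` with `gcd(m_i) = 1`, so one `m_i` is odd. `T = ∑ m_i P_i`
satisfies `g T = 0`. Write `g = 2^k m`, `m` odd; `T' = m T = ∑ (m m_i) P_i` has `2^k T' = 0`; by the first hypothesis (induction on `k`: `2^(k+1) T' = 0` with `k ≥ 1` gives
`4 (2^(k-1) T') = 0`, so `2^k T' = 0`) `2 T' = 0`. One of the `m m_i` is odd: contradiction to the second hypothesis with `Q = 0`. -/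
def SpecGRP : Prop :=
  ∀ (G : Type) [AddCommGroup G] (P : Fin 3 → G), (∀ T : G, (4 : ℕ) • T = 0 → (2 : ℕ) • T = 0) →
    (∀ n : Fin 3 → ℤ, (∃ i, Odd (n i)) → ∀ T : G, (2 : ℕ) • T = 0 → ∑ i, n i • P i ≠ T) →
    LinearIndependent ℤ P

/-- **NSQ.** Arithmetic of `a, b, c` for even `u ≥ 4`.
Proof. Positivity: `b = (u² - 3)² - 8 > 0`. They are odd; modulo 3: `a ≡ b ≡ c ≡ u⁴ + 1 ∈ {1, 2}`. `c - a = 6u²`, `a - b = 6u²`, `c - b = 12 u²`, and
`a, b, c` are prime to `6` and to `u` (`a ≡ b ≡ c ≡ 1` mod `u`): pairwise coprime. `(u²+2)² < c < (u²+3)²` (`2u² > 3`): `c` is not a square. So `ac` is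
not a square (coprime positive factors: `Int.sq_of_coprime` etc.), nor `bc`, nor `(ab)c`. In `ℚ`: an integer which is a
square in `ℚ` is a square in `ℤ` (`Rat.isSquare_intCast_iff`). -/
structure SpecNSQ : Prop where
  pos : ∀ u : ℤ, Even u → 4 ≤ u → 0 < fa u ∧ 0 < fb u ∧ 0 < fc u
  odd : ∀ u : ℤ, Even u → Odd (fa u * fb u * fc u)
  thr : ∀ u : ℤ, ¬ (3 : ℤ) ∣ fa u ∧ ¬ (3 : ℤ) ∣ fb u ∧ ¬ (3 : ℤ) ∣ fc u
  ac : ∀ u : ℤ, Even u → 4 ≤ u → ¬ IsSquare ((fa u * fc u : ℤ) : ℚ)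
  bc : ∀ u : ℤ, Even u → 4 ≤ u → ¬ IsSquare ((fb u * fc u : ℤ) : ℚ)
  abc : ∀ u : ℤ, Even u → 4 ≤ u → ¬ IsSquare (fa u * fb u * fc u)

/-- **PTS.** The three points on the twist by `d = 4 s`, `s q² = 6 a b c`, and their `δ`.
Proof. On `N y² = x³ - x`, `N = 6abc`: `x1 = a/(6u²)`, `y1 = 1/(36 u³)`; `x2 = -c/(3(u²-1)²)`, `y2 = 2/(9(u²-1)³)`;
`x3 = -b/(3(u²+1)²)`, `y3 = 2/(9(u²+1)³)`, since `x1 - 1 = b/(6u²)`, `x1 + 1 = c/(6u²)`, `x2 - 1 = -4a/(3(u²-1)²)`, `x2 + 1 = 2b/(3(u²-1)²)`,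
`x3 - 1 = -4a/(3(u²+1)²)`, `x3 + 1 = 2c/(3(u²+1)²)`. Point of `cur (4s)`: `X = 4 s x`, `Y = 8 s² q y` (`16·4 s³ (x³ - x) = 64 s³ N y² = 64 s⁴ q² y²`). The
`X - e_i = 4 s (x - 0), 4 s (x - 1), 4 s (x + 1)` are nonzero and `4s ~ s ~ N = 6abc` (`s q² = N`, `q ≠ 0`), so
`δ(P1) ~ (bc, ac, ab)`, `δ(P2) ~ (-2ab, -2bc, ac)`, `δ(P3) ~ (-2ac, -2bc, ab)`. (For instance `4 s x1 * (b c) = 4 s a b c/(6u²) = 4 s² q²/(36 u²)`, a square.) -/
def SpecPTS : Prop :=
  ∀ u s : ℤ, Good u s → ∃ P : Fin 3 → Pt (4 * s),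
    (IsSquare (del (4 * s) 0 (P 0) * ((fb u * fc u : ℤ) : ℚ)) ∧
      IsSquare (del (4 * s) 1 (P 0) * ((fa u * fc u : ℤ) : ℚ)) ∧
      IsSquare (del (4 * s) 2 (P 0) * ((fa u * fb u : ℤ) : ℚ))) ∧
    (IsSquare (del (4 * s) 0 (P 1) * ((-2 * (fa u * fb u) : ℤ) : ℚ)) ∧
      IsSquare (del (4 * s) 1 (P 1) * ((-2 * (fb u * fc u) : ℤ) : ℚ)) ∧
      IsSquare (del (4 * s) 2 (P 1) * ((fa u * fc u : ℤ) : ℚ))) ∧
    (IsSquare (del (4 * s) 0 (P 2) * ((-2 * (fa u * fc u) : ℤ) : ℚ)) ∧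
      IsSquare (del (4 * s) 1 (P 2) * ((-2 * (fb u * fc u) : ℤ) : ℚ)) ∧
      IsSquare (del (4 * s) 2 (P 2) * ((fa u * fb u : ℤ) : ℚ)))

/-- **IND.** The three points are independent.
Proof. GRP with the points of PTS (`d = 4 s ≠ 0`), first hypothesis = INJ (2). Let `n_i` be integers, not all even, `∑ n_i P_i = T`, `2 T = 0`. By HOM (induction)
`δ_i(∑ n_j P_j) ~ ∏_{n_j odd} δ_i(P_j)` (in particular `δ_i(n P) ~ 1` for even `n`, `~ δ_i(P)` for odd `n`; e.g. first show `∑ n_j P_j = ∑_{n_j odd} P_j + 2 Q` and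
`δ_i(R + 2Q) ~ δ_i(R)`). The seven products for the nonempty sets `J` of indices, modulo squares:
`{1}: (bc, ac, ab)`, `{2}: (-2ab, -2bc, ac)`, `{3}: (-2ac, -2bc, ab)`, `{1,2}: (-2ac, -2ab, bc)`, `{1,3}: (-2ab, -2ab, 1)`, `{2,3}: (bc, 1, bc)`, `{1,2,3}: (1, ac, ac)`.
If `T = 0`: all three components are squares, but `ac`, `bc` are not squares and `-2ab`, `-2ac` are negative (NSQ). If `T = (e_i, 0)`: `δ(T) = (-d², -d, d)` for `i = 0`,
`(d, 2d², 2d)` for `i = 1`, `(-d, -2d, 2d²)` for `i = 2`: look at the component `1`, `0`, `0`: it is `± d = ± 4 s`, whose valuation at `3` is odd (`s q² = 6abc`, `3 ∤ abc`), while the valuation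
at 3 of the product is even (all factors `2, a, b, c` are prime to 3). Finally `LinearIndependent.fintype_card_le_finrank` (with `Module.Finite`). -/
def SpecIND : Prop :=
  ∀ u s : ℤ, Good u s → AddGroup.FG (Pt (4 * s)) → 3 ≤ Module.finrank ℤ (Pt (4 * s))

/-- **CNT.** Many good `s` with few prime factors.
Proof. Uses `SpecSieveP` of `Pool.Agent.Lib.MP_3efbeb_nt.SV.Poly` (import it; it is proved there: `specSieveP`) with `k = 12` and the polynomial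
`F(y) = f(2(y+1))`, `f(u) = fa u * fb u * fc u` (degree 12). For every prime `p`: `F(-1) = f(0) = 1` is not divisible by `p`. Let `C ≥ 1` be the constant, `z = Y^(1/C)`.
`A = {1 ≤ y ≤ Y : F(y) has no prime factor < z}` has at least `Y/(C(1 + log z))^C` elements. Let `y ∈ A`, `u = 2(y+1) ≥ 4`. `1 ≤ F(y) ≤ (2Y+3)^12`
(`fa, fb, fc ≤ (u+1)^4` as `4u³ + .. ≥ 6u²`...), all prime factors are `≥ z`, so `om (F y) ≤ log F(y)/log z ≤ 12 log(2Y+3)/log z ≤ 12 C log(2Y+3)/log Y ≤ 24 C` for `Y ≥ 5` or so. Let `s` be the squarefree part of `6 F(y)` (`Nat.sq_mul_squarefree`):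
`Good u s`, `s ≤ 6 (2Y+3)^12`, `om s ≤ 2 + 24 C =: R`. `F(y)` is not a square (NSQ `abc`), so there is a prime `p` with `v_p(F(y))` odd; `p ≠ 2, 3` (NSQ `odd`, `thr`), so `v_p(6F(y))` is odd and `p ∣ s`, and `p ≥ z`. Hence
every such `s` has a prime factor `p = p(s) ≥ z`, `p ≥ 5`, and all `y ∈ A` with this `s` satisfy `p ∣ F(y)` (`p ∣ s ∣ 6 F(y)`): at most `12 (Y/p + 1) ≤ 24 Y/z` of them
(`SievePM.card_roots`, `SievePM.nu_prime` in the same file). So the number of different `s` is at least `|A| z/(24 Y) ≥ z/(24 (C(1+log z))^C) ≥ z^(1/2)` for large `Y`; `η = 1/(2C)`. -/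
def SpecCNT : Prop :=
  ∃ (R : ℕ) (η : ℝ), 0 < η ∧ ∃ Y₀ : ℕ, ∀ Y : ℕ, Y₀ ≤ Y → ∃ S : Finset ℤ, (Y : ℝ) ^ η ≤ (S.card : ℝ) ∧
    ∀ s ∈ S, s ≤ 6 * (2 * (Y : ℤ) + 3) ^ 12 ∧ om s ≤ R ∧ ∃ u : ℤ, Good u s

/-- **FIN.** The theorem.
Proof. Let `Y` be the largest natural number with `24 (2Y+3)^12 < X`, so `Y ≥ c X^(1/12)` (`X < 24 (2Y+5)^12`); `S` from CNT, `d = 4 s` for `s ∈ S`. `s q² = 6abc = 2·odd`: `s` is
even (else `q` is even and `4 ∣ 2·odd`), and `4 ∤ s`, so `s ≡ 2` mod 4 and `d` is a fundamental discriminant with `0 < d < X`. `E_d(ℚ)` is finitely generated of rank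
`≤ 2 (om (8 s) + 1) ≤ 2 (R + 1)` (MWR; `2 ∣ s`, so `om (8s) = om s`) and `≥ 3` (IND). `d ↦ s` injective. The number is `≥ Y^η ≥ X^θ` with `θ = η/13` for large `X`.
(2) Pigeonhole: for `X ≥ X₀` some `r ∈ [3, R']` has at least `X^θ/R'` of the `d`; one `r` works for arbitrarily large `X`. -/
def SpecFIN : Prop :=
  ∃ (R : ℕ) (θ : ℝ), 0 < θ ∧
    (∃ X₀ : ℝ, ∀ X : ℝ, X₀ ≤ X → X ^ θ ≤ (({d : ℤ | IsFund d ∧ |(d : ℝ)| < X ∧
      AddGroup.FG (Pt d) ∧ 3 ≤ Module.finrank ℤ (Pt d) ∧ Module.finrank ℤ (Pt d) ≤ R}.ncard : ℕ) : ℝ)) ∧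
    (∃ r : ℕ, 3 ≤ r ∧ r ≤ R ∧ ∀ X₀ : ℝ, ∃ X : ℝ, X₀ ≤ X ∧ X ^ θ ≤ (({d : ℤ | IsFund d ∧
      |(d : ℝ)| < X ∧ AddGroup.FG (Pt d) ∧ Module.finrank ℤ (Pt d) = r}.ncard : ℕ) : ℝ))

end Pool.Agent.Lib.MPad6874
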