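import Pool.Agent.Lib.MP_ad6874_nt.Spec

/-!
# Version 2: two variables, exponent 1/6 up to logarithms (MP_ad6874_nt)

Target: for `E : y² = x³ - x` there are `R, C` such that for all large `X` at least `X^(1/6) / (log X)^C`
fundamental discriminants `|d| < X` have `E_d(ℚ)` finitely generated of rank between `3` and `R`.

Homogeneous form of the family: `a = u⁴ + v⁴`, `b = u⁴ - 6u²v² + v⁴ = gp gq`, `c = u⁴ + 6u²v² + v⁴`, `s` = the squarefree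
part of `6abc`, `d = 4 s`. The modules BAS, HOM, INJ, VAL, IDX, HGT, RNK, MWR, GRP of version 1 are used again. Counts are `Set.ncard`
(or `Finset.card`); same conventions as in `Spec` (do not open `Classical` where the group law occurs).
-/

set_option autoImplicit false

namespace Pool.Agent.Lib.MPad6874

/-- `a` -/
def ga (u v : ℤ) : ℤ := u ^ 4 + v ^ 4

/-- first factor of `b` -/
def gp (u v : ℤ) : ℤ := u ^ 2 - 2 * u * v - v ^ 2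

/-- second factor of `b` -/
def gq (u v : ℤ) : ℤ := u ^ 2 + 2 * u * v - v ^ 2

/-- `b = u⁴ - 6u²v² + v⁴` -/
def gb (u v : ℤ) : ℤ := gp u v * gq u v

/-- `c` -/
def gc (u v : ℤ) : ℤ := u ^ 4 + 6 * (u ^ 2 * v ^ 2) + v ^ 4

/-- `a b c` -/
def gF (u v : ℤ) : ℤ := ga u v * gb u v * gc u v

/-- The admissible parameters. -/
def Pr (u v : ℤ) : Prop := u % 6 = 2 ∧ v % 6 = 1 ∧ 0 < v ∧ 3 * v ≤ u ∧ IsCoprime u v

/-- `s` is the squarefree part of `6 a b c`. -/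
def Good2 (u v s : ℤ) : Prop := Pr u v ∧ Squarefree s ∧ 0 < s ∧ ∃ q : ℤ, s * q ^ 2 = 6 * gF u v

/-- the parameter `u` in the box of size `Y` -/
def uY (Y y : ℕ) : ℤ := 6 * (3 * (Y : ℤ) + y) + 2

/-- the parameter `v` -/
def vW (w : ℕ) : ℤ := 6 * (w : ℤ) + 1

/-- the box -/
def Box (Y : ℕ) (t : ℕ × ℕ) : Prop := 1 ≤ t.1 ∧ t.1 ≤ Y ∧ 1 ≤ t.2 ∧ t.2 ≤ Y

/-- no prime factor below `z` -/
def Rough (z : ℝ) (n : ℤ) : Prop := ∀ p : ℕ, p.Prime → (p : ℝ) < z → ¬ (p : ℤ) ∣ n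

/-- **AR2.** Arithmetic of the forms for admissible `u, v`.
Proof. `0 < v ≤ u/3`: `gp = u² - 2uv - v² ≥ u² (1 - 2/3 - 1/9) = 2u²/9`, `gq ≥ u² - v²`, all positive; `ga ≤ 2u⁴`, `gb ≤ u⁴` (`gb = (u²-v²)² - 4u²v²`), `gc ≤ 2u⁴`, so `gF ≤ 4 u^12`. `u` even,
`v` odd: all are odd. Mod 3: `u² ≡ v² ≡ 1`: `a ≡ 2`, `b ≡ 1 - 6 + 1 ≡ 2`, `c ≡ 2`. Coprime: a common prime `p` of `a` and `b` or `c` divides `6u²v²` (`a - b = c - a = 6u²v²`), of `b` and `c` divides `12u²v²`; `p ≠ 2, 3`; if `p ∣ u` then `p ∣ v` and conversely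
(`p ∣ u⁴ + v⁴` etc.), contradiction. `gq - gp = 4uv` similarly. `ac` a square: `a, c > 0` coprime, so `a` is a square, but `a ≡ 2` mod 3; the same for `c` in `bc` (`Int.sq_of_coprime`, `Rat.isSquare_intCast_iff`). -/
structure SpecAR2 : Prop where
  pos : ∀ u v : ℤ, Pr u v → 0 < ga u v ∧ 0 < gp u v ∧ 0 < gq u v ∧ 0 < gc u v
  low : ∀ u v : ℤ, Pr u v → u ^ 2 ≤ 9 * gp u v ∧ u ^ 2 ≤ 9 * gq u v
  upp : ∀ u v : ℤ, Pr u v → gF u v ≤ (2 * u) ^ 12 ∧ gp u v ≤ u ^ 2 ∧ gq u v ≤ 2 * u ^ 2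
  odd : ∀ u v : ℤ, Pr u v → Odd (gF u v)
  thr : ∀ u v : ℤ, Pr u v → ga u v % 3 = 2 ∧ gb u v % 3 = 2 ∧ gc u v % 3 = 2
  cop : ∀ u v : ℤ, Pr u v → IsCoprime (ga u v) (gb u v) ∧ IsCoprime (ga u v) (gc u v) ∧
    IsCoprime (gb u v) (gc u v) ∧ IsCoprime (gp u v) (gq u v)
  ac : ∀ u v : ℤ, Pr u v → ¬ IsSquare ((ga u v * gc u v : ℤ) : ℚ)
  bc : ∀ u v : ℤ, Pr u v → ¬ IsSquare ((gb u v * gc u v : ℤ) : ℚ)

/-- **PT2.** The three points (homogeneous version of `PTS.lean`: copy it; the lemmas `PTSaux.mk`, `PTSaux.one` can be used as they are).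
Proof. `x1 = a/(6u²v²)`, `y1 = 1/(36u³v³)`; `x2 = -c/(3(u²-v²)²)`, `y2 = 2/(9(u²-v²)³)`; `x3 = -b/(3(u²+v²)²)`, `y3 = 2/(9(u²+v²)³)` on `N y² = x³ - x`,
`N = 6abc`; `x1 - 1 = b/(6u²v²)`, `x1 + 1 = c/(6u²v²)`, `x2 - 1 = -4a/(3(u²-v²)²)`, `x2 + 1 = 2b/(3(u²-v²)²)`, `x3 - 1 = -4a/(3(u²+v²)²)`, `x3 + 1 = 2c/(3(u²+v²)²)`. -/
def SpecPT2 : Prop :=
  ∀ u v s : ℤ, Good2 u v s → ∃ P : Fin 3 → Pt (4 * s),
    (IsSquare (del (4 * s) 0 (P 0) * ((gb u v * gc u v : ℤ) : ℚ)) ∧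
      IsSquare (del (4 * s) 1 (P 0) * ((ga u v * gc u v : ℤ) : ℚ)) ∧
      IsSquare (del (4 * s) 2 (P 0) * ((ga u v * gb u v : ℤ) : ℚ))) ∧
    (IsSquare (del (4 * s) 0 (P 1) * ((-2 * (ga u v * gb u v) : ℤ) : ℚ)) ∧
      IsSquare (del (4 * s) 1 (P 1) * ((-2 * (gb u v * gc u v) : ℤ) : ℚ)) ∧
      IsSquare (del (4 * s) 2 (P 1) * ((ga u v * gc u v : ℤ) : ℚ))) ∧
    (IsSquare (del (4 * s) 0 (P 2) * ((-2 * (ga u v * gc u v) : ℤ) : ℚ)) ∧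
      IsSquare (del (4 * s) 1 (P 2) * ((-2 * (gb u v * gc u v) : ℤ) : ℚ)) ∧
      IsSquare (del (4 * s) 2 (P 2) * ((ga u v * gb u v : ℤ) : ℚ)))

/-- **IN2.** The three points are independent (copy of `IND.lean` with `ga, gb, gc` for `fa, fb, fc`; the lemmas of `INDM` which do not mention `fa` can be imported).
Proof. As for IND: positivity, `ac`, `bc` not squares, `3 ∤ abc` are in AR2. -/
def SpecIN2 : Prop :=
  ∀ u v s : ℤ, Good2 u v s → AddGroup.FG (Pt (4 * s)) → 3 ≤ Module.finrank ℤ (Pt (4 * s))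

/-- **SV2.** The sieve in the variable `y`, uniformly in `v`.
Proof. `specSieveP` of `Pool.Agent.Lib.MP_3efbeb_nt.SV.Poly` (import it) with `k = 12` and the polynomial `F(y) = gF (6 (3Y + y) + 2) v` in `ℤ[y]` (see `CNT.lean` for the pattern; its constant is uniform in the coefficients), constant `C₀`; take
`C = C₀ + 1` (`z^C₀ ≤ z^C ≤ Y`, `(C₀(1+log z))^C₀ ≤ (C(1+log z))^C`). No fixed prime divisor: `p = 2`: `F` is odd (`u` even, `v` odd). `p = 3`: `u² ≡ v² ≡ 1`, `F ≡ 8`. `p ≥ 5`: `6` is invertible mod `p`, so `u = 6(3Y+y)+2` takes every residue: if `p ∤ v` choose `u ≡ 0`: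
`F ≡ v^12`; if `p ∣ v` choose `u ≡ 1`: `F ≡ 1`. -/
def SpecSV2 : Prop :=
  ∃ C : ℕ, 1 ≤ C ∧ ∀ (z : ℝ) (Y : ℕ) (v : ℤ), 2 ≤ z → z ^ C ≤ (Y : ℝ) → v % 6 = 1 →
    (Y : ℝ) ≤ (C * (1 + Real.log z)) ^ C *
      (({y : ℕ | 1 ≤ y ∧ y ≤ Y ∧ Rough z (gF (uY Y y) v)}.ncard : ℕ) : ℝ)

/-- **TS2.** Tail of `∑ 1/n²`. Proof: `1/n² ≤ 1/(n-1) - 1/n` for `n ≥ 2`; with `m = ⌈z⌉` the sum over `m ≤ n ≤ N` is at most `1/m² + 1/m ≤ 2/m ≤ 2/z`. -/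
def SpecTS2 : Prop :=
  ∀ (z : ℝ) (N : ℕ), 1 ≤ z → ∑ n ∈ (Finset.Icc 1 N).filter (fun n : ℕ => z ≤ (n : ℝ)), (1 : ℝ) / (n : ℝ) ^ 2 ≤ 2 / z

/-- **SP2.** Well spaced numbers. Proof: `x ↦ ⌊x/g⌋` is injective on `S` (two numbers with the same value differ by less than `g`) with values in `{0, .., ⌊L/g⌋}`. -/
def SpecSP2 : Prop :=
  ∀ (S : Finset ℝ) (g L : ℝ), 0 < g → 0 ≤ L → (∀ x ∈ S, 0 ≤ x ∧ x ≤ L) →
    (∀ x ∈ S, ∀ y ∈ S, x ≠ y → g ≤ |x - y|) → (S.card : ℝ) ≤ L / g + 1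

/-- **PB2.** Pairs for which `p²` divides `gp` (or `gq`).
Proof. Let `5 ≤ p` be prime, `G = gp`. Put `u_i = uY Y y_i`, `v_i = vW w_i` for two such pairs; `0 < v_i ≤ u_i/3`, `u_i ≤ 26 Y`. `p ∤ v_i` (else `p ∣ u_i`). With `D = u1 v2 - u2 v1`,
`D' = u1 v2 + u2 v1 - 2 v1 v2`: `G(u1,v1) v2² - G(u2,v2) v1² = D D'`, so `p² ∣ D D'`; `p` does not divide both, as `D' - D = 2 v1 (u2 - v2)` and `u2 ≡ v2` gives `G ≡ -2 v2²`. So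
`p² ∣ D` or `p² ∣ D'`. Call the pairs equivalent if `p² ∣ D` (i.e. `u/v` is the same mod `p²`): there are at most two classes (fix one pair; the others are in its class, or satisfy `p² ∣ D'`, i.e. `u/v ≡ 2 - u0/v0`; with `x = u/v` in `ZMod (p²)` the roots
of `x² - 2x - 1`). In one class the slopes `v/u` of different pairs are different (coprime, positive) and differ by `|D|/(u1 u2) ≥ p²/(26Y)²`, and lie in `[0, 1/3]`: at most `676Y²/(3p²) + 1` pairs in a class (SP2). Total `≤ 452 Y²/p² + 2`.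
`gq(u,v) = gp(u,-v)`: the same with `D' = u1 v2 + u2 v1 + 2 v1 v2`. -/
def SpecPB2 : Prop :=
  ∀ (Y p : ℕ), 1 ≤ Y → p.Prime → 5 ≤ p →
    (({t : ℕ × ℕ | Box Y t ∧ IsCoprime (uY Y t.1) (vW t.2) ∧
      (p : ℤ) ^ 2 ∣ gp (uY Y t.1) (vW t.2)}.ncard : ℕ) : ℝ) ≤ 500 * (Y : ℝ) ^ 2 / (p : ℝ) ^ 2 + 2 ∧
    (({t : ℕ × ℕ | Box Y t ∧ IsCoprime (uY Y t.1) (vW t.2) ∧
      (p : ℤ) ^ 2 ∣ gq (uY Y t.1) (vW t.2)}.ncard : ℕ) : ℝ) ≤ 500 * (Y : ℝ) ^ 2 / (p : ℝ) ^ 2 + 2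

/-- **RC2.** Few pairs have a common prime factor `≥ z`.
Proof. The prime `p` divides `vW w = 6w + 1 ≤ 6Y + 1`, so `5 ≤ p ≤ 6Y + 1`, and `6` is invertible mod `p`: at most `Y/p + 1` values of `y` and at most `Y/p + 1` values of `w` (numbers in one residue class mod `p`); `(Y/p+1)² ≤ 2Y²/p² + 2`. Sum over all integers `z ≤ p ≤ 7Y` with TS2:
`≤ 4Y²/z + 14Y`. -/
def SpecRC2 : Prop :=
  ∃ K : ℝ, ∀ (z : ℝ) (Y : ℕ), 2 ≤ z → 1 ≤ Y →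
    (({t : ℕ × ℕ | Box Y t ∧ ∃ p : ℕ, p.Prime ∧ z ≤ (p : ℝ) ∧ (p : ℤ) ∣ uY Y t.1 ∧
      (p : ℤ) ∣ vW t.2}.ncard : ℕ) : ℝ) ≤ K * ((Y : ℝ) ^ 2 / z + Y)

/-- **RS2.** Few pairs have a large square divisor of `b`.
Proof. For a coprime pair in the box `Pr` holds (`3 (6w+1) ≤ 18Y + 3 ≤ 18Y + 8 ≤ u`). `p² ∣ gp ≤ u² ≤ (26Y)²` or `p² ∣ gq ≤ 2u²`: `p ≤ 40Y`; `p ≥ 5` because `gp`, `gq` are odd and prime to `3` (AR2). Sum PB2 over the integers (primes) `z ≤ p ≤ 40Y`, with TS2: `≤ 2 (1000 Y²/z + 80 Y)`. -/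
def SpecRS2 : Prop :=
  ∃ K : ℝ, ∀ (z : ℝ) (Y : ℕ), 2 ≤ z → 1 ≤ Y →
    (({t : ℕ × ℕ | Box Y t ∧ IsCoprime (uY Y t.1) (vW t.2) ∧ ∃ p : ℕ, p.Prime ∧ z ≤ (p : ℝ) ∧
      ((p : ℤ) ^ 2 ∣ gp (uY Y t.1) (vW t.2) ∨ (p : ℤ) ^ 2 ∣ gq (uY Y t.1) (vW t.2))}.ncard : ℕ) : ℝ) ≤
      K * ((Y : ℝ) ^ 2 / z + Y)

/-- **FB2.** A given large `s` comes from few pairs.
Proof. `6 ∣ s` (as `s q² = 6F`, `F` odd and prime to 3, see `CNTM.exists_prime` in `CNT.lean`); let `M` be the set of the prime factors `p ≥ 5` of `s`, `s' = s/6 = ∏ M`. Let `(u, v) ∈ T`. `p ∈ M` divides `F = gF u v` and not `v` (else `p ∣ u`), so `ρ_p = u/v` in `ZMod p` is a zero of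
`f = (x⁴+1)(x⁴-6x²+1)(x⁴+6x²+1)` (monic of degree 12, at most 12 zeros in the field `ZMod p`). The map `T → ∏_{p ∈ M} (zeros of f in ZMod p)` is injective: if `(u1,v1)`, `(u2,v2)` have the same image then every `p ∈ M` divides `D = u1 v2 - u2 v1`, so `s' ∣ D`; but `0 < u_i v_j ≤ B²/3`, `|D| < B² ≤ s'`, so
`D = 0` and by coprimality and positivity the pairs are equal. So `|T| ≤ 12^|M|`. (`Finset.card_le_card_of_injOn` into `Finset.pi M (fun p => zeros)` or `Fintype.piFinset`.) -/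
def SpecFB2 : Prop :=
  ∀ (B s : ℤ) (T : Finset (ℤ × ℤ)), (∀ t ∈ T, Good2 t.1 t.2 s ∧ t.1 ≤ B) → 6 * B ^ 2 ≤ s →
    T.card ≤ 12 ^ (om s)

/-- **CN2.** The count.
Proof. Let `C` be from SV2, `z = Y^(1/C)`. The set `P` of `(y, w)` in the box with `Rough z (gF u v)` (`u = uY Y y`, `v = vW w`) has at least `Y²/(C(1 + log z))^C` elements (SV2 for each `w`). Remove the pairs with a common prime factor (it divides `gF`, so it is `≥ z`; RC2), and the coprime pairs with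
`p² ∣ gp` or `p² ∣ gq` for a prime `p ≥ z` (RS2); there remain at least `Y²/(2 (C(1 + log z))^C)` pairs `P'` for large `Y` (`z` is a power of `Y`). For `(y, w) ∈ P'`: `Pr u v`; `gp`, `gq` are squarefree (a prime `p < z` does not divide them) and coprime, so `b = gb` is squarefree and prime to `6ac`, so `6 b ∣ s` for the squarefree
part `s` of `6 gF` (`v_p(6F) = 1` for `p ∣ b`; if `n = s q²`, `v_p(n) = 1`, then `p ∣ s`). So `s ≥ 6 b ≥ 6 (u²/9)² ≥ 6 B²` with `B = 26 Y` (`u ≥ 18Y`, `u⁴/81 ≥ 1296 Y⁴ ≥ 676 Y²`). `om s ≤ 2 + om F`, `z^(om F) ≤ F ≤ (2u)^12 ≤ (52Y)^12 ≤ Y^24 = z^(24C)` for `Y ≥ 52`; `R = 24C + 2` (see `CNTM.om_le`, `om_sf`).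
`S` = the set of the `s`; each comes from at most `12^R` pairs (FB2; `(y,w) ↦ (u,v)` is injective): `|S| ≥ |P'|/12^R`. Finally `1 + log z ≤ 2 log Y`. -/
def SpecCN2 : Prop :=
  ∃ (R C : ℕ) (c : ℝ), 0 < c ∧ ∃ Y₀ : ℕ, ∀ Y : ℕ, Y₀ ≤ Y → ∃ S : Finset ℤ,
    c * (Y : ℝ) ^ 2 ≤ Real.log Y ^ C * (S.card : ℝ) ∧
    ∀ s ∈ S, s ≤ 6 * (100 * (Y : ℤ)) ^ 12 ∧ om s ≤ R ∧ ∃ u v : ℤ, Good2 u v s

/-- **FN2.** The theorem.
Proof. Let `Y` be the largest natural number with `24 (100Y)^12 < X`; `X ≤ 24 (100 (Y+1))^12`, so `Y + 1 ≥ X^(1/12)/150` and `Y² ≥ c' X^(1/6)`, `log Y ≤ log X`. `S` from CN2, `d = 4s`: `s q² = 6abc = 2·odd` gives `s ≡ 2` mod 4 (see `FIN.lean`, which does the same for version 1), `d` is a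
fundamental discriminant, `0 < d < X`; MWR: finitely generated, rank `≤ 2 (om (8s) + 1) = 2 (om s + 1) ≤ 2 (R + 1)`; IN2: rank `≥ 3`. -/
def SpecFN2 : Prop :=
  ∃ (R C : ℕ), ∃ X₀ : ℝ, ∀ X : ℝ, X₀ ≤ X → X ^ ((1 : ℝ) / 6) / Real.log X ^ C ≤ (({d : ℤ | IsFund d ∧
      |(d : ℝ)| < X ∧ AddGroup.FG (Pt d) ∧ 3 ≤ Module.finrank ℤ (Pt d) ∧
      Module.finrank ℤ (Pt d) ≤ R}.ncard : ℕ) : ℝ)

end Pool.Agent.Lib.MPad6874
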