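import Pool.Agent.Lib.MP_ad6874_nt.Spec2

/-!
# Version 3: every curve `y² = x³ - k² x` (MP_ad6874_nt)

The twist by `d` of `E_k : y² = x³ - k² x` is `cur (k d)`. Its isomorphism class depends only on the class of `k d`
modulo squares, so the discriminants of version 2 give discriminants for `E_k`: for `s` as in CN2 let `d` be the fundamental
discriminant with `k d ~ s` (modulo squares).
-/

set_option autoImplicit false

namespace Pool.Agent.Lib.MPad6874

/-- `D` is `s` times a nonzero rational square. -/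
def Sim (D s : ℤ) : Prop := ∃ l : ℚ, l ≠ 0 ∧ (D : ℚ) = (s : ℚ) * l ^ 2

/-- **PT3.** The three points on `cur D` for `D ~ s` (adapt `PT2.lean`: the only change is the analogue of `PTSaux.mk`).
Proof. `D = s l²`, `s q² = N = 6abc` (`s > 0`, `D ≠ 0`). A solution of `N y² = x³ - x` gives the point `X = D x`, `Y = D² q y / l` of `cur D`: `D³ (x³ - x) = D³ N y² = D³ s q² y² = D⁴ q² y² / l²`.
`X - e_i = D x, D (x - 1), D (x + 1)`, which are `s x, ..` times the square `l²`; the rest is the same computation (e.g. `D x1 (bc) = l² s (a/(6u²v²)) b c = l² s² q²/(36 u² v²)`). -/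
def SpecPT3 : Prop :=
  ∀ u v s D : ℤ, Good2 u v s → Sim D s → ∃ P : Fin 3 → Pt D,
    (IsSquare (del D 0 (P 0) * ((gb u v * gc u v : ℤ) : ℚ)) ∧
      IsSquare (del D 1 (P 0) * ((ga u v * gc u v : ℤ) : ℚ)) ∧
      IsSquare (del D 2 (P 0) * ((ga u v * gb u v : ℤ) : ℚ))) ∧
    (IsSquare (del D 0 (P 1) * ((-2 * (ga u v * gb u v) : ℤ) : ℚ)) ∧
      IsSquare (del D 1 (P 1) * ((-2 * (gb u v * gc u v) : ℤ) : ℚ)) ∧
      IsSquare (del D 2 (P 1) * ((ga u v * gc u v : ℤ) : ℚ))) ∧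
    (IsSquare (del D 0 (P 2) * ((-2 * (ga u v * gc u v) : ℤ) : ℚ)) ∧
      IsSquare (del D 1 (P 2) * ((-2 * (gb u v * gc u v) : ℤ) : ℚ)) ∧
      IsSquare (del D 2 (P 2) * ((ga u v * gb u v : ℤ) : ℚ)))

/-- **IN3.** Independence (adapt `IN2.lean`).
Proof. The only change: for `T = (e_k, 0)` the relevant component of `δ(T)` is `± D = ± s l²`, and `± s l² X` with `3 ∤ X` is not a square because `± s X` is not (`3 ∣ s`, `9 ∤ s`; the old lemma `not_sq` says
that `± 4 s X` is not a square, and `(l/2)²` is a square). -/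
def SpecIN3 : Prop :=
  ∀ u v s D : ℤ, Good2 u v s → Sim D s → AddGroup.FG (Pt D) → 3 ≤ Module.finrank ℤ (Pt D)

/-- **DK3.** The fundamental discriminant `d` with `k d ~ s`.
Proof. Write `k s = m t²` with `m` squarefree (with the sign of `k`; `Nat.sq_mul_squarefree` for `|k s|`), `t ≠ 0`. `m = 1` is impossible: then `k s` is a square, `s` squarefree, so `s ∣ k` and `s ≤ |k|`. If `m ≡ 1` mod 4 put `d = m`,
otherwise `d = 4 m` (`m ≡ 2, 3` mod 4; `m ≡ 0` is impossible). `k m = s (k/t)²`. `|m| ≤ |k| s`. `m ∣ k s`, so every prime factor of `2 (k d)` divides `2 k s`: `om (2 (k d)) ≤ om k + om s + 1`. -/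
def SpecDK3 : Prop :=
  ∀ k s : ℤ, k ≠ 0 → Squarefree s → |k| < s → ∃ d : ℤ, IsFund d ∧ |d| ≤ 4 * |k| * s ∧
    Sim (k * d) s ∧ om (2 * (k * d)) ≤ om k + om s + 1

/-- **FN3.** The theorem for `E_k`.
Proof. As FN2 (`FN2.lean`): `Y` = the largest natural number with `24 |k| (100Y)^12 < X`; take `S` from CN2 and remove the at most `|k|` elements `≤ |k|` (all elements are positive), which leaves at least half of it for large `Y`; `d(s)` from DK3: `|d| ≤ 4 |k| s < X`; `s ↦ d(s)` is injective: if `k d ~ s` and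
`k d ~ s'` then `s s'` is a square in `ℚ`, hence in `ℤ`, and `s = s'` as both are squarefree and positive. MWR for `k d`: finitely generated of rank `≤ 2 (om (2kd) + 1) ≤ 2 (om k + R + 2)`; IN3: rank `≥ 3`. -/
def SpecFN3 : Prop :=
  ∀ k : ℤ, k ≠ 0 → ∃ (R C : ℕ), ∃ X₀ : ℝ, ∀ X : ℝ, X₀ ≤ X → X ^ ((1 : ℝ) / 6) / Real.log X ^ C ≤
    (({d : ℤ | IsFund d ∧ |(d : ℝ)| < X ∧ AddGroup.FG (Pt (k * d)) ∧
      3 ≤ Module.finrank ℤ (Pt (k * d)) ∧ Module.finrank ℤ (Pt (k * d)) ≤ R}.ncard : ℕ) : ℝ)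

end Pool.Agent.Lib.MPad6874
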